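import Pool.Agent.V7H24.TR.Tail
import Pool.Agent.N671.DA.Nat

/-!
# Good simultaneous approximations: the denominators avoid sets with a saving of every power of the logarithm
-/

set_option autoImplicit false

namespace Pool.Agent.V7H24.TR

open Finset Classical MeasureTheory Filter
open Pool.Agent.N375.AV (LogThin near_log)
open Pool.Agent.N733.TG (Expanding expanding_pow)
open Pool.Agent.N671.DA (Solves)

/-- the solutions in one variable -/
def S1 (R : ℝ) (b : ℝ) (q : ℕ) (r : ℝ) : Set ℝ := {x : ℝ | |x| ≤ R ∧ ∃ p : ℤ, |(q : ℝ) * x - b - p| ≤ r}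

lemma vol_S1 {R b : ℝ} (hR : 0 ≤ R) {q : ℕ} (hq : 1 ≤ q) {r : ℝ} (hr : 0 ≤ r) (hr1 : r ≤ 1) :
    volume (S1 R b q r) ≤ ENNReal.ofReal (2 * (2 * R + 3) * r) := by
  have hq0 : (0 : ℝ) < q := by exact_mod_cast hq
  have hq1 : (1 : ℝ) ≤ q := by exact_mod_cast hq
  obtain ⟨a, ha⟩ : ∃ a : ℤ, a = ⌈-(q : ℝ) * R - b - r⌉ := ⟨_, rfl⟩
  obtain ⟨c, hc⟩ : ∃ c : ℤ, c = ⌊(q : ℝ) * R - b + r⌋ := ⟨_, rfl⟩
  have hsub : S1 R b q r ⊆ ⋃ p ∈ Icc a c, Set.Icc ((b + p - r) / q) ((b + p + r) / q) := by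
    rintro x ⟨h1, p, h2⟩
    obtain ⟨h3, h4⟩ := abs_le.1 h1
    obtain ⟨h5, h6⟩ := abs_le.1 h2
    rw [Set.mem_iUnion₂]
    refine ⟨p, ?_, ?_⟩
    · rw [Finset.mem_Icc, ha, hc]
      constructor
      · apply Int.ceil_le.2
        nlinarith
      · apply Int.le_floor.2
        nlinarith
    · rw [Set.mem_Icc, div_le_iff₀ hq0, le_div_iff₀ hq0]
      constructor <;> nlinarith
  refine (measure_mono hsub).trans ((measure_biUnion_finset_le _ _).trans ?_)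
  have h1 : ∀ p ∈ Icc a c, volume (Set.Icc ((b + p - r) / q) ((b + p + r) / q)) = ENNReal.ofReal (2 * r / q) := by
    intro p _
    rw [Real.volume_Icc]
    congr 1
    field_simp
    ring
  rw [sum_congr rfl h1, sum_const, nsmul_eq_mul, ← ENNReal.ofReal_natCast, ← ENNReal.ofReal_mul (Nat.cast_nonneg _)]
  apply ENNReal.ofReal_le_ofReal
  have hcard : ((Icc a c).card : ℝ) ≤ 2 * q * R + 3 := by
    rw [Int.card_Icc]
    rcases le_or_gt 0 (c + 1 - a) with h | h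
    · have h2 : (((c + 1 - a).toNat : ℕ) : ℝ) = ((c + 1 - a : ℤ) : ℝ) := by
        exact_mod_cast Int.toNat_of_nonneg h
      rw [h2]
      push_cast
      have h3 : (c : ℝ) ≤ (q : ℝ) * R - b + r := by rw [hc]; exact Int.floor_le _
      have h4 : -(q : ℝ) * R - b - r ≤ (a : ℝ) := by rw [ha]; exact Int.le_ceil _
      nlinarith
    · rw [Int.toNat_of_nonpos h.le]
      have : 0 ≤ (q : ℝ) * R := by positivity
      push_cast
      nlinarith
  have h5 : 2 * (q : ℝ) * R + 3 ≤ (2 * R + 3) * q := by nlinarith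
  calc ((Icc a c).card : ℝ) * (2 * r / q) ≤ ((2 * R + 3) * q) * (2 * r / q) := by
        apply mul_le_mul_of_nonneg_right (hcard.trans h5) (by positivity)
    _ = 2 * (2 * R + 3) * r := by field_simp

/-- the solutions in the cube -/
def SC {k : ℕ} (R : ℝ) (β : Fin k → ℝ) (q : ℕ) (r : ℝ) : Set (Fin k → ℝ) := {α | (∀ j, |α j| ≤ R) ∧ Solves α β q r}

lemma vol_SC {k : ℕ} {R : ℝ} (hR : 0 ≤ R) (β : Fin k → ℝ) {q : ℕ} (hq : 1 ≤ q) {r : ℝ} (hr : 0 ≤ r) (hr1 : r ≤ 1) :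
    volume (SC R β q r) ≤ ENNReal.ofReal ((2 * (2 * R + 3)) ^ k * r ^ k) := by
  have hsub : SC R β q r ⊆ Set.univ.pi (fun j => S1 R (β j) q r) := by
    rintro α ⟨h1, h2⟩ j _
    exact ⟨h1 j, h2 j⟩
  refine (measure_mono hsub).trans ?_
  rw [volume_pi_pi]
  calc ∏ j, volume (S1 R (β j) q r) ≤ ∏ _j : Fin k, ENNReal.ofReal (2 * (2 * R + 3) * r) :=
        Finset.prod_le_prod' (fun j _ => vol_S1 hR hq hr hr1)
    _ = ENNReal.ofReal ((2 * (2 * R + 3)) ^ k * r ^ k) := by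
        rw [prod_const, card_univ, Fintype.card_fin, ← ENNReal.ofReal_pow (by positivity), mul_pow]

lemma radius_small {k : ℕ} (hk : 1 ≤ k) (K : ℕ) :
    ∀ᶠ q : ℕ in atTop, (1 + Real.log q) ^ K * (q : ℝ) ^ (-(1 / (k : ℝ))) ≤ 1 := by
  have hk0 : (0 : ℝ) < k := by exact_mod_cast hk
  have h0 : (0 : ℝ) < 1 / k := by positivity
  have h1 := (isLittleO_log_rpow_rpow_atTop (K : ℝ) h0).bound (show (0 : ℝ) < 1 / 2 ^ K by positivity)
  have h2 := (tendsto_natCast_atTop_atTop (R := ℝ)).eventually h1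
  have h3 := (Real.tendsto_log_atTop.comp (tendsto_natCast_atTop_atTop (R := ℝ))).eventually_ge_atTop 1
  filter_upwards [h2, h3, eventually_ge_atTop 1] with q a1 a2 a3
  simp only [Function.comp] at a2
  have hq1 : (1 : ℝ) ≤ q := by exact_mod_cast a3
  have hq0 : (0 : ℝ) < q := by linarith
  rw [Real.norm_eq_abs, Real.norm_eq_abs, Real.rpow_natCast, abs_of_nonneg (by positivity),
    abs_of_nonneg (by positivity)] at a1
  rw [Real.rpow_neg hq0.le, ← div_eq_mul_inv, div_le_one (by positivity)]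
  calc (1 + Real.log q) ^ K ≤ (2 * Real.log q) ^ K := pow_le_pow_left₀ (by linarith) (by linarith) K
    _ = 2 ^ K * Real.log q ^ K := mul_pow _ _ _
    _ ≤ 2 ^ K * (1 / 2 ^ K * (q : ℝ) ^ (1 / (k : ℝ))) := mul_le_mul_of_nonneg_left a1 (by positivity)
    _ = (q : ℝ) ^ (1 / (k : ℝ)) := by field_simp

lemma approx_core {k : ℕ} (hk : 1 ≤ k) {E : Set ℕ} (hE : LogThin E) (β : Fin k → ℝ) (R K : ℕ) :
    ∀ᵐ α : Fin k → ℝ, {q : ℕ | q ∈ E ∧ α ∈ SC R β q ((1 + Real.log q) ^ K * (q : ℝ) ^ (-(1 / (k : ℝ))))}.Finite := by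
  have hk0 : (0 : ℝ) < k := by exact_mod_cast hk
  obtain ⟨Q, hQ⟩ := eventually_atTop.1 (radius_small hk K)
  obtain ⟨Q', hQ'⟩ : ∃ Q', Q' = max Q 1 := ⟨_, rfl⟩
  obtain ⟨C, hC, htail⟩ := tail hE (K * k) 0
  obtain ⟨c, hc⟩ : ∃ c : ℝ, c = (2 * (2 * (R : ℝ) + 3)) ^ k := ⟨_, rfl⟩
  have hc0 : 0 ≤ c := by rw [hc]; positivity
  let s : ℕ → Set (Fin k → ℝ) := fun q => if q ∈ E ∧ Q' ≤ q then
    SC R β q ((1 + Real.log q) ^ K * (q : ℝ) ^ (-(1 / (k : ℝ)))) else ∅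
  have hvol : ∀ q : ℕ, volume (s q) ≤
      ENNReal.ofReal (if q ∈ E ∧ Q' ≤ q then c * ((1 + Real.log q) ^ (K * k) / q) else 0) := by
    intro q
    by_cases h : q ∈ E ∧ Q' ≤ q
    · simp only [s, if_pos h]
      have hq1 : 1 ≤ q := by omega
      have hq0 : (0 : ℝ) < q := by exact_mod_cast hq1
      have hl : 0 ≤ Real.log q := Real.log_nonneg (by exact_mod_cast hq1)
      refine (vol_SC (Nat.cast_nonneg R) β hq1 (by positivity) (hQ q (by omega))).trans (le_of_eq ?_)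
      congr 1
      rw [mul_pow ((1 + Real.log q) ^ K), ← pow_mul, ← Real.rpow_natCast ((q : ℝ) ^ (-(1 / (k : ℝ)))) k,
        ← Real.rpow_mul hq0.le]
      have e1 : -(1 / (k : ℝ)) * k = -1 := by field_simp
      rw [e1, Real.rpow_neg_one, hc, div_eq_mul_inv]
    · simp only [s, if_neg h, measure_empty]
      exact zero_le
  have hsum : ∑' q, volume (s q) ≠ ⊤ := by
    refine ne_top_of_le_ne_top (ENNReal.ofReal_ne_top (r := c * C)) ?_
    rw [ENNReal.tsum_eq_iSup_sum]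
    apply iSup_le
    intro F
    refine (sum_le_sum fun q _ => hvol q).trans ?_
    rw [← ENNReal.ofReal_sum_of_nonneg]
    · apply ENNReal.ofReal_le_ofReal
      rw [← sum_filter, ← mul_sum]
      apply mul_le_mul_of_nonneg_left _ hc0
      have := htail Q' (by omega) (F.filter fun q => q ∈ E ∧ Q' ≤ q) (by
        intro v hv
        rw [mem_filter] at hv
        exact hv.2)
      rwa [pow_zero, div_one] at this
    · intro q _
      split_ifs with h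
      · have hq1 : 1 ≤ q := by omega
        have hl : 0 ≤ Real.log q := Real.log_nonneg (by exact_mod_cast hq1)
        positivity
      · exact le_rfl
  filter_upwards [ae_finite_setOf_mem hsum] with α hα
  refine (hα.union (Set.finite_Iio Q')).subset ?_
  rintro q ⟨h1, h2⟩
  by_cases h : Q' ≤ q
  · left
    simp only [Set.mem_setOf_eq, s]
    rw [if_pos ⟨h1, h⟩]
    exact h2
  · right
    exact not_le.1 h

/-- **Approximations.** For almost all `α` in `ℝ ^ k` and all `K`, `W`, no large `q` with `‖q α_j - β_j‖ ≤ (1 + log q) ^ K q ^ (-1/k)`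
for all `j` is within distance `(1 + log q) ^ W` of a member of `E`. -/
theorem approx {k : ℕ} (hk : 1 ≤ k) {E : Set ℕ} (hE : LogThin E) (β : Fin k → ℝ) :
    ∀ᵐ α : Fin k → ℝ, ∀ K W : ℕ, ∃ Q : ℕ, ∀ q : ℕ, Q ≤ q →
      Solves α β q ((1 + Real.log q) ^ K * (q : ℝ) ^ (-(1 / (k : ℝ)))) →
      ∀ n : ℕ, |(n : ℝ) - q| ≤ (1 + Real.log q) ^ W → n ∉ E := by
  have hE' : ∀ W : ℕ, LogThin {v : ℕ | ∃ n ∈ E, |(n : ℝ) - (fun v : ℕ => (1 : ℝ) * (v : ℝ) ^ (1 : ℝ)) v| ≤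
      (1 + Real.log v) ^ W} := fun W => near_log hE (expanding_pow one_pos le_rfl) W
  have hall : ∀ᵐ α : Fin k → ℝ, ∀ p : ℕ × ℕ × ℕ, {q : ℕ | q ∈ {v : ℕ | ∃ n ∈ E,
      |(n : ℝ) - (fun v : ℕ => (1 : ℝ) * (v : ℝ) ^ (1 : ℝ)) v| ≤ (1 + Real.log v) ^ p.1} ∧
      α ∈ SC p.2.1 β q ((1 + Real.log q) ^ p.2.2 * (q : ℝ) ^ (-(1 / (k : ℝ))))}.Finite := by
    rw [ae_all_iff]
    exact fun p => approx_core hk (hE' p.1) β p.2.1 p.2.2
  filter_upwards [hall] with α hα K W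
  obtain ⟨R, hR⟩ := exists_nat_ge (∑ j, |α j|)
  obtain ⟨Q, hQ⟩ := (hα (W, R, K)).bddAbove
  refine ⟨Q + 1, fun q hq hs n hn hnE => ?_⟩
  have : q ≤ Q := hQ (by
    refine ⟨⟨n, hnE, by simpa using hn⟩, fun j => ?_, hs⟩
    exact (single_le_sum (fun i _ => abs_nonneg (α i)) (mem_univ j)).trans hR)
  omega

end Pool.Agent.V7H24.TR
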