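import Pool.Agent.V7H24.TR.Tail

/-!
# Large divisors of almost all integers avoid sets with a saving of every power of the logarithm
-/

set_option autoImplicit false

namespace Pool.Agent.V7H24.TR

open Finset Classical
open Pool.Agent.N375.AV (LogThin near_log)
open Pool.Agent.N733.TG (Expanding expanding_pow)

/-- the multiples of `d` within distance `L` of the numbers up to `N` -/
lemma mult_count (N L d : ℕ) (hd : 1 ≤ d) :
    (((Icc 1 N).filter (fun m => ∃ l : ℕ, 1 ≤ l ∧ l ≤ m + L ∧ m ≤ l + L ∧ d ∣ l)).card : ℝ) ≤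
      ((N : ℝ) + L) * (2 * L + 1) / d := by
  have hsub : (Icc 1 N).filter (fun m => ∃ l : ℕ, 1 ≤ l ∧ l ≤ m + L ∧ m ≤ l + L ∧ d ∣ l) ⊆
      ((Icc 1 ((N + L) / d)).biUnion (fun k => Icc (k * d - L) (k * d + L))) := by
    intro m hm
    rw [mem_filter, mem_Icc] at hm
    obtain ⟨⟨h1, h2⟩, l, h3, h4, h5, ⟨k, hk⟩⟩ := hm
    rw [mem_biUnion]
    refine ⟨k, ?_, ?_⟩
    · rw [mem_Icc]
      refine ⟨Nat.pos_of_ne_zero (by rintro rfl; omega), ?_⟩
      rw [Nat.le_div_iff_mul_le hd]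
      have : k * d = l := by rw [hk, mul_comm]
      omega
    · rw [mem_Icc]
      have : k * d = l := by rw [hk, mul_comm]
      omega
  have h1 := card_le_card hsub
  have h2 := h1.trans card_biUnion_le
  have h3 : ∑ k ∈ Icc 1 ((N + L) / d), (Icc (k * d - L) (k * d + L)).card ≤
      ∑ _k ∈ Icc 1 ((N + L) / d), (2 * L + 1) := by
    apply sum_le_sum
    intro k _
    rw [Nat.card_Icc]
    omega
  rw [sum_const, Nat.card_Icc, smul_eq_mul, Nat.add_sub_cancel] at h3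
  have h4 : (((Icc 1 N).filter (fun m => ∃ l : ℕ, 1 ≤ l ∧ l ≤ m + L ∧ m ≤ l + L ∧ d ∣ l)).card : ℝ) ≤
      (((N + L) / d : ℕ) : ℝ) * (2 * L + 1) := by
    exact_mod_cast h2.trans h3
  refine h4.trans ?_
  have hd0 : (0 : ℝ) < d := by exact_mod_cast hd
  have h5 : (((N + L) / d : ℕ) : ℝ) ≤ ((N : ℝ) + L) / d := by
    have := Nat.cast_div_le (α := ℝ) (m := N + L) (n := d)
    push_cast at this
    exact this
  calc (((N + L) / d : ℕ) : ℝ) * (2 * L + 1) ≤ (((N : ℝ) + L) / d) * (2 * L + 1) :=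
        mul_le_mul_of_nonneg_right h5 (by positivity)
    _ = ((N : ℝ) + L) * (2 * L + 1) / d := by ring

/-- few integers are near an integer with a large divisor in `E` -/
lemma div_core {E : Set ℕ} (hE : LogThin E) (B : ℕ) : ∃ C : ℝ, 0 ≤ C ∧ ∀ N L D : ℕ, 1 ≤ N → 1 ≤ D →
    (((Icc 1 N).filter (fun m => ∃ l : ℕ, 1 ≤ l ∧ l ≤ m + L ∧ m ≤ l + L ∧ ∃ d ∈ E, D ≤ d ∧ d ∣ l)).card : ℝ) ≤
      ((N : ℝ) + L) * (2 * L + 1) * (C / (1 + Real.log D) ^ B) := by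
  obtain ⟨C, hC, hC2⟩ := tail hE 0 B
  refine ⟨C, hC, fun N L D hN hD => ?_⟩
  have hsub : (Icc 1 N).filter (fun m => ∃ l : ℕ, 1 ≤ l ∧ l ≤ m + L ∧ m ≤ l + L ∧ ∃ d ∈ E, D ≤ d ∧ d ∣ l) ⊆
      ((Icc 1 (N + L)).filter (fun d => d ∈ E ∧ D ≤ d)).biUnion (fun d =>
        (Icc 1 N).filter (fun m => ∃ l : ℕ, 1 ≤ l ∧ l ≤ m + L ∧ m ≤ l + L ∧ d ∣ l)) := by
    intro m hm
    rw [mem_filter] at hm
    obtain ⟨h1, l, h3, h4, h5, d, h6, h7, h8⟩ := hm
    rw [mem_biUnion]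
    refine ⟨d, ?_, ?_⟩
    · rw [mem_filter, mem_Icc]
      rw [mem_Icc] at h1
      have := Nat.le_of_dvd (by omega) h8
      exact ⟨⟨by omega, by omega⟩, h6, h7⟩
    · rw [mem_filter]
      exact ⟨h1, l, h3, h4, h5, h8⟩
  have h1 : (((Icc 1 N).filter (fun m => ∃ l : ℕ, 1 ≤ l ∧ l ≤ m + L ∧ m ≤ l + L ∧ ∃ d ∈ E, D ≤ d ∧ d ∣ l)).card : ℝ) ≤
      ∑ d ∈ (Icc 1 (N + L)).filter (fun d => d ∈ E ∧ D ≤ d),
        (((Icc 1 N).filter (fun m => ∃ l : ℕ, 1 ≤ l ∧ l ≤ m + L ∧ m ≤ l + L ∧ d ∣ l)).card : ℝ) := by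
    exact_mod_cast (card_le_card hsub).trans card_biUnion_le
  refine h1.trans ?_
  have h2 : ∑ d ∈ (Icc 1 (N + L)).filter (fun d => d ∈ E ∧ D ≤ d),
        (((Icc 1 N).filter (fun m => ∃ l : ℕ, 1 ≤ l ∧ l ≤ m + L ∧ m ≤ l + L ∧ d ∣ l)).card : ℝ) ≤
      ∑ d ∈ (Icc 1 (N + L)).filter (fun d => d ∈ E ∧ D ≤ d),
        (((N : ℝ) + L) * (2 * L + 1)) * ((1 + Real.log d) ^ 0 / d) := by
    apply sum_le_sum
    intro d hd
    rw [mem_filter, mem_Icc] at hd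
    refine (mult_count N L d hd.1.1).trans (le_of_eq ?_)
    rw [pow_zero]
    ring
  refine h2.trans ?_
  rw [← mul_sum]
  apply mul_le_mul_of_nonneg_left _ (by positivity)
  apply hC2 D hD
  intro v hv
  rw [mem_filter] at hv
  exact hv.2

/-- **Divisors.** For all `m ≤ N` but `N / (log N) ^ U`, no integer `l ≥ 1` within distance `(log N) ^ A` of `m` has a divisor
`d ≥ exp ((log N) ^ ε)` which is within distance `(1 + log d) ^ W` of a member of `E`. -/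
theorem divisors {E : Set ℕ} (hE : LogThin E) (ε : ℝ) (hε : 0 < ε) (A W U : ℕ) : ∃ N₀ : ℕ, ∀ N : ℕ, N₀ ≤ N →
    ({m : ℕ | 1 ≤ m ∧ m ≤ N ∧ ∃ l : ℕ, 1 ≤ l ∧ |(l : ℝ) - m| ≤ Real.log N ^ A ∧ ∃ d : ℕ, d ∣ l ∧
      Real.exp (Real.log N ^ ε) ≤ d ∧ ∃ n ∈ E, |(n : ℝ) - d| ≤ (1 + Real.log d) ^ W}.ncard : ℝ) ≤
      N / Real.log N ^ U := by
  have hE' : LogThin {v : ℕ | ∃ n ∈ E, |(n : ℝ) - (fun v : ℕ => (1 : ℝ) * (v : ℝ) ^ (1 : ℝ)) v| ≤ (1 + Real.log v) ^ W} :=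
    near_log hE (expanding_pow one_pos le_rfl) W
  obtain ⟨B, hB⟩ := exists_nat_ge (((U : ℝ) + 2 * A + 1) / ε)
  obtain ⟨C, hC, hcore⟩ := div_core hE' B
  have hBε : (U : ℝ) + 2 * A + 1 ≤ B * ε := by rwa [div_le_iff₀ hε] at hB
  -- large `N`
  have hlog := (Real.tendsto_log_atTop.comp (tendsto_natCast_atTop_atTop (R := ℝ))).eventually_ge_atTop (10 * C + 1)
  have hlog2 : ∀ᶠ N : ℕ in Filter.atTop, Real.log N ^ A ≤ N := by
    have h1 := (isLittleO_log_rpow_rpow_atTop (A : ℝ) (show (0 : ℝ) < 1 by norm_num)).bound (show (0 : ℝ) < 1 by norm_num)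
    have h2 := (tendsto_natCast_atTop_atTop (R := ℝ)).eventually h1
    filter_upwards [h2, Filter.eventually_ge_atTop 1] with N hN hN1
    have h3 : (1 : ℝ) ≤ N := by exact_mod_cast hN1
    rw [Real.rpow_one, one_mul, Real.norm_eq_abs, Real.norm_eq_abs, Real.rpow_natCast,
      abs_of_nonneg (pow_nonneg (Real.log_nonneg h3) _), abs_of_nonneg (by linarith)] at hN
    exact hN
  obtain ⟨N₀, hN₀⟩ := Filter.eventually_atTop.1 ((hlog.and hlog2).and (Filter.eventually_ge_atTop 3))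
  refine ⟨N₀, fun N hN => ?_⟩
  obtain ⟨⟨h1, h2⟩, h3⟩ := hN₀ N hN
  simp only [Function.comp] at h1
  have hN1 : (1 : ℝ) ≤ N := by exact_mod_cast (by omega : 1 ≤ N)
  have hN0 : (0 : ℝ) < N := by linarith
  have hl1 : 1 ≤ Real.log N := by linarith
  obtain ⟨L, hL⟩ : ∃ L, L = ⌊Real.log N ^ A⌋₊ := ⟨_, rfl⟩
  obtain ⟨D, hD⟩ : ∃ D, D = ⌈Real.exp (Real.log N ^ ε)⌉₊ := ⟨_, rfl⟩
  have hD1 : 1 ≤ D := by
    rw [hD]
    exact Nat.one_le_ceil_iff.2 (Real.exp_pos _)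
  have hLle : (L : ℝ) ≤ Real.log N ^ A := by rw [hL]; exact Nat.floor_le (by positivity)
  have hDge : Real.exp (Real.log N ^ ε) ≤ D := by rw [hD]; exact Nat.le_ceil _
  have hlD : Real.log N ^ ε ≤ Real.log D := by
    rw [← Real.log_exp (Real.log N ^ ε)]
    exact Real.log_le_log (Real.exp_pos _) hDge
  have hcount := hcore N L D (by omega) hD1
  have hset : {m : ℕ | 1 ≤ m ∧ m ≤ N ∧ ∃ l : ℕ, 1 ≤ l ∧ |(l : ℝ) - m| ≤ Real.log N ^ A ∧ ∃ d : ℕ, d ∣ l ∧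
      Real.exp (Real.log N ^ ε) ≤ d ∧ ∃ n ∈ E, |(n : ℝ) - d| ≤ (1 + Real.log d) ^ W} ⊆
      (((Icc 1 N).filter (fun m => ∃ l : ℕ, 1 ≤ l ∧ l ≤ m + L ∧ m ≤ l + L ∧
        ∃ d ∈ {v : ℕ | ∃ n ∈ E, |(n : ℝ) - (fun v : ℕ => (1 : ℝ) * (v : ℝ) ^ (1 : ℝ)) v| ≤ (1 + Real.log v) ^ W},
          D ≤ d ∧ d ∣ l) : Finset ℕ) : Set ℕ) := by
    intro m hm
    obtain ⟨a1, a2, l, a3, a4, d, a5, a6, n, a7, a8⟩ := hm
    rw [Finset.mem_coe, mem_filter, mem_Icc]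
    refine ⟨⟨a1, a2⟩, l, a3, ?_, ?_, d, ⟨n, a7, ?_⟩, ?_, a5⟩
    · have e1 := (abs_le.1 a4).2
      have e2 : ((l : ℤ) - m : ℤ) ≤ L := by
        rw [hL, Int.natCast_floor_eq_floor (by positivity)]
        apply Int.le_floor.2
        push_cast
        exact e1
      omega
    · have e1 := (abs_le.1 a4).1
      have e2 : ((m : ℤ) - l : ℤ) ≤ L := by
        rw [hL, Int.natCast_floor_eq_floor (by positivity)]
        apply Int.le_floor.2
        push_cast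
        linarith
      omega
    · simpa using a8
    · rw [hD]
      exact Nat.ceil_le.2 a6
  have hcard := Set.ncard_le_ncard hset (Finset.finite_toSet _)
  rw [Set.ncard_coe_finset] at hcard
  have hcard' : ({m : ℕ | 1 ≤ m ∧ m ≤ N ∧ ∃ l : ℕ, 1 ≤ l ∧ |(l : ℝ) - m| ≤ Real.log N ^ A ∧ ∃ d : ℕ, d ∣ l ∧
      Real.exp (Real.log N ^ ε) ≤ d ∧ ∃ n ∈ E, |(n : ℝ) - d| ≤ (1 + Real.log d) ^ W}.ncard : ℝ) ≤
      ((N : ℝ) + L) * (2 * L + 1) * (C / (1 + Real.log D) ^ B) := le_trans (by exact_mod_cast hcard) hcount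
  refine hcard'.trans ?_
  have hpow1 : (1 : ℝ) ≤ Real.log N ^ A := one_le_pow₀ hl1
  have e1 : (N : ℝ) + L ≤ 2 * N := by linarith
  have e2 : 2 * (L : ℝ) + 1 ≤ 3 * Real.log N ^ A := by linarith
  have e3 : Real.log N ^ (U + A + 1) ≤ (1 + Real.log D) ^ B := by
    have f1 : (Real.log N ^ ε) ^ B ≤ (1 + Real.log D) ^ B := by
      apply pow_le_pow_left₀ (by positivity)
      linarith
    refine le_trans ?_ f1
    rw [← Real.rpow_natCast (Real.log N ^ ε), ← Real.rpow_mul (by linarith), ← Real.rpow_natCast (Real.log N)]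
    apply Real.rpow_le_rpow_of_exponent_le hl1
    push_cast
    have : (0 : ℝ) ≤ A := Nat.cast_nonneg _
    linarith
  have hpos : (0 : ℝ) < Real.log N ^ (U + A + 1) := by positivity
  calc ((N : ℝ) + L) * (2 * L + 1) * (C / (1 + Real.log D) ^ B)
      ≤ (2 * N) * (3 * Real.log N ^ A) * (C / Real.log N ^ (U + A + 1)) := by
        apply mul_le_mul
        · apply mul_le_mul e1 e2 (by positivity) (by positivity)
        · exact div_le_div_of_nonneg_left hC hpos e3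
        · have : 0 ≤ Real.log D := Real.log_nonneg (by exact_mod_cast hD1)
          positivity
        · positivity
    _ = (6 * C / Real.log N) * (N / Real.log N ^ U) := by
        rw [pow_add, pow_add, pow_one]
        field_simp
        ring
    _ ≤ 1 * (N / Real.log N ^ U) := by
        apply mul_le_mul_of_nonneg_right _ (by positivity)
        rw [div_le_one (by linarith)]
        linarith
    _ = N / Real.log N ^ U := one_mul _

end Pool.Agent.V7H24.TR
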