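import Pool.Agent.V7H24.TR.Good

/-!
# Functions of the factorisations of almost all integers
-/

set_option autoImplicit false

namespace Pool.Agent.V7H24.TR

open Finset Classical Filter
open Pool.Agent.N375.AV (LogThin)

/-- from the integers `l` to their neighbours `m` -/
lemma neighbours (bad : ℕ → ℕ → Prop) (h : ∀ V : ℕ, ∃ N₀ : ℕ, ∀ N : ℕ, N₀ ≤ N →
    (((Icc 1 (2 * N)).filter (bad N)).card : ℝ) ≤ N / Real.log N ^ V) (A U : ℕ) :
    ∃ N₀ : ℕ, ∀ N : ℕ, N₀ ≤ N →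
      ({m : ℕ | 1 ≤ m ∧ m ≤ N ∧ ∃ l : ℕ, 1 ≤ l ∧ |(l : ℝ) - m| ≤ Real.log N ^ A ∧ bad N l}.ncard : ℝ) ≤
        N / Real.log N ^ U := by
  obtain ⟨N₁, hN₁⟩ := h (U + A + 1)
  have hlog := (Real.tendsto_log_atTop.comp (tendsto_natCast_atTop_atTop (R := ℝ))).eventually_ge_atTop 3
  have hlog2 : ∀ᶠ N : ℕ in Filter.atTop, Real.log N ^ A ≤ N := by
    have h1 := (isLittleO_log_rpow_rpow_atTop (A : ℝ) (show (0 : ℝ) < 1 by norm_num)).bound (show (0 : ℝ) < 1 by norm_num)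
    have h2 := (tendsto_natCast_atTop_atTop (R := ℝ)).eventually h1
    filter_upwards [h2, Filter.eventually_ge_atTop 1] with N hN hN1
    have h3 : (1 : ℝ) ≤ N := by exact_mod_cast hN1
    rw [Real.rpow_one, one_mul, Real.norm_eq_abs, Real.norm_eq_abs, Real.rpow_natCast,
      abs_of_nonneg (pow_nonneg (Real.log_nonneg h3) _), abs_of_nonneg (by linarith)] at hN
    exact hN
  obtain ⟨N₀, hN₀⟩ := Filter.eventually_atTop.1 ((hlog.and hlog2).and (Filter.eventually_ge_atTop 3))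
  refine ⟨max N₀ N₁, fun N hN => ?_⟩
  obtain ⟨⟨h1, h2⟩, h3⟩ := hN₀ N ((le_max_left _ _).trans hN)
  have h4 := hN₁ N ((le_max_right _ _).trans hN)
  simp only [Function.comp] at h1
  have hN1 : (1 : ℝ) ≤ N := by exact_mod_cast (by omega : 1 ≤ N)
  have hN0 : (0 : ℝ) < N := by linarith
  have hl0 : 0 < Real.log N := by linarith
  obtain ⟨L, hL⟩ : ∃ L, L = ⌊Real.log N ^ A⌋₊ := ⟨_, rfl⟩
  have hLle : (L : ℝ) ≤ Real.log N ^ A := by rw [hL]; exact Nat.floor_le (by positivity)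
  have hsub : {m : ℕ | 1 ≤ m ∧ m ≤ N ∧ ∃ l : ℕ, 1 ≤ l ∧ |(l : ℝ) - m| ≤ Real.log N ^ A ∧ bad N l} ⊆
      ((((Icc 1 (2 * N)).filter (bad N)).biUnion (fun l => Icc (l - L) (l + L)) : Finset ℕ) : Set ℕ) := by
    rintro m ⟨a1, a2, l, a3, a4, a5⟩
    have e1 : ((l : ℤ) - m : ℤ) ≤ L := by
      rw [hL, Int.natCast_floor_eq_floor (by positivity)]
      apply Int.le_floor.2
      push_cast
      exact (abs_le.1 a4).2
    have e2 : ((m : ℤ) - l : ℤ) ≤ L := by
      rw [hL, Int.natCast_floor_eq_floor (by positivity)]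
      apply Int.le_floor.2
      push_cast
      linarith [(abs_le.1 a4).1]
    have e3 : L ≤ N := by
      have : (L : ℝ) ≤ N := hLle.trans h2
      exact_mod_cast this
    rw [Finset.mem_coe, mem_biUnion]
    refine ⟨l, ?_, ?_⟩
    · rw [mem_filter, mem_Icc]
      exact ⟨⟨a3, by omega⟩, a5⟩
    · rw [mem_Icc]
      omega
  have hc := Set.ncard_le_ncard hsub (Finset.finite_toSet _)
  rw [Set.ncard_coe_finset] at hc
  have hc2 := hc.trans card_biUnion_le
  have hc3 : ∑ l ∈ (Icc 1 (2 * N)).filter (bad N), (Icc (l - L) (l + L)).card ≤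
      ∑ _l ∈ (Icc 1 (2 * N)).filter (bad N), (2 * L + 1) := by
    apply sum_le_sum
    intro l _
    rw [Nat.card_Icc]
    omega
  rw [sum_const, smul_eq_mul] at hc3
  have hc4 : ({m : ℕ | 1 ≤ m ∧ m ≤ N ∧ ∃ l : ℕ, 1 ≤ l ∧ |(l : ℝ) - m| ≤ Real.log N ^ A ∧ bad N l}.ncard : ℝ) ≤
      (((Icc 1 (2 * N)).filter (bad N)).card : ℝ) * (2 * L + 1) := by exact_mod_cast hc2.trans hc3
  refine hc4.trans ?_
  have hpow1 : (1 : ℝ) ≤ Real.log N ^ A := one_le_pow₀ (by linarith)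
  calc (((Icc 1 (2 * N)).filter (bad N)).card : ℝ) * (2 * L + 1) ≤ (N / Real.log N ^ (U + A + 1)) * (3 * Real.log N ^ A) := by
        apply mul_le_mul h4 (by linarith) (by positivity) (by positivity)
    _ = (3 / Real.log N) * (N / Real.log N ^ U) := by
        rw [pow_add, pow_add, pow_one]
        field_simp
    _ ≤ 1 * (N / Real.log N ^ U) := by
        apply mul_le_mul_of_nonneg_right _ (by positivity)
        rw [div_le_one hl0]
        exact h1
    _ = N / Real.log N ^ U := one_mul _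

lemma step_le {a : ℝ} {g : ℕ → ℝ} (hg : ∀ e, g e + a ≤ g (e + 1)) (e k : ℕ) : g e + k * a ≤ g (e + k) := by
  induction k with
  | zero => simp
  | succ k ih =>
    have := hg (e + k)
    push_cast
    rw [show e + (k + 1) = e + k + 1 by ring]
    linarith

/-- the arguments at which an increasing function is near a given number -/
lemma step_count {a : ℝ} (ha : 0 < a) {g : ℕ → ℝ} (hg : ∀ e, g e + a ≤ g (e + 1)) (x w : ℝ) (hw : 0 ≤ w) (S : Finset ℕ)
    (hS : ∀ e ∈ S, |x - g e| ≤ w) : (S.card : ℝ) ≤ 2 * w / a + 1 := by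
  rcases S.eq_empty_or_nonempty with h | h
  · rw [h, card_empty, Nat.cast_zero]
    positivity
  · obtain ⟨m, hm⟩ : ∃ m, m = S.min' h := ⟨_, rfl⟩
    have hmS : m ∈ S := by rw [hm]; exact S.min'_mem h
    have hsub : S ⊆ Icc m (m + ⌊2 * w / a⌋₊) := by
      intro e he
      have h1 : m ≤ e := by rw [hm]; exact S.min'_le e he
      rw [mem_Icc]
      refine ⟨h1, ?_⟩
      obtain ⟨k, rfl⟩ := Nat.exists_eq_add_of_le h1
      have h2 := step_le hg m k
      have h3 := (abs_le.1 (hS _ he)).1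
      have h4 := (abs_le.1 (hS _ hmS)).2
      have h5 : (k : ℝ) ≤ 2 * w / a := by
        rw [le_div_iff₀ ha]
        linarith
      have := Nat.le_floor h5
      omega
    have h1 := card_le_card hsub
    rw [Nat.card_Icc] at h1
    have h2 : S.card ≤ ⌊2 * w / a⌋₊ + 1 := by omega
    have h3 : (S.card : ℝ) ≤ (⌊2 * w / a⌋₊ : ℝ) + 1 := by exact_mod_cast h2
    have h4 : (⌊2 * w / a⌋₊ : ℝ) ≤ 2 * w / a := Nat.floor_le (by positivity)
    linarith

/-- the core estimate for one function -/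
lemma fact_core {E : Set ℕ} (hE : LogThin E) {a : ℝ} (ha : 0 < a) (K W B : ℕ) : ∃ C : ℝ, 0 ≤ C ∧
    ∀ g : ℕ → ℝ, (∀ e, g e + a ≤ g (e + 1)) → ∀ X D : ℕ, 1 ≤ D →
      (((Icc D X).filter (fun e => g e ≤ K * e * (1 + Real.log e) ^ K ∧
        ∃ n ∈ E, |(n : ℝ) - g e| ≤ (1 + Real.log e) ^ W)).card : ℝ) ≤
      C * X * (1 + Real.log X) ^ (K + 2 * W) / (1 + Real.log D) ^ B := by
  obtain ⟨K₁, hK₁⟩ := hE B
  refine ⟨(2 / a + 1) * |K₁| * (K + 1), by positivity, fun g hg X D hD => ?_⟩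
  rcases Nat.lt_or_ge X D with hXD | hXD
  · rw [Icc_eq_empty (by omega), filter_empty, card_empty, Nat.cast_zero]
    have h1 : 0 ≤ Real.log D := Real.log_nonneg (by exact_mod_cast hD)
    rcases Nat.eq_zero_or_pos X with h0 | h0
    · rw [h0, Nat.cast_zero, mul_zero, zero_mul, zero_div]
    · have h2 : 0 ≤ Real.log X := Real.log_nonneg (by exact_mod_cast h0)
      positivity
  · have hX1 : (1 : ℝ) ≤ X := by exact_mod_cast hD.trans hXD
    have hD1 : (1 : ℝ) ≤ D := by exact_mod_cast hD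
    have hlD : 0 ≤ Real.log D := Real.log_nonneg hD1
    have hlX : 0 ≤ Real.log X := Real.log_nonneg hX1
    have hw1 : (1 : ℝ) ≤ (1 + Real.log X) ^ W := one_le_pow₀ (by linarith)
    have hKW1 : (1 : ℝ) ≤ (1 + Real.log X) ^ (K + W) := one_le_pow₀ (by linarith)
    obtain ⟨Yr, hYr⟩ : ∃ Yr : ℝ, Yr = ((K : ℝ) + 1) * X * (1 + Real.log X) ^ (K + W) := ⟨_, rfl⟩
    have hYX : (X : ℝ) ≤ Yr := by
      rw [hYr]
      calc (X : ℝ) = 1 * X * 1 := by ring
        _ ≤ ((K : ℝ) + 1) * X * (1 + Real.log X) ^ (K + W) := by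
            apply mul_le_mul _ hKW1 zero_le_one (by positivity)
            apply mul_le_mul_of_nonneg_right _ (by linarith)
            have : (0 : ℝ) ≤ K := Nat.cast_nonneg _
            linarith
    have hXY : X ≤ ⌊Yr⌋₊ := Nat.le_floor hYX
    have hsub : (Icc D X).filter (fun e => g e ≤ K * e * (1 + Real.log e) ^ K ∧
        ∃ n ∈ E, |(n : ℝ) - g e| ≤ (1 + Real.log e) ^ W) ⊆
        ((range (⌊Yr⌋₊ + 1)).filter (fun v => v ∈ E)).biUnion (fun n => (Icc D X).filter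
          (fun e => |(n : ℝ) - g e| ≤ (1 + Real.log X) ^ W)) := by
      intro e he
      rw [mem_filter, mem_Icc] at he
      obtain ⟨⟨h1, h2⟩, h3, n, h4, h5⟩ := he
      have he1 : (1 : ℝ) ≤ e := by exact_mod_cast hD.trans h1
      have heX : (e : ℝ) ≤ X := by exact_mod_cast h2
      have hle : Real.log e ≤ Real.log X := Real.log_le_log (by linarith) heX
      have hle0 : 0 ≤ Real.log e := Real.log_nonneg he1
      have h6 : |(n : ℝ) - g e| ≤ (1 + Real.log X) ^ W := h5.trans (pow_le_pow_left₀ (by linarith) (by linarith) _)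
      rw [mem_biUnion]
      refine ⟨n, ?_, ?_⟩
      · rw [mem_filter, mem_range]
        refine ⟨Nat.lt_succ_of_le (Nat.le_floor ?_), h4⟩
        have h7 : (n : ℝ) ≤ g e + (1 + Real.log X) ^ W := by linarith [(abs_le.1 h6).2]
        have h8 : (K : ℝ) * e * (1 + Real.log e) ^ K ≤ K * X * (1 + Real.log X) ^ (K + W) := by
          apply mul_le_mul _ _ (by positivity) (by positivity)
          · exact mul_le_mul_of_nonneg_left heX (Nat.cast_nonneg _)
          · calc (1 + Real.log e) ^ K ≤ (1 + Real.log X) ^ K := pow_le_pow_left₀ (by linarith) (by linarith) _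
              _ ≤ (1 + Real.log X) ^ (K + W) := pow_le_pow_right₀ (by linarith) (by omega)
        have h9 : (1 + Real.log X) ^ W ≤ X * (1 + Real.log X) ^ (K + W) := by
          calc (1 + Real.log X) ^ W ≤ (1 + Real.log X) ^ (K + W) := pow_le_pow_right₀ (by linarith) (by omega)
            _ ≤ X * (1 + Real.log X) ^ (K + W) := by nlinarith
        rw [hYr]
        calc (n : ℝ) ≤ K * X * (1 + Real.log X) ^ (K + W) + X * (1 + Real.log X) ^ (K + W) := by linarith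
          _ = _ := by ring
      · rw [mem_filter, mem_Icc]
        exact ⟨⟨h1, h2⟩, h6⟩
    have h1 : (((Icc D X).filter (fun e => g e ≤ K * e * (1 + Real.log e) ^ K ∧
        ∃ n ∈ E, |(n : ℝ) - g e| ≤ (1 + Real.log e) ^ W)).card : ℝ) ≤
        ∑ n ∈ (range (⌊Yr⌋₊ + 1)).filter (fun v => v ∈ E), (((Icc D X).filter
          (fun e => |(n : ℝ) - g e| ≤ (1 + Real.log X) ^ W)).card : ℝ) := by
      exact_mod_cast (card_le_card hsub).trans card_biUnion_le
    have h2 : ∑ n ∈ (range (⌊Yr⌋₊ + 1)).filter (fun v => v ∈ E), (((Icc D X).filter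
          (fun e => |(n : ℝ) - g e| ≤ (1 + Real.log X) ^ W)).card : ℝ) ≤
        ∑ _n ∈ (range (⌊Yr⌋₊ + 1)).filter (fun v => v ∈ E), (2 / a + 1) * (1 + Real.log X) ^ W := by
      apply sum_le_sum
      intro n _
      refine (step_count ha hg n ((1 + Real.log X) ^ W) (by positivity) _ ?_).trans ?_
      · intro e he
        rw [mem_filter] at he
        exact he.2
      · have : 2 * (1 + Real.log X) ^ W / a = 2 / a * (1 + Real.log X) ^ W := by ring
        rw [this]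
        nlinarith
    rw [sum_const, nsmul_eq_mul] at h2
    refine (h1.trans h2).trans ?_
    have h3 := hK₁ ⌊Yr⌋₊ (by omega)
    have hYfl : (⌊Yr⌋₊ : ℝ) ≤ Yr := Nat.floor_le (by linarith)
    have hlY : Real.log D ≤ Real.log (⌊Yr⌋₊ : ℕ) := by
      apply Real.log_le_log (by linarith)
      exact_mod_cast hXD.trans hXY
    have hYr0 : 0 ≤ Yr := by linarith
    have h4 : (((range (⌊Yr⌋₊ + 1)).filter (fun v => v ∈ E)).card : ℝ) ≤ |K₁| * Yr / (1 + Real.log D) ^ B := by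
      refine h3.trans ?_
      calc K₁ * (⌊Yr⌋₊ : ℕ) / (1 + Real.log (⌊Yr⌋₊ : ℕ)) ^ B ≤ |K₁| * Yr / (1 + Real.log (⌊Yr⌋₊ : ℕ)) ^ B := by
            apply div_le_div_of_nonneg_right _ (by have := hlD.trans hlY; positivity)
            exact mul_le_mul (le_abs_self _) hYfl (Nat.cast_nonneg _) (abs_nonneg _)
        _ ≤ |K₁| * Yr / (1 + Real.log D) ^ B := by
            apply div_le_div_of_nonneg_left (by positivity) (by positivity)
            exact pow_le_pow_left₀ (by linarith) (by linarith) _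
    calc (((range (⌊Yr⌋₊ + 1)).filter (fun v => v ∈ E)).card : ℝ) * ((2 / a + 1) * (1 + Real.log X) ^ W)
        ≤ (|K₁| * Yr / (1 + Real.log D) ^ B) * ((2 / a + 1) * (1 + Real.log X) ^ W) :=
          mul_le_mul_of_nonneg_right h4 (by positivity)
      _ = (2 / a + 1) * |K₁| * (K + 1) * X * (1 + Real.log X) ^ (K + 2 * W) / (1 + Real.log D) ^ B := by
          rw [hYr, show K + 2 * W = (K + W) + W by ring, pow_add (1 + Real.log X) (K + W) W]
          ring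

lemma harm (M : ℕ) : ∑ n ∈ Icc 1 M, 1 / (n : ℝ) ≤ 1 + Real.log M := by
  have h := harmonic_le_one_add_log M
  rw [harmonic_eq_sum_Icc] at h
  push_cast at h
  simpa [one_div] using h

/-- the sum over all the tuples -/
lemma tuple_sum (k M : ℕ) : ∑ d ∈ Fintype.piFinset (fun _ : Fin k => Icc 1 M), 1 / ((∏ i, d i : ℕ) : ℝ) ≤
    (1 + Real.log M) ^ k := by
  have h1 : ∑ d ∈ Fintype.piFinset (fun _ : Fin k => Icc 1 M), 1 / ((∏ i, d i : ℕ) : ℝ) =
      ∏ _i : Fin k, ∑ n ∈ Icc 1 M, 1 / (n : ℝ) := by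
    rw [Finset.prod_univ_sum]
    apply sum_congr rfl
    intro d _
    push_cast
    rw [one_div, ← Finset.prod_inv_distrib]
    simp [one_div]
  rw [h1, prod_const, card_univ, Fintype.card_fin]
  have h2 : 0 ≤ ∑ n ∈ Icc 1 M, 1 / (n : ℝ) := by
    apply sum_nonneg
    intro n _
    positivity
  exact pow_le_pow_left₀ h2 (harm M) _

/-- **Factorisations.** -/
theorem factorisations {E : Set ℕ} (hE : LogThin E) (k : ℕ) {a : ℝ} (ha : 0 < a) (G : (Fin k → ℕ) → ℕ → ℝ)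
    (hG : ∀ d e, G d e + a ≤ G d (e + 1)) (ε : ℝ) (hε : 0 < ε) (K A W U : ℕ) :
    ∃ N₀ : ℕ, ∀ N : ℕ, N₀ ≤ N →
      ({m : ℕ | 1 ≤ m ∧ m ≤ N ∧ ∃ l : ℕ, 1 ≤ l ∧ |(l : ℝ) - m| ≤ Real.log N ^ A ∧ ∃ (d : Fin k → ℕ) (e : ℕ),
        (∏ i, d i) * e = l ∧ Real.exp (Real.log N ^ ε) ≤ e ∧ G d e ≤ K * e * (1 + Real.log e) ^ K ∧
        ∃ n ∈ E, |(n : ℝ) - G d e| ≤ (1 + Real.log e) ^ W}.ncard : ℝ) ≤ N / Real.log N ^ U := by
  refine neighbours (fun N l => ∃ (d : Fin k → ℕ) (e : ℕ), (∏ i, d i) * e = l ∧ Real.exp (Real.log N ^ ε) ≤ e ∧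
    G d e ≤ K * e * (1 + Real.log e) ^ K ∧ ∃ n ∈ E, |(n : ℝ) - G d e| ≤ (1 + Real.log e) ^ W) (fun V => ?_) A U
  obtain ⟨H, hH⟩ : ∃ H, H = K + 2 * W + k := ⟨_, rfl⟩
  obtain ⟨B, hB⟩ := exists_nat_ge (((V : ℝ) + H + 1) / ε)
  obtain ⟨C, hC, hcore⟩ := fact_core hE ha K W B
  have hBε : (V : ℝ) + H + 1 ≤ B * ε := by rwa [div_le_iff₀ hε] at hB
  have hlog := (Real.tendsto_log_atTop.comp (tendsto_natCast_atTop_atTop (R := ℝ))).eventually_ge_atTop
    (2 * C * 2 ^ H + 2)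
  obtain ⟨N₀, hN₀⟩ := Filter.eventually_atTop.1 (hlog.and (Filter.eventually_ge_atTop 3))
  refine ⟨N₀, fun N hN => ?_⟩
  obtain ⟨h1, h3⟩ := hN₀ N hN
  simp only [Function.comp] at h1
  have hN1 : (1 : ℝ) ≤ N := by exact_mod_cast (by omega : 1 ≤ N)
  have hN0 : (0 : ℝ) < N := by linarith
  have hl2 : 2 ≤ Real.log N := by
    have : 0 ≤ 2 * C * 2 ^ H := by positivity
    linarith
  obtain ⟨D, hD⟩ : ∃ D, D = ⌈Real.exp (Real.log N ^ ε)⌉₊ := ⟨_, rfl⟩
  have hD1 : 1 ≤ D := by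
    rw [hD]
    exact Nat.one_le_ceil_iff.2 (Real.exp_pos _)
  have hDge : Real.exp (Real.log N ^ ε) ≤ D := by rw [hD]; exact Nat.le_ceil _
  have hlD : Real.log N ^ ε ≤ Real.log D := by
    rw [← Real.log_exp (Real.log N ^ ε)]
    exact Real.log_le_log (Real.exp_pos _) hDge
  have hsub : (Icc 1 (2 * N)).filter (fun l => ∃ (d : Fin k → ℕ) (e : ℕ), (∏ i, d i) * e = l ∧
      Real.exp (Real.log N ^ ε) ≤ e ∧ G d e ≤ K * e * (1 + Real.log e) ^ K ∧
      ∃ n ∈ E, |(n : ℝ) - G d e| ≤ (1 + Real.log e) ^ W) ⊆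
      (Fintype.piFinset (fun _ : Fin k => Icc 1 (2 * N))).biUnion (fun d =>
        ((Icc D (2 * N / ∏ i, d i)).filter (fun e => G d e ≤ K * e * (1 + Real.log e) ^ K ∧
          ∃ n ∈ E, |(n : ℝ) - G d e| ≤ (1 + Real.log e) ^ W)).image (fun e => (∏ i, d i) * e)) := by
    intro l hl
    rw [mem_filter, mem_Icc] at hl
    obtain ⟨⟨b1, b2⟩, d, e, b3, b4, b5, b6⟩ := hl
    have hprod : 0 < ∏ i, d i := by
      rcases Nat.eq_zero_or_pos (∏ i, d i) with h | h
      · rw [h, zero_mul] at b3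
        omega
      · exact h
    have he0 : 0 < e := by
      rcases Nat.eq_zero_or_pos e with h | h
      · rw [h, mul_zero] at b3
        omega
      · exact h
    rw [mem_biUnion]
    refine ⟨d, ?_, ?_⟩
    · rw [Fintype.mem_piFinset]
      intro i
      rw [mem_Icc]
      have hdi : d i ∣ ∏ i, d i := dvd_prod_of_mem _ (mem_univ i)
      have h5 : 0 < d i := Nat.pos_of_dvd_of_pos hdi hprod
      have h6 : d i ≤ ∏ i, d i := Nat.le_of_dvd hprod hdi
      have h7 : ∏ i, d i ≤ (∏ i, d i) * e := Nat.le_mul_of_pos_right _ he0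
      omega
    · rw [mem_image]
      refine ⟨e, ?_, b3⟩
      rw [mem_filter, mem_Icc]
      refine ⟨⟨?_, ?_⟩, b5, b6⟩
      · rw [hD]; exact Nat.ceil_le.2 b4
      · rw [Nat.le_div_iff_mul_le hprod, mul_comm]
        omega
  have hcard : (((Icc 1 (2 * N)).filter (fun l => ∃ (d : Fin k → ℕ) (e : ℕ), (∏ i, d i) * e = l ∧
      Real.exp (Real.log N ^ ε) ≤ e ∧ G d e ≤ K * e * (1 + Real.log e) ^ K ∧
      ∃ n ∈ E, |(n : ℝ) - G d e| ≤ (1 + Real.log e) ^ W)).card : ℝ) ≤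
      ∑ d ∈ Fintype.piFinset (fun _ : Fin k => Icc 1 (2 * N)),
        (((Icc D (2 * N / ∏ i, d i)).filter (fun e => G d e ≤ K * e * (1 + Real.log e) ^ K ∧
          ∃ n ∈ E, |(n : ℝ) - G d e| ≤ (1 + Real.log e) ^ W)).card : ℝ) := by
    exact_mod_cast (card_le_card hsub).trans (card_biUnion_le.trans (sum_le_sum fun d _ => card_image_le))
  refine hcard.trans ?_
  have hlN2 : 1 + Real.log ((2 * N : ℕ) : ℝ) ≤ 2 * Real.log N := by
    push_cast
    rw [Real.log_mul (by norm_num) hN0.ne']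
    have := Real.log_two_lt_d9
    linarith
  have hlN20 : 0 ≤ Real.log ((2 * N : ℕ) : ℝ) := Real.log_nonneg (by exact_mod_cast (by omega : 1 ≤ 2 * N))
  have hlD0 : 0 ≤ Real.log D := Real.log_nonneg (by exact_mod_cast hD1)
  have hterm : ∀ d ∈ Fintype.piFinset (fun _ : Fin k => Icc 1 (2 * N)),
      (((Icc D (2 * N / ∏ i, d i)).filter (fun e => G d e ≤ K * e * (1 + Real.log e) ^ K ∧
          ∃ n ∈ E, |(n : ℝ) - G d e| ≤ (1 + Real.log e) ^ W)).card : ℝ) ≤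
      (C * (2 * N) * (2 * Real.log N) ^ (K + 2 * W) / (1 + Real.log D) ^ B) * (1 / ((∏ i, d i : ℕ) : ℝ)) := by
    intro d hd
    rw [Fintype.mem_piFinset] at hd
    have hprod : 0 < ∏ i, d i := prod_pos fun i _ => (mem_Icc.1 (hd i)).1
    have hprod' : (0 : ℝ) < ((∏ i, d i : ℕ) : ℝ) := by exact_mod_cast hprod
    refine (hcore (G d) (hG d) _ D hD1).trans ?_
    rcases Nat.eq_zero_or_pos (2 * N / ∏ i, d i) with h0 | h0
    · rw [h0, Nat.cast_zero, mul_zero, zero_mul, zero_div]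
      positivity
    · have e1 : ((2 * N / ∏ i, d i : ℕ) : ℝ) ≤ (2 * N) * (1 / ((∏ i, d i : ℕ) : ℝ)) := by
        have := Nat.cast_div_le (α := ℝ) (m := 2 * N) (n := ∏ i, d i)
        push_cast at this ⊢
        rw [mul_one_div]
        exact this
      have e2 : 0 ≤ Real.log ((2 * N / ∏ i, d i : ℕ) : ℝ) := Real.log_nonneg (by exact_mod_cast h0)
      have e3 : (1 + Real.log ((2 * N / ∏ i, d i : ℕ) : ℝ)) ^ (K + 2 * W) ≤ (2 * Real.log N) ^ (K + 2 * W) := by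
        apply pow_le_pow_left₀ (by linarith)
        refine le_trans ?_ hlN2
        have : Real.log ((2 * N / ∏ i, d i : ℕ) : ℝ) ≤ Real.log ((2 * N : ℕ) : ℝ) := by
          apply Real.log_le_log (by exact_mod_cast h0)
          exact_mod_cast Nat.div_le_self _ _
        linarith
      calc C * ((2 * N / ∏ i, d i : ℕ) : ℝ) * (1 + Real.log ((2 * N / ∏ i, d i : ℕ) : ℝ)) ^ (K + 2 * W) /
            (1 + Real.log D) ^ B
          ≤ C * ((2 * N) * (1 / ((∏ i, d i : ℕ) : ℝ))) * (2 * Real.log N) ^ (K + 2 * W) / (1 + Real.log D) ^ B := by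
            gcongr
        _ = _ := by ring
  refine (sum_le_sum hterm).trans ?_
  rw [← mul_sum]
  have e3 : Real.log N ^ (V + H + 1) ≤ (1 + Real.log D) ^ B := by
    have f1 : (Real.log N ^ ε) ^ B ≤ (1 + Real.log D) ^ B := by
      apply pow_le_pow_left₀ (by positivity)
      linarith
    refine le_trans ?_ f1
    rw [← Real.rpow_natCast (Real.log N ^ ε), ← Real.rpow_mul (by linarith), ← Real.rpow_natCast (Real.log N)]
    apply Real.rpow_le_rpow_of_exponent_le (by linarith)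
    push_cast
    linarith
  have e4 : ∑ d ∈ Fintype.piFinset (fun _ : Fin k => Icc 1 (2 * N)), 1 / ((∏ i, d i : ℕ) : ℝ) ≤ (2 * Real.log N) ^ k :=
    (tuple_sum k (2 * N)).trans (pow_le_pow_left₀ (by linarith) hlN2 _)
  have hpos : (0 : ℝ) < Real.log N ^ (V + H + 1) := by positivity
  calc (C * (2 * N) * (2 * Real.log N) ^ (K + 2 * W) / (1 + Real.log D) ^ B) *
        ∑ d ∈ Fintype.piFinset (fun _ : Fin k => Icc 1 (2 * N)), 1 / ((∏ i, d i : ℕ) : ℝ)
      ≤ (C * (2 * N) * (2 * Real.log N) ^ (K + 2 * W) / Real.log N ^ (V + H + 1)) * (2 * Real.log N) ^ k := by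
        apply mul_le_mul _ e4 (sum_nonneg fun d _ => by positivity) (by positivity)
        exact div_le_div_of_nonneg_left (by positivity) hpos e3
    _ = (2 * C * 2 ^ H / Real.log N) * (N / Real.log N ^ V) := by
        rw [hH, pow_add (Real.log N) (V + (K + 2 * W + k)) 1, pow_add (Real.log N) V (K + 2 * W + k),
          pow_add (Real.log N) (K + 2 * W) k, pow_one, mul_pow, mul_pow, pow_add 2 (K + 2 * W) k]
        have : Real.log N ≠ 0 := by linarith
        field_simp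
    _ ≤ 1 * (N / Real.log N ^ V) := by
        apply mul_le_mul_of_nonneg_right _ (by positivity)
        rw [div_le_one (by linarith)]
        linarith
    _ = N / Real.log N ^ V := one_mul _

/-- factorisations, positive form -/
theorem factorisations_good {E : Set ℕ} (hE : LogThin E) (P : ℕ → Prop) (hP : ∃ n₀ : ℕ, ∀ n : ℕ, n₀ ≤ n → n ∉ E → P n)
    (k : ℕ) {a : ℝ} (ha : 0 < a) (G : (Fin k → ℕ) → ℕ → ℝ) (hG0 : ∀ d, 0 ≤ G d 0)
    (hG : ∀ d e, G d e + a ≤ G d (e + 1)) (ε : ℝ) (hε : 0 < ε) (K A W U : ℕ) :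
    ∃ N₀ : ℕ, ∀ N : ℕ, N₀ ≤ N →
      ({m : ℕ | 1 ≤ m ∧ m ≤ N ∧ ∃ l : ℕ, 1 ≤ l ∧ |(l : ℝ) - m| ≤ Real.log N ^ A ∧ ∃ (d : Fin k → ℕ) (e : ℕ),
        (∏ i, d i) * e = l ∧ Real.exp (Real.log N ^ ε) ≤ e ∧ G d e ≤ K * e * (1 + Real.log e) ^ K ∧
        ∃ n : ℕ, |(n : ℝ) - G d e| ≤ (1 + Real.log e) ^ W ∧ ¬ P n}.ncard : ℝ) ≤ N / Real.log N ^ U := by
  obtain ⟨n₀, hn₀⟩ := hP
  obtain ⟨N₁, hN₁⟩ := factorisations hE k ha G hG ε hε K A W U
  -- for large `e` the integers near `G d e ≥ a e` are large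
  have hlarge : ∀ᶠ x : ℝ in atTop, (n₀ : ℝ) + (1 + Real.log x) ^ W ≤ a * x := by
    have h1 := (isLittleO_log_rpow_rpow_atTop (W : ℝ) (show (0 : ℝ) < 1 by norm_num)).bound
      (show (0 : ℝ) < a / 2 ^ (W + 1) by positivity)
    filter_upwards [h1, Real.tendsto_log_atTop.eventually_ge_atTop 1, eventually_ge_atTop (2 * (n₀ : ℝ) / a),
      eventually_ge_atTop 1] with x a1 a2 a3 a4
    rw [Real.norm_eq_abs, Real.norm_eq_abs, Real.rpow_natCast, Real.rpow_one, abs_of_nonneg (by positivity),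
      abs_of_pos (by linarith)] at a1
    rw [div_le_iff₀ ha] at a3
    have a5 : (1 + Real.log x) ^ W ≤ a * x / 2 := by
      calc (1 + Real.log x) ^ W ≤ (2 * Real.log x) ^ W := pow_le_pow_left₀ (by linarith) (by linarith) W
        _ = 2 ^ W * Real.log x ^ W := mul_pow _ _ _
        _ ≤ 2 ^ W * (a / 2 ^ (W + 1) * x) := mul_le_mul_of_nonneg_left a1 (by positivity)
        _ = a * x / 2 := by rw [pow_succ]; field_simp
    linarith
  obtain ⟨x₀, hx₀⟩ := eventually_atTop.1 hlarge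
  have h1 : Tendsto (fun N : ℕ => Real.exp (Real.log N ^ ε)) atTop atTop :=
    Real.tendsto_exp_atTop.comp ((tendsto_rpow_atTop hε).comp
      (Real.tendsto_log_atTop.comp (tendsto_natCast_atTop_atTop (R := ℝ))))
  obtain ⟨N₂, hN₂⟩ := eventually_atTop.1 (h1.eventually_ge_atTop x₀)
  refine ⟨max N₁ N₂, fun N hN => le_trans ?_ (hN₁ N ((le_max_left _ _).trans hN))⟩
  have hD := hN₂ N ((le_max_right _ _).trans hN)
  have hfin : {m : ℕ | 1 ≤ m ∧ m ≤ N ∧ ∃ l : ℕ, 1 ≤ l ∧ |(l : ℝ) - m| ≤ Real.log N ^ A ∧ ∃ (d : Fin k → ℕ) (e : ℕ),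
        (∏ i, d i) * e = l ∧ Real.exp (Real.log N ^ ε) ≤ e ∧ G d e ≤ K * e * (1 + Real.log e) ^ K ∧
        ∃ n ∈ E, |(n : ℝ) - G d e| ≤ (1 + Real.log e) ^ W}.Finite :=
    (Set.finite_Iic N).subset fun m hm => hm.2.1
  have hsub : {m : ℕ | 1 ≤ m ∧ m ≤ N ∧ ∃ l : ℕ, 1 ≤ l ∧ |(l : ℝ) - m| ≤ Real.log N ^ A ∧ ∃ (d : Fin k → ℕ) (e : ℕ),
        (∏ i, d i) * e = l ∧ Real.exp (Real.log N ^ ε) ≤ e ∧ G d e ≤ K * e * (1 + Real.log e) ^ K ∧
        ∃ n : ℕ, |(n : ℝ) - G d e| ≤ (1 + Real.log e) ^ W ∧ ¬ P n} ⊆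
      {m : ℕ | 1 ≤ m ∧ m ≤ N ∧ ∃ l : ℕ, 1 ≤ l ∧ |(l : ℝ) - m| ≤ Real.log N ^ A ∧ ∃ (d : Fin k → ℕ) (e : ℕ),
        (∏ i, d i) * e = l ∧ Real.exp (Real.log N ^ ε) ≤ e ∧ G d e ≤ K * e * (1 + Real.log e) ^ K ∧
        ∃ n ∈ E, |(n : ℝ) - G d e| ≤ (1 + Real.log e) ^ W} := by
    rintro m ⟨a1, a2, l, a3, a4, d, e, a5, a6, a7, n, a8, a9⟩
    refine ⟨a1, a2, l, a3, a4, d, e, a5, a6, a7, n, ?_, a8⟩
    by_contra hcon
    refine a9 (hn₀ n ?_ hcon)
    have b1 := hx₀ e (hD.trans a6)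
    have b2 := step_le (hG d) 0 e
    rw [zero_add] at b2
    have b3 := (abs_le.1 a8).1
    have b4 := hG0 d
    have b5 : (n₀ : ℝ) ≤ n := by linarith
    exact_mod_cast b5
  exact_mod_cast Set.ncard_le_ncard hsub hfin

end Pool.Agent.V7H24.TR
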