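import Pool.Agent.V7H24.TR.Rand

/-!
# Functions of one real variable with a lower bound for the logarithmic derivative
-/

set_option autoImplicit false

namespace Pool.Agent.V7H24.TR

open Finset Classical MeasureTheory Filter
open Pool.Agent.N375.AV (LogThin near_log)

/-- `f ≥ 1` and `f y - f x ≥ (y - x) f x / (K (1 + log (f x)) ^ K)` for `a ≤ x ≤ y ≤ b` -/
def Growing (a b : ℝ) (K : ℕ) (f : ℝ → ℝ) : Prop :=
  ∀ x y : ℝ, a ≤ x → x ≤ y → y ≤ b → 1 ≤ f x ∧ (y - x) * f x ≤ K * (1 + Real.log (f x)) ^ K * (f y - f x)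

lemma spread_growing {a b : ℝ} {K : ℕ} {f : ℝ → ℝ} (hf : Growing a b K f) {M : ℕ} (hM : b - a ≤ M) :
    Spread volume (Set.Icc a b) (4 * M + 4 * K * 2 ^ K + K) f := by
  intro v hv
  have hv0 : (0 : ℝ) < v := by exact_mod_cast hv
  have hv1 : (1 : ℝ) ≤ v := by exact_mod_cast hv
  have hl : 0 ≤ Real.log v := Real.log_nonneg hv1
  obtain ⟨K', hK'⟩ : ∃ K', K' = 4 * M + 4 * K * 2 ^ K + K := ⟨_, rfl⟩
  rw [← hK']
  have hKK : K ≤ K' := by omega
  have hp : (1 : ℝ) ≤ (1 + Real.log v) ^ K' := one_le_pow₀ (by linarith)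
  have hpK : (1 + Real.log v) ^ K ≤ (1 + Real.log v) ^ K' := pow_le_pow_right₀ (by linarith) hKK
  have hK'r : (K' : ℝ) = 4 * M + 4 * K * 2 ^ K + K := by rw [hK']; push_cast; ring
  rcases Nat.lt_or_ge v 4 with h4 | h4
  · have h4' : (v : ℝ) ≤ 4 := by exact_mod_cast h4.le
    have hsub : {x : ℝ | x ∈ Set.Icc a b ∧ |f x - v| ≤ 1} ⊆ Set.Icc a b := fun x hx => hx.1
    refine (measure_mono hsub).trans ?_
    rw [Real.volume_Icc]
    apply ENNReal.ofReal_le_ofReal
    rw [le_div_iff₀ hv0]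
    have hM0 : (0 : ℝ) ≤ M := Nat.cast_nonneg M
    have h1 : (b - a) * v ≤ M * 4 := by
      rcases le_or_gt 0 (b - a) with h | h
      · exact mul_le_mul hM h4' hv0.le hM0
      · nlinarith
    have h2 : (4 * M : ℝ) ≤ K' := by
      rw [hK'r]
      have : (0 : ℝ) ≤ 4 * K * 2 ^ K + K := by positivity
      linarith
    nlinarith
  · have h4' : (4 : ℝ) ≤ v := by exact_mod_cast h4
    refine (Real.volume_le_diam _).trans ?_
    refine Metric.ediam_le fun x hx y hy => ?_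
    rw [edist_dist]
    apply ENNReal.ofReal_le_ofReal
    have key : ∀ x y : ℝ, x ∈ {x : ℝ | x ∈ Set.Icc a b ∧ |f x - v| ≤ 1} →
        y ∈ {x : ℝ | x ∈ Set.Icc a b ∧ |f x - v| ≤ 1} → x ≤ y → y - x ≤ K' * (1 + Real.log v) ^ K' / v := by
      rintro x y ⟨⟨hx1, hx2⟩, hx3⟩ ⟨⟨hy1, hy2⟩, hy3⟩ hxy
      obtain ⟨a1, a2⟩ := hf x y hx1 hxy hy2
      obtain ⟨b1, b2⟩ := abs_le.1 hx3
      obtain ⟨c1, c2⟩ := abs_le.1 hy3
      have hfx : (v : ℝ) / 2 ≤ f x := by linarith
      have hfx0 : 0 < f x := by linarith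
      have hlog : Real.log (f x) ≤ Real.log v + 1 := by
        have e1 : f x ≤ v * Real.exp 1 := by
          have := Real.add_one_le_exp (1 : ℝ)
          nlinarith
        have e2 := Real.log_le_log hfx0 e1
        rw [Real.log_mul hv0.ne' (Real.exp_pos _).ne', Real.log_exp] at e2
        exact e2
      have hlog0 : 0 ≤ Real.log (f x) := Real.log_nonneg a1
      have hpow : (1 + Real.log (f x)) ^ K ≤ 2 ^ K * (1 + Real.log v) ^ K := by
        rw [← mul_pow]
        apply pow_le_pow_left₀ (by linarith)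
        linarith
      have hstep : (y - x) * (v / 2) ≤ K * (2 ^ K * (1 + Real.log v) ^ K) * 2 := by
        calc (y - x) * (v / 2) ≤ (y - x) * f x := mul_le_mul_of_nonneg_left hfx (by linarith)
          _ ≤ K * (1 + Real.log (f x)) ^ K * (f y - f x) := a2
          _ ≤ K * (1 + Real.log (f x)) ^ K * 2 := by
              apply mul_le_mul_of_nonneg_left (by linarith) (by positivity)
          _ ≤ K * (2 ^ K * (1 + Real.log v) ^ K) * 2 := by
              apply mul_le_mul_of_nonneg_right _ (by norm_num)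
              exact mul_le_mul_of_nonneg_left hpow (Nat.cast_nonneg _)
      rw [le_div_iff₀ hv0]
      have h5 : (y - x) * v ≤ (4 * K * 2 ^ K) * (1 + Real.log v) ^ K := by linarith
      refine h5.trans ?_
      have h6 : (4 * (K : ℝ) * 2 ^ K) ≤ K' := by
        rw [hK'r]
        have : (0 : ℝ) ≤ 4 * M + K := by positivity
        linarith
      exact mul_le_mul h6 hpK (by positivity) (Nat.cast_nonneg _)
    rcases le_total x y with h | h
    · rw [dist_comm, Real.dist_eq, abs_of_nonneg (by linarith)]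
      exact key x y hx hy h
    · rw [Real.dist_eq, abs_of_nonneg (by linarith)]
      exact key y x hy hx h

/-- dilates -/
lemma growing_dilate {a b c : ℝ} (ha : 0 < a) (hc : 1 ≤ c * a) : Growing a b (⌈b⌉₊) (fun x => c * x) := by
  intro x y hx hxy hy
  have hc0 : 0 < c := by
    by_contra h
    nlinarith [not_lt.1 h]
  have h1 : 1 ≤ c * x := by nlinarith
  refine ⟨h1, ?_⟩
  have hlog : 0 ≤ Real.log (c * x) := Real.log_nonneg h1
  have hp : (1 : ℝ) ≤ (1 + Real.log (c * x)) ^ ⌈b⌉₊ := one_le_pow₀ (by linarith)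
  have hb : x ≤ (⌈b⌉₊ : ℝ) := (hxy.trans hy).trans (Nat.le_ceil b)
  have h2 : 0 ≤ c * (y - x) := by nlinarith
  calc (y - x) * (c * x) = x * (c * (y - x)) := by ring
    _ ≤ (⌈b⌉₊ : ℝ) * (1 + Real.log (c * x)) ^ ⌈b⌉₊ * (c * (y - x)) := by
        apply mul_le_mul_of_nonneg_right _ h2
        nlinarith
    _ = (⌈b⌉₊ : ℝ) * (1 + Real.log (c * x)) ^ ⌈b⌉₊ * (c * y - c * x) := by ring

/-- functions with `f (x) / x` increasing -/
lemma growing_star {a b : ℝ} {f : ℝ → ℝ} (ha : 0 < a) (h1 : 1 ≤ f a)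
    (hf : ∀ x y : ℝ, a ≤ x → x ≤ y → y ≤ b → f x / x ≤ f y / y) : Growing a b (⌈b⌉₊) f := by
  have hone : ∀ x : ℝ, a ≤ x → x ≤ b → 1 ≤ f x := by
    intro x hx hxb
    have hx0 : 0 < x := by linarith
    have e := hf a x le_rfl hx hxb
    rw [div_le_div_iff₀ ha hx0] at e
    have e2 : f a * x ≥ 1 * a := by nlinarith
    have e3 : a * 1 ≤ a * f x := by nlinarith
    exact le_of_mul_le_mul_left e3 ha
  intro x y hx hxy hy
  have hx0 : 0 < x := by linarith
  have hy0 : 0 < y := by linarith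
  have hfx := hone x hx (hxy.trans hy)
  refine ⟨hfx, ?_⟩
  have e := hf x y hx hxy hy
  rw [div_le_div_iff₀ hx0 hy0] at e
  have hlog : 0 ≤ Real.log (f x) := Real.log_nonneg hfx
  have hp : (1 : ℝ) ≤ (1 + Real.log (f x)) ^ ⌈b⌉₊ := one_le_pow₀ (by linarith)
  have hb : x ≤ (⌈b⌉₊ : ℝ) := (hxy.trans hy).trans (Nat.le_ceil b)
  have h2 : (y - x) * f x ≤ x * (f y - f x) := by nlinarith
  have h3 : 0 ≤ f y - f x := by
    by_contra hcon
    nlinarith [mul_nonneg (sub_nonneg.2 hxy) (by linarith : (0 : ℝ) ≤ f x)]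
  calc (y - x) * f x ≤ x * (f y - f x) := h2
    _ ≤ (⌈b⌉₊ : ℝ) * (1 + Real.log (f x)) ^ ⌈b⌉₊ * (f y - f x) := by
        apply mul_le_mul_of_nonneg_right _ h3
        nlinarith

end Pool.Agent.V7H24.TR
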