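import Pool.Agent.V7H24.TR.Div
import Pool.Agent.V7H24.TR.App
import Pool.Agent.V7H24.TR.Grow

/-!
# The transfer theorems in positive form
-/

set_option autoImplicit false

namespace Pool.Agent.V7H24.TR

open Finset Classical MeasureTheory Filter
open Pool.Agent.N375.AV (LogThin near_log)
open Pool.Agent.N671.DA (Solves)

/-- the integers near a large real are large -/
lemma near_large (W : ℕ) (n₀ : ℕ) : ∃ D₀ : ℝ, 3 ≤ D₀ ∧ ∀ x : ℝ, D₀ ≤ x → ∀ n : ℕ, |(n : ℝ) - x| ≤ (1 + Real.log x) ^ W → n₀ ≤ n := by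
  have h1 := (isLittleO_log_rpow_rpow_atTop (W : ℝ) (show (0 : ℝ) < 1 by norm_num)).bound
    (show (0 : ℝ) < 1 / 2 ^ (W + 1) by positivity)
  obtain ⟨x₀, hx₀⟩ := eventually_atTop.1 ((h1.and (Real.tendsto_log_atTop.eventually_ge_atTop 1)).and
    (eventually_ge_atTop (2 * (n₀ : ℝ) + 3)))
  refine ⟨max x₀ 3, le_max_right _ _, fun x hx n hn => ?_⟩
  obtain ⟨⟨a1, a2⟩, a3⟩ := hx₀ x ((le_max_left _ _).trans hx)
  have hx0 : 0 < x := by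
    have : (0 : ℝ) ≤ n₀ := Nat.cast_nonneg _
    linarith
  rw [Real.norm_eq_abs, Real.norm_eq_abs, Real.rpow_natCast, Real.rpow_one, abs_of_nonneg (by positivity),
    abs_of_pos hx0] at a1
  have a4 : (1 + Real.log x) ^ W ≤ x / 2 := by
    calc (1 + Real.log x) ^ W ≤ (2 * Real.log x) ^ W := pow_le_pow_left₀ (by linarith) (by linarith) W
      _ = 2 ^ W * Real.log x ^ W := mul_pow _ _ _
      _ ≤ 2 ^ W * (1 / 2 ^ (W + 1) * x) := mul_le_mul_of_nonneg_left a1 (by positivity)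
      _ = x / 2 := by rw [pow_succ]; field_simp
  have a5 := (abs_le.1 hn).1
  have a6 : (n₀ : ℝ) ≤ n := by linarith
  exact_mod_cast a6

/-- divisors -/
theorem divisors_good {E : Set ℕ} (hE : LogThin E) (P : ℕ → Prop) (hP : ∃ n₀ : ℕ, ∀ n : ℕ, n₀ ≤ n → n ∉ E → P n)
    (ε : ℝ) (hε : 0 < ε) (A W U : ℕ) : ∃ N₀ : ℕ, ∀ N : ℕ, N₀ ≤ N →
    ({m : ℕ | 1 ≤ m ∧ m ≤ N ∧ ∃ l : ℕ, 1 ≤ l ∧ |(l : ℝ) - m| ≤ Real.log N ^ A ∧ ∃ d : ℕ, d ∣ l ∧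
      Real.exp (Real.log N ^ ε) ≤ d ∧ ∃ n : ℕ, |(n : ℝ) - d| ≤ (1 + Real.log d) ^ W ∧ ¬ P n}.ncard : ℝ) ≤
      N / Real.log N ^ U := by
  obtain ⟨n₀, hn₀⟩ := hP
  obtain ⟨D₀, _, hD₀⟩ := near_large W n₀
  obtain ⟨N₁, hN₁⟩ := divisors hE ε hε A W U
  have h1 : Tendsto (fun N : ℕ => Real.exp (Real.log N ^ ε)) atTop atTop :=
    Real.tendsto_exp_atTop.comp ((tendsto_rpow_atTop hε).comp
      (Real.tendsto_log_atTop.comp (tendsto_natCast_atTop_atTop (R := ℝ))))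
  obtain ⟨N₂, hN₂⟩ := eventually_atTop.1 (h1.eventually_ge_atTop D₀)
  refine ⟨max N₁ N₂, fun N hN => le_trans ?_ (hN₁ N ((le_max_left _ _).trans hN))⟩
  have hD := hN₂ N ((le_max_right _ _).trans hN)
  have hsub : {m : ℕ | 1 ≤ m ∧ m ≤ N ∧ ∃ l : ℕ, 1 ≤ l ∧ |(l : ℝ) - m| ≤ Real.log N ^ A ∧ ∃ d : ℕ, d ∣ l ∧
      Real.exp (Real.log N ^ ε) ≤ d ∧ ∃ n : ℕ, |(n : ℝ) - d| ≤ (1 + Real.log d) ^ W ∧ ¬ P n} ⊆
      {m : ℕ | 1 ≤ m ∧ m ≤ N ∧ ∃ l : ℕ, 1 ≤ l ∧ |(l : ℝ) - m| ≤ Real.log N ^ A ∧ ∃ d : ℕ, d ∣ l ∧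
      Real.exp (Real.log N ^ ε) ≤ d ∧ ∃ n ∈ E, |(n : ℝ) - d| ≤ (1 + Real.log d) ^ W} := by
    rintro m ⟨a1, a2, l, a3, a4, d, a5, a6, n, a7, a8⟩
    refine ⟨a1, a2, l, a3, a4, d, a5, a6, n, ?_, a7⟩
    by_contra hcon
    exact a8 (hn₀ n (hD₀ d (hD.trans a6) n a7) hcon)
  have hfin : {m : ℕ | 1 ≤ m ∧ m ≤ N ∧ ∃ l : ℕ, 1 ≤ l ∧ |(l : ℝ) - m| ≤ Real.log N ^ A ∧ ∃ d : ℕ, d ∣ l ∧
      Real.exp (Real.log N ^ ε) ≤ d ∧ ∃ n ∈ E, |(n : ℝ) - d| ≤ (1 + Real.log d) ^ W}.Finite :=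
    (Set.finite_Iic N).subset fun m hm => hm.2.1
  exact_mod_cast Set.ncard_le_ncard hsub hfin

/-- good simultaneous approximations -/
theorem approx_good {k : ℕ} (hk : 1 ≤ k) {E : Set ℕ} (hE : LogThin E) {I : Type} (P : I → ℕ → Prop)
    (hP : ∀ i, ∃ n₀ : ℕ, ∀ n : ℕ, n₀ ≤ n → n ∉ E → P i n) (β : Fin k → ℝ) :
    ∀ᵐ α : Fin k → ℝ, ∀ i, ∀ K W : ℕ, ∃ Q : ℕ, ∀ q : ℕ, Q ≤ q →
      Solves α β q ((1 + Real.log q) ^ K * (q : ℝ) ^ (-(1 / (k : ℝ)))) →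
      ∀ n : ℕ, |(n : ℝ) - q| ≤ (1 + Real.log q) ^ W → P i n := by
  filter_upwards [approx hk hE β] with α hα i K W
  obtain ⟨n₀, hn₀⟩ := hP i
  obtain ⟨D₀, _, hD₀⟩ := near_large W n₀
  obtain ⟨Q, hQ⟩ := hα K W
  refine ⟨max Q ⌈D₀⌉₊, fun q hq hs n hn => ?_⟩
  have h1 : D₀ ≤ q := (Nat.le_ceil D₀).trans (by exact_mod_cast (le_max_right _ _).trans hq)
  exact hn₀ n (hD₀ q h1 n hn) (hQ q ((le_max_left _ _).trans hq) hs n hn)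

/-- random families -/
theorem families_good {E : Set ℕ} (hE : LogThin E) {J : Type} (P : J → ℕ → Prop)
    (hP : ∀ j, ∃ n₀ : ℕ, ∀ n : ℕ, n₀ ≤ n → n ∉ E → P j n) {Ω ι : Type} [MeasurableSpace Ω] [Countable ι] (μ : Measure Ω)
    (S : Set Ω) (K A : ℕ) (X : ι → Ω → ℝ) (t : ι → ℝ) (ht : ∀ i, 2 ≤ t i) (hX : ∀ i, Spread μ S K (X i))
    (hlow : ∀ i, ∀ ω ∈ S, Real.exp (t i) ≤ X i ω) (hsum : Summable fun i => 1 / (1 + t i) ^ A) :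
    ∀ᵐ ω ∂μ, ω ∈ S → ∀ j, ∀ W : ℕ, {i | ∃ n : ℕ, |(n : ℝ) - X i ω| ≤ (1 + Real.log (X i ω)) ^ W ∧ ¬ P j n}.Finite := by
  filter_upwards [families hE μ S K A X t ht hX hlow hsum] with ω hω hS j W
  obtain ⟨n₀, hn₀⟩ := hP j
  obtain ⟨D₀, hD3, hD₀⟩ := near_large W n₀
  -- finitely many `i` with `t i ≤ log D₀`
  have hfin : {i | t i ≤ Real.log D₀}.Finite := by
    have h0 := hsum.tendsto_cofinite_zero
    have hl : 0 ≤ Real.log D₀ := Real.log_nonneg (by linarith)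
    have h1 := h0.eventually (gt_mem_nhds (show (0 : ℝ) < 1 / (1 + Real.log D₀) ^ A by positivity))
    rw [Filter.eventually_cofinite] at h1
    refine h1.subset ?_
    intro i hi
    have hi' : t i ≤ Real.log D₀ := hi
    simp only [Set.mem_setOf_eq, not_lt]
    have := ht i
    apply one_div_le_one_div_of_le (by positivity)
    apply pow_le_pow_left₀ (by linarith)
    linarith
  refine ((hω hS W).union hfin).subset ?_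
  rintro i ⟨n, h1, h2⟩
  by_cases hi : t i ≤ Real.log D₀
  · right; exact hi
  · left
    rw [not_le] at hi
    refine ⟨n, ?_, h1⟩
    by_contra hcon
    refine h2 (hn₀ n (hD₀ (X i ω) ?_ n h1) hcon)
    refine le_trans ?_ (hlow i ω hS)
    rw [← Real.exp_log (show (0 : ℝ) < D₀ by linarith)]
    exact Real.exp_le_exp.2 hi.le

end Pool.Agent.V7H24.TR
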