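import Pool.Agent.V7H24.TR.Good

/-!
# Arbitrary sequences of random variables: almost all members avoid sets with a saving of every power of the logarithm
-/

set_option autoImplicit false

namespace Pool.Agent.V7H24.TR

open Finset Classical MeasureTheory Filter
open Pool.Agent.N375.AV (LogThin near_log)

lemma sum_inv_log_sq (F : Finset ℕ) (hF : ∀ n ∈ F, 1 ≤ n) : ∑ n ∈ F, 1 / (n * (1 + Real.log n) ^ 2) ≤ (8 : ℝ) := by
  obtain ⟨M, hM⟩ : ∃ M, M = F.sup (fun v => Nat.log 2 v) + 1 := ⟨_, rfl⟩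
  have hmaps : ∀ v ∈ F, Nat.log 2 v ∈ Ico 0 M := by
    intro v hv
    rw [mem_Ico, hM]
    exact ⟨Nat.zero_le _, Nat.lt_succ_of_le (le_sup (f := fun v => Nat.log 2 v) hv)⟩
  rw [← sum_fiberwise_of_maps_to hmaps]
  have hblock : ∀ j ∈ Ico 0 M, ∑ n ∈ F with Nat.log 2 n = j, 1 / ((n : ℝ) * (1 + Real.log n) ^ 2) ≤
      4 * (1 / ((j : ℝ) + 1) ^ 2) := by
    intro j _
    have h2j : (0 : ℝ) < 2 ^ j := by positivity
    have hterm : ∀ n ∈ F.filter (fun n => Nat.log 2 n = j), 1 / ((n : ℝ) * (1 + Real.log n) ^ 2) ≤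
        (1 / 2 ^ j) * (4 / ((j : ℝ) + 1) ^ 2) := by
      intro n hn
      rw [mem_filter] at hn
      have h1 := hF n hn.1
      have h3 : 2 ^ j ≤ n := by rw [← hn.2]; exact Nat.pow_log_le_self 2 (by omega)
      have h3' : (2 : ℝ) ^ j ≤ n := by exact_mod_cast h3
      have h4 : (j : ℝ) * Real.log 2 ≤ Real.log n := by
        have := Real.log_le_log h2j h3'
        rwa [Real.log_pow] at this
      have h5 : ((j : ℝ) + 1) / 2 ≤ 1 + Real.log n := by nlinarith [half_le_log_two, (Nat.cast_nonneg j : (0 : ℝ) ≤ j)]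
      have h6 : ((j : ℝ) + 1) ^ 2 / 4 ≤ (1 + Real.log n) ^ 2 := by
        have h7 : (((j : ℝ) + 1) / 2) ^ 2 ≤ (1 + Real.log n) ^ 2 := pow_le_pow_left₀ (by positivity) h5 2
        calc ((j : ℝ) + 1) ^ 2 / 4 = (((j : ℝ) + 1) / 2) ^ 2 := by ring
          _ ≤ _ := h7
      calc 1 / ((n : ℝ) * (1 + Real.log n) ^ 2) ≤ 1 / (2 ^ j * (((j : ℝ) + 1) ^ 2 / 4)) := by
            apply one_div_le_one_div_of_le (by positivity)
            exact mul_le_mul h3' h6 (by positivity) (by linarith)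
        _ = (1 / 2 ^ j) * (4 / ((j : ℝ) + 1) ^ 2) := by field_simp
    have hcard : ((F.filter (fun n => Nat.log 2 n = j)).card : ℝ) ≤ 2 ^ j := by
      have hsub : F.filter (fun n => Nat.log 2 n = j) ⊆ Ico (2 ^ j) (2 ^ (j + 1)) := by
        intro n hn
        rw [mem_filter] at hn
        rw [mem_Ico, ← hn.2]
        exact ⟨Nat.pow_log_le_self 2 (by have := hF n hn.1; omega), Nat.lt_pow_succ_log_self (by norm_num) n⟩
      have h1 := card_le_card hsub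
      rw [Nat.card_Ico, pow_succ] at h1
      have h2 : (F.filter (fun n => Nat.log 2 n = j)).card ≤ 2 ^ j := by omega
      exact_mod_cast h2
    refine (sum_le_sum hterm).trans ?_
    rw [sum_const, nsmul_eq_mul]
    calc ((F.filter (fun n => Nat.log 2 n = j)).card : ℝ) * ((1 / 2 ^ j) * (4 / ((j : ℝ) + 1) ^ 2))
        ≤ 2 ^ j * ((1 / 2 ^ j) * (4 / ((j : ℝ) + 1) ^ 2)) := mul_le_mul_of_nonneg_right hcard (by positivity)
      _ = 4 * (1 / ((j : ℝ) + 1) ^ 2) := by field_simp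
  refine (sum_le_sum hblock).trans ?_
  rw [← mul_sum]
  have := inv_sq_sum 0 M
  linarith

/-- from the convergence of the weighted sum to the count -/
lemma count_of_sum (s V : ℕ → Prop) (σ : ℝ) (hσ : 0 ≤ σ) (n₁ U : ℕ)
    (hs : ∀ F : Finset ℕ, (∀ n ∈ F, n₁ ≤ n ∧ 1 ≤ n ∧ s n) → ∑ n ∈ F, (1 + Real.log n) ^ (U + 1) / n ≤ σ)
    (hV : ∀ n, n₁ ≤ n → V n → s n) :
    ∃ N₀ : ℕ, ∀ N : ℕ, N₀ ≤ N → (((Icc 1 N).filter V).card : ℝ) ≤ N / Real.log N ^ U := by
  have h1 := (isLittleO_log_rpow_rpow_atTop (U : ℝ) (show (0 : ℝ) < 1 / 2 by norm_num)).bound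
    (show (0 : ℝ) < 1 / 4 by norm_num)
  have h1' := (tendsto_natCast_atTop_atTop (R := ℝ)).eventually h1
  have h2 := (isLittleO_log_rpow_rpow_atTop (U : ℝ) (show (0 : ℝ) < 1 by norm_num)).bound
    (show (0 : ℝ) < 1 / (4 * (n₁ + 1)) by positivity)
  have h2' := (tendsto_natCast_atTop_atTop (R := ℝ)).eventually h2
  have h3 := (Real.tendsto_log_atTop.comp (tendsto_natCast_atTop_atTop (R := ℝ))).eventually_ge_atTop
    (2 * σ * 2 ^ (U + 1) + 1)
  obtain ⟨N₀, hN₀⟩ := eventually_atTop.1 (((h1'.and h2').and h3).and (eventually_ge_atTop 1))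
  refine ⟨N₀, fun N hN => ?_⟩
  obtain ⟨⟨⟨a1, a2⟩, a3⟩, a4⟩ := hN₀ N hN
  simp only [Function.comp] at a3
  have hN1 : (1 : ℝ) ≤ N := by exact_mod_cast a4
  have hN0 : (0 : ℝ) < N := by linarith
  have hl : 1 ≤ Real.log N := by
    have : 0 ≤ 2 * σ * 2 ^ (U + 1) := by positivity
    linarith
  have hl0 : 0 < Real.log N := by linarith
  rw [Real.norm_eq_abs, Real.norm_eq_abs, Real.rpow_natCast, abs_of_nonneg (by positivity),
    abs_of_nonneg (by positivity), ← Real.sqrt_eq_rpow] at a1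
  rw [Real.norm_eq_abs, Real.norm_eq_abs, Real.rpow_natCast, Real.rpow_one, abs_of_nonneg (by positivity),
    abs_of_pos hN0] at a2
  -- three parts
  have hsub : (Icc 1 N).filter V ⊆ (range n₁ ∪ (Icc 1 ⌊√(N : ℝ)⌋₊)) ∪
      (Icc 1 N).filter (fun n => n₁ ≤ n ∧ s n ∧ √(N : ℝ) ≤ n) := by
    intro n hn
    rw [mem_filter, mem_Icc] at hn
    rw [mem_union, mem_union, mem_range, mem_filter, mem_Icc, mem_Icc]
    by_cases c1 : n < n₁
    · left; left; exact c1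
    · by_cases c2 : n ≤ ⌊√(N : ℝ)⌋₊
      · left; right; exact ⟨hn.1.1, c2⟩
      · right
        rw [not_lt] at c1
        rw [not_le, Nat.floor_lt (Real.sqrt_nonneg _)] at c2
        exact ⟨hn.1, c1, hV n c1 hn.2, c2.le⟩
  have hc := (card_le_card hsub).trans ((card_union_le _ _).trans (Nat.add_le_add_right (card_union_le _ _) _))
  rw [card_range, Nat.card_Icc, Nat.add_sub_cancel] at hc
  have hc' : (((Icc 1 N).filter V).card : ℝ) ≤ n₁ + (⌊√(N : ℝ)⌋₊ : ℝ) +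
      ((Icc 1 N).filter (fun n => n₁ ≤ n ∧ s n ∧ √(N : ℝ) ≤ n)).card := by exact_mod_cast hc
  have hfl : (⌊√(N : ℝ)⌋₊ : ℝ) ≤ √N := Nat.floor_le (Real.sqrt_nonneg _)
  have hthird : (((Icc 1 N).filter (fun n => n₁ ≤ n ∧ s n ∧ √(N : ℝ) ≤ n)).card : ℝ) ≤
      (N / Real.log N ^ U) / 2 := by
    have hterm : ∀ n ∈ (Icc 1 N).filter (fun n => n₁ ≤ n ∧ s n ∧ √(N : ℝ) ≤ n),
        (1 : ℝ) ≤ (N * 2 ^ (U + 1) / Real.log N ^ (U + 1)) * ((1 + Real.log n) ^ (U + 1) / n) := by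
      intro n hn
      rw [mem_filter, mem_Icc] at hn
      obtain ⟨⟨b1, b2⟩, b3, b4, b5⟩ := hn
      have hn0 : (0 : ℝ) < n := by exact_mod_cast b1
      have hnN : (n : ℝ) ≤ N := by exact_mod_cast b2
      have h4 : Real.log N / 2 ≤ 1 + Real.log n := by
        have h5 := Real.log_le_log (Real.sqrt_pos.2 hN0) b5
        rw [Real.log_sqrt hN0.le] at h5
        linarith
      have h6 : (Real.log N / 2) ^ (U + 1) ≤ (1 + Real.log n) ^ (U + 1) := pow_le_pow_left₀ (by linarith) h4 _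
      have h7 : (1 : ℝ) ≤ N / n := by rw [le_div_iff₀ hn0]; linarith
      calc (1 : ℝ) = 1 * 1 := (one_mul _).symm
        _ ≤ (N / n) * ((1 + Real.log n) ^ (U + 1) / (Real.log N / 2) ^ (U + 1)) := by
            apply mul_le_mul h7 _ zero_le_one (by positivity)
            rw [le_div_iff₀ (by positivity), one_mul]
            exact h6
        _ = (N * 2 ^ (U + 1) / Real.log N ^ (U + 1)) * ((1 + Real.log n) ^ (U + 1) / n) := by
            rw [div_pow]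
            field_simp
    have hsum : (((Icc 1 N).filter (fun n => n₁ ≤ n ∧ s n ∧ √(N : ℝ) ≤ n)).card : ℝ) ≤
        (N * 2 ^ (U + 1) / Real.log N ^ (U + 1)) * σ := by
      calc (((Icc 1 N).filter (fun n => n₁ ≤ n ∧ s n ∧ √(N : ℝ) ≤ n)).card : ℝ)
          = ∑ _n ∈ (Icc 1 N).filter (fun n => n₁ ≤ n ∧ s n ∧ √(N : ℝ) ≤ n), (1 : ℝ) := by
            rw [sum_const, nsmul_eq_mul, mul_one]
        _ ≤ ∑ n ∈ (Icc 1 N).filter (fun n => n₁ ≤ n ∧ s n ∧ √(N : ℝ) ≤ n),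
            (N * 2 ^ (U + 1) / Real.log N ^ (U + 1)) * ((1 + Real.log n) ^ (U + 1) / n) := sum_le_sum hterm
        _ ≤ _ := by
            rw [← mul_sum]
            apply mul_le_mul_of_nonneg_left _ (by positivity)
            apply hs
            intro n hn
            rw [mem_filter, mem_Icc] at hn
            exact ⟨hn.2.1, hn.1.1, hn.2.2.1⟩
    refine hsum.trans ?_
    have e : (N * 2 ^ (U + 1) / Real.log N ^ (U + 1)) * σ = (N / Real.log N ^ U) * (σ * 2 ^ (U + 1) / Real.log N) := by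
      rw [pow_succ (Real.log N)]
      field_simp
    rw [e]
    calc (N / Real.log N ^ U) * (σ * 2 ^ (U + 1) / Real.log N) ≤ (N / Real.log N ^ U) * (1 / 2) := by
          apply mul_le_mul_of_nonneg_left _ (by positivity)
          rw [div_le_iff₀ hl0]
          linarith
      _ = _ := by ring
  have hfirst : (n₁ : ℝ) ≤ (N / Real.log N ^ U) / 4 := by
    rw [div_div, le_div_iff₀ (by positivity)]
    have hM : (0 : ℝ) ≤ n₁ := Nat.cast_nonneg n₁
    have g1 : Real.log N ^ U * (4 * (n₁ + 1)) ≤ N := by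
      have := mul_le_mul_of_nonneg_right a2 (show (0 : ℝ) ≤ 4 * (n₁ + 1) by positivity)
      calc Real.log N ^ U * (4 * (n₁ + 1)) ≤ 1 / (4 * (n₁ + 1)) * N * (4 * (n₁ + 1)) := this
        _ = N := by field_simp
    nlinarith [pow_pos hl0 U]
  have hsecond : √(N : ℝ) ≤ (N / Real.log N ^ U) / 4 := by
    rw [div_div, le_div_iff₀ (by positivity)]
    have h5 : √(N : ℝ) * √(N : ℝ) = N := Real.mul_self_sqrt hN0.le
    calc √(N : ℝ) * (Real.log N ^ U * 4) ≤ √(N : ℝ) * ((1 / 4 * √(N : ℝ)) * 4) := by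
          apply mul_le_mul_of_nonneg_left _ (Real.sqrt_nonneg _)
          linarith
      _ = √(N : ℝ) * √(N : ℝ) := by ring
      _ = N := h5
  linarith

/-- **Arbitrary sequences of random variables.** Let `X_n` be random variables with `X_n ≥ exp ((log n) ^ κ)` for large `n` and
laws of density at most `K (1 + log v) ^ K / v` at the unit scale; no independence is assumed. Almost surely, for all `n ≤ N` but
`N / (log N) ^ U` no member of `E` is within distance `(1 + log X_n) ^ W` of `X_n`. -/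
theorem metric {E : Set ℕ} (hE : LogThin E) {Ω : Type} [MeasurableSpace Ω] (μ : Measure Ω) (S : Set Ω) (K : ℕ)
    (X : ℕ → Ω → ℝ) (n₀ : ℕ) (hX : ∀ n, n₀ ≤ n → Spread μ S K (X n)) (κ : ℝ) (hκ : 0 < κ)
    (hlow : ∀ n, n₀ ≤ n → ∀ ω ∈ S, Real.exp (Real.log n ^ κ) ≤ X n ω) :
    ∀ᵐ ω ∂μ, ω ∈ S → ∀ W U : ℕ, ∃ N₀ : ℕ, ∀ N : ℕ, N₀ ≤ N →
      (((Icc 1 N).filter (fun n => ∃ m ∈ E, |(m : ℝ) - X n ω| ≤ (1 + Real.log (X n ω)) ^ W)).card : ℝ) ≤
        N / Real.log N ^ U := by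
  have hWU : ∀ W U : ℕ, ∀ᵐ ω ∂μ, ω ∈ S → ∃ N₀ : ℕ, ∀ N : ℕ, N₀ ≤ N →
      (((Icc 1 N).filter (fun n => ∃ m ∈ E, |(m : ℝ) - X n ω| ≤ (1 + Real.log (X n ω)) ^ W)).card : ℝ) ≤
        N / Real.log N ^ U := by
    intro W U
    obtain ⟨B, hB⟩ : ∃ B : ℕ, ((U + 3 : ℕ) : ℝ) ≤ κ * B := by
      obtain ⟨B, hB⟩ := exists_nat_ge (((U + 3 : ℕ) : ℝ) / κ)
      refine ⟨B, ?_⟩
      rw [div_le_iff₀ hκ] at hB
      linarith
    obtain ⟨C, hC, hsp⟩ := spread_near hE K W B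
    -- large `n`
    have h1 : Tendsto (fun n : ℕ => Real.log n ^ κ) atTop atTop :=
      (tendsto_rpow_atTop hκ).comp (Real.tendsto_log_atTop.comp (tendsto_natCast_atTop_atTop (R := ℝ)))
    obtain ⟨n₁, hn₁⟩ := eventually_atTop.1 (((h1.eventually_ge_atTop 2).and
      ((Real.tendsto_log_atTop.comp (tendsto_natCast_atTop_atTop (R := ℝ))).eventually_ge_atTop 1)).and
        ((eventually_ge_atTop 1).and (eventually_ge_atTop n₀)))
    simp only [Function.comp] at hn₁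
    obtain ⟨bad, hbad⟩ : ∃ bad : ℕ → Set Ω, bad = fun n : ℕ => {ω | ω ∈ S ∧ Real.exp (Real.log n ^ κ) ≤ X n ω ∧
      ∃ m ∈ E, |(m : ℝ) - X n ω| ≤ (1 + Real.log (X n ω)) ^ W} := ⟨_, rfl⟩
    have hmeas : ∀ n, n₁ ≤ n → μ (bad n) ≤ ENNReal.ofReal (C * 2 ^ (U + 3) / (1 + Real.log n) ^ (U + 3)) := by
      intro n hn
      obtain ⟨⟨a1, a2⟩, a3, a4⟩ := hn₁ n hn
      have h3 : (3 : ℝ) ≤ Real.exp (Real.log n ^ κ) := by
        have := Real.add_one_le_exp (Real.log n ^ κ)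
        linarith
      have h5 := hsp μ S (X n) (hX n a4) _ h3
      rw [Real.log_exp] at h5
      rw [hbad]
      refine h5.trans (ENNReal.ofReal_le_ofReal ?_)
      have hl0 : 0 < Real.log n := by linarith
      have h6 : (1 + Real.log n) ^ (U + 3) / 2 ^ (U + 3) ≤ (1 + Real.log n ^ κ) ^ B := by
        calc (1 + Real.log n) ^ (U + 3) / 2 ^ (U + 3) = ((1 + Real.log n) / 2) ^ (U + 3) := (div_pow _ _ _).symm
          _ ≤ Real.log n ^ (U + 3) := pow_le_pow_left₀ (by linarith) (by linarith) _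
          _ = Real.log n ^ ((U + 3 : ℕ) : ℝ) := (Real.rpow_natCast _ _).symm
          _ ≤ Real.log n ^ (κ * B) := Real.rpow_le_rpow_of_exponent_le a2 hB
          _ = (Real.log n ^ κ) ^ B := by rw [Real.rpow_mul hl0.le, Real.rpow_natCast]
          _ ≤ (1 + Real.log n ^ κ) ^ B := pow_le_pow_left₀ (by positivity) (by linarith) _
      rw [mul_div_assoc, div_eq_mul_one_div C]
      apply mul_le_mul_of_nonneg_left _ hC
      rw [div_le_div_iff₀ (by positivity) (by positivity), one_mul]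
      rw [div_le_iff₀ (by positivity)] at h6
      linarith
    obtain ⟨w, hw⟩ : ∃ w : ℕ → ℝ, w = fun n : ℕ => (1 + Real.log n) ^ (U + 1) / n := ⟨_, rfl⟩
    have hw0 : ∀ n, 1 ≤ n → 0 ≤ w n := by
      intro n hn
      have hl : 0 ≤ Real.log n := Real.log_nonneg (by exact_mod_cast hn)
      rw [hw]
      positivity
    obtain ⟨g, hg⟩ : ∃ g : ℕ → Ω → ENNReal, g = fun n : ℕ => (toMeasurable μ (bad n)).indicator
      (fun _ => if n₁ ≤ n then ENNReal.ofReal (w n) else 0) := ⟨_, rfl⟩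
    have hgm : ∀ n, Measurable (g n) := by
      intro n
      rw [hg]
      exact measurable_const.indicator (measurableSet_toMeasurable _ _)
    have hint : ∫⁻ ω, ∑' n, g n ω ∂μ ≠ ⊤ := by
      rw [lintegral_tsum fun n => (hgm n).aemeasurable]
      have hterm : ∀ n, ∫⁻ ω, g n ω ∂μ ≤ ENNReal.ofReal (if n₁ ≤ n then
          C * 2 ^ (U + 3) * (1 / (n * (1 + Real.log n) ^ 2)) else 0) := by
        intro n
        rw [hg]
        simp only
        rw [lintegral_indicator_const (measurableSet_toMeasurable _ _), measure_toMeasurable]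
        by_cases hn : n₁ ≤ n
        · rw [if_pos hn, if_pos hn]
          obtain ⟨⟨_, a2⟩, a3, _⟩ := hn₁ n hn
          refine (mul_le_mul_right (hmeas n hn) _).trans ?_
          rw [← ENNReal.ofReal_mul (hw0 n a3)]
          apply ENNReal.ofReal_le_ofReal
          have hn0 : (0 : ℝ) < n := by exact_mod_cast a3
          have hl : 0 < 1 + Real.log n := by linarith
          rw [hw]
          simp only
          apply le_of_eq
          have e : (1 + Real.log n) ^ (U + 3) = (1 + Real.log n) ^ (U + 1) * (1 + Real.log n) ^ 2 := by ring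
          rw [e]
          field_simp
        · rw [if_neg hn, if_neg hn]
          simp
      refine ne_top_of_le_ne_top ?_ (ENNReal.tsum_le_tsum hterm)
      rw [ENNReal.tsum_eq_iSup_sum]
      apply ne_top_of_le_ne_top (ENNReal.ofReal_ne_top (r := C * 2 ^ (U + 3) * 8))
      apply iSup_le
      intro F
      rw [← ENNReal.ofReal_sum_of_nonneg]
      · apply ENNReal.ofReal_le_ofReal
        rw [← sum_filter, ← mul_sum]
        apply mul_le_mul_of_nonneg_left _ (by positivity)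
        apply sum_inv_log_sq
        intro n hn
        rw [mem_filter] at hn
        exact (hn₁ n hn.2).2.1
      · intro n _
        split_ifs with h
        · positivity
        · exact le_rfl
    have hae := ae_lt_top (Measurable.tsum hgm) hint
    filter_upwards [hae] with ω hω hS
    refine count_of_sum (fun n => ω ∈ bad n) _ (∑' n, g n ω).toReal ENNReal.toReal_nonneg n₁ U ?_ ?_
    · intro F hF
      have h2 : ENNReal.ofReal (∑ n ∈ F, w n) ≤ ∑' n, g n ω := by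
        rw [ENNReal.ofReal_sum_of_nonneg fun n hn => hw0 n (hF n hn).2.1]
        refine le_trans (sum_le_sum fun n hn => ?_) (ENNReal.sum_le_tsum F)
        rw [hg]
        simp only
        rw [Set.indicator_of_mem (subset_toMeasurable _ _ (hF n hn).2.2), if_pos (hF n hn).1]
      have h3 := (ENNReal.ofReal_le_iff_le_toReal hω.ne).1 h2
      rwa [hw] at h3
    · rintro n hn ⟨m, hm, hm2⟩
      rw [hbad]
      exact ⟨hS, hlow n (hn₁ n hn).2.2 ω hS, m, hm, hm2⟩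
  have hall : ∀ᵐ ω ∂μ, ∀ WU : ℕ × ℕ, ω ∈ S → ∃ N₀ : ℕ, ∀ N : ℕ, N₀ ≤ N →
      (((Icc 1 N).filter (fun n => ∃ m ∈ E, |(m : ℝ) - X n ω| ≤ (1 + Real.log (X n ω)) ^ WU.1)).card : ℝ) ≤
        N / Real.log N ^ WU.2 := by
    rw [ae_all_iff]
    intro WU
    exact hWU WU.1 WU.2
  filter_upwards [hall] with ω hω hS W U
  exact hω (W, U) hS

/-- the same in positive form -/
theorem metric_good {E : Set ℕ} (hE : LogThin E) {J : Type} (P : J → ℕ → Prop)
    (hP : ∀ j, ∃ n₀ : ℕ, ∀ n : ℕ, n₀ ≤ n → n ∉ E → P j n) {Ω : Type} [MeasurableSpace Ω] (μ : Measure Ω) (S : Set Ω) (K : ℕ)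
    (X : ℕ → Ω → ℝ) (n₀ : ℕ) (hX : ∀ n, n₀ ≤ n → Spread μ S K (X n)) (κ : ℝ) (hκ : 0 < κ)
    (hlow : ∀ n, n₀ ≤ n → ∀ ω ∈ S, Real.exp (Real.log n ^ κ) ≤ X n ω) :
    ∀ᵐ ω ∂μ, ω ∈ S → ∀ j, ∀ W U : ℕ, ∃ N₀ : ℕ, ∀ N : ℕ, N₀ ≤ N →
      ({n : ℕ | 1 ≤ n ∧ n ≤ N ∧ ∃ m : ℕ, |(m : ℝ) - X n ω| ≤ (1 + Real.log (X n ω)) ^ W ∧ ¬ P j m}.ncard : ℝ) ≤
        N / Real.log N ^ U := by
  filter_upwards [metric hE μ S K X n₀ hX κ hκ hlow] with ω hω hS j W U
  obtain ⟨m₀, hm₀⟩ := hP j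
  obtain ⟨D₀, hD3, hD₀⟩ := near_large W m₀
  have h1 : Tendsto (fun n : ℕ => Real.exp (Real.log n ^ κ)) atTop atTop :=
    Real.tendsto_exp_atTop.comp ((tendsto_rpow_atTop hκ).comp
      (Real.tendsto_log_atTop.comp (tendsto_natCast_atTop_atTop (R := ℝ))))
  obtain ⟨n₁, hn₁⟩ := eventually_atTop.1 ((h1.eventually_ge_atTop D₀).and (eventually_ge_atTop n₀))
  obtain ⟨N₁, hN₁⟩ := hω hS W (U + 1)
  have h2 := (isLittleO_log_rpow_rpow_atTop (U : ℝ) (show (0 : ℝ) < 1 by norm_num)).bound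
    (show (0 : ℝ) < 1 / (2 * (n₁ + 1)) by positivity)
  have h2' := (tendsto_natCast_atTop_atTop (R := ℝ)).eventually h2
  have h3 := (Real.tendsto_log_atTop.comp (tendsto_natCast_atTop_atTop (R := ℝ))).eventually_ge_atTop 2
  obtain ⟨N₂, hN₂⟩ := eventually_atTop.1 ((h2'.and h3).and (eventually_ge_atTop 1))
  refine ⟨max N₁ N₂, fun N hN => ?_⟩
  obtain ⟨⟨a2, a3⟩, a4⟩ := hN₂ N ((le_max_right _ _).trans hN)
  simp only [Function.comp] at a3
  have hN1 : (1 : ℝ) ≤ N := by exact_mod_cast a4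
  have hN0 : (0 : ℝ) < N := by linarith
  have hl0 : 0 < Real.log N := by linarith
  rw [Real.norm_eq_abs, Real.norm_eq_abs, Real.rpow_natCast, Real.rpow_one, abs_of_nonneg (by positivity),
    abs_of_pos hN0] at a2
  have hsub : {n : ℕ | 1 ≤ n ∧ n ≤ N ∧ ∃ m : ℕ, |(m : ℝ) - X n ω| ≤ (1 + Real.log (X n ω)) ^ W ∧ ¬ P j m} ⊆
      ((range n₁ ∪ (Icc 1 N).filter (fun n => ∃ m ∈ E, |(m : ℝ) - X n ω| ≤ (1 + Real.log (X n ω)) ^ W) : Finset ℕ) :
        Set ℕ) := by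
    rintro n ⟨b1, b2, m, b3, b4⟩
    rw [Finset.mem_coe, mem_union, mem_range, mem_filter, mem_Icc]
    by_cases hn : n < n₁
    · left; exact hn
    · right
      rw [not_lt] at hn
      refine ⟨⟨b1, b2⟩, m, ?_, b3⟩
      by_contra hcon
      exact b4 (hm₀ m (hD₀ (X n ω) ((hn₁ n hn).1.trans (hlow n (hn₁ n hn).2 ω hS)) m b3) hcon)
  have hc := Set.ncard_le_ncard hsub (Finset.finite_toSet _)
  rw [Set.ncard_coe_finset] at hc
  have hc2 := hc.trans (card_union_le _ _)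
  rw [card_range] at hc2
  have hc3 : ({n : ℕ | 1 ≤ n ∧ n ≤ N ∧ ∃ m : ℕ, |(m : ℝ) - X n ω| ≤ (1 + Real.log (X n ω)) ^ W ∧ ¬ P j m}.ncard : ℝ) ≤
      n₁ + (((Icc 1 N).filter (fun n => ∃ m ∈ E, |(m : ℝ) - X n ω| ≤ (1 + Real.log (X n ω)) ^ W)).card : ℝ) := by
    exact_mod_cast hc2
  have hc4 := hN₁ N ((le_max_left _ _).trans hN)
  have hfirst : (n₁ : ℝ) ≤ (N / Real.log N ^ U) / 2 := by
    rw [div_div, le_div_iff₀ (by positivity)]
    have hM : (0 : ℝ) ≤ n₁ := Nat.cast_nonneg n₁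
    have g1 : Real.log N ^ U * (2 * (n₁ + 1)) ≤ N := by
      have := mul_le_mul_of_nonneg_right a2 (show (0 : ℝ) ≤ 2 * (n₁ + 1) by positivity)
      calc Real.log N ^ U * (2 * (n₁ + 1)) ≤ 1 / (2 * (n₁ + 1)) * N * (2 * (n₁ + 1)) := this
        _ = N := by field_simp
    nlinarith [pow_pos hl0 U]
  have hsecond : (N : ℝ) / Real.log N ^ (U + 1) ≤ (N / Real.log N ^ U) / 2 := by
    rw [pow_succ, ← div_div]
    exact div_le_div_of_nonneg_left (by positivity) (by norm_num) a3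
  linarith

lemma growing_affine {M K : ℕ} (hM : 1 ≤ M) {b c : ℝ} (hb : (M : ℝ) ≤ b) (hc0 : 0 ≤ c) (hc : c ≤ K * b * (1 + Real.log b) ^ K) :
    Growing (1 / (M : ℝ)) M (M + K * M ^ K + K) (fun x => x * b + c) := by
  intro x y hx hxy _
  have hM1 : (1 : ℝ) ≤ M := by exact_mod_cast hM
  have hM0 : (0 : ℝ) < M := by linarith
  have hb0 : 0 < b := by linarith
  have hx0 : 0 < x := lt_of_lt_of_le (by positivity) hx
  have hxb : 1 ≤ x * b := by
    calc (1 : ℝ) = (1 / (M : ℝ)) * M := by field_simp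
      _ ≤ x * b := mul_le_mul hx hb hM0.le hx0.le
  have hf1 : 1 ≤ x * b + c := by linarith
  refine ⟨hf1, ?_⟩
  have hlf : 0 ≤ Real.log (x * b + c) := Real.log_nonneg hf1
  have hlb : Real.log b ≤ Real.log M + Real.log (x * b + c) := by
    rw [← Real.log_mul hM0.ne' (by linarith)]
    apply Real.log_le_log hb0
    have : 1 ≤ M * x := by
      rw [div_le_iff₀ hM0] at hx
      linarith
    nlinarith
  have hlM : Real.log M ≤ M - 1 := Real.log_le_sub_one_of_pos hM0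
  have hlb0 : 0 ≤ Real.log b := Real.log_nonneg (by linarith)
  have hp1 : (1 + Real.log b) ^ K ≤ (M : ℝ) ^ K * (1 + Real.log (x * b + c)) ^ K := by
    rw [← mul_pow]
    apply pow_le_pow_left₀ (by linarith)
    nlinarith
  obtain ⟨K', hK'⟩ : ∃ K', K' = M + K * M ^ K + K := ⟨_, rfl⟩
  rw [← hK']
  have hKK : K ≤ K' := by omega
  have hp2 : (1 + Real.log (x * b + c)) ^ K ≤ (1 + Real.log (x * b + c)) ^ K' := pow_le_pow_right₀ (by linarith) hKK
  have hp3 : (1 : ℝ) ≤ (1 + Real.log (x * b + c)) ^ K' := one_le_pow₀ (by linarith)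
  have hxM : x ≤ M ∨ (M : ℝ) < x := le_or_gt x M
  have hxM' : x ≤ M := by linarith
  have hkey : x * b + c ≤ K' * (1 + Real.log (x * b + c)) ^ K' * b := by
    have e1 : x * b ≤ M * (1 + Real.log (x * b + c)) ^ K' * b := by
      calc x * b ≤ M * b := mul_le_mul_of_nonneg_right hxM' hb0.le
        _ = M * 1 * b := by ring
        _ ≤ M * (1 + Real.log (x * b + c)) ^ K' * b := by gcongr
    have e2 : c ≤ K * M ^ K * (1 + Real.log (x * b + c)) ^ K' * b := by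
      calc c ≤ K * b * (1 + Real.log b) ^ K := hc
        _ ≤ K * b * ((M : ℝ) ^ K * (1 + Real.log (x * b + c)) ^ K) := by gcongr
        _ ≤ K * b * ((M : ℝ) ^ K * (1 + Real.log (x * b + c)) ^ K') := by gcongr
        _ = _ := by ring
    have e3 : (M : ℝ) + K * M ^ K ≤ K' := by
      rw [hK']
      push_cast
      have : (0 : ℝ) ≤ K := Nat.cast_nonneg _
      linarith
    calc x * b + c ≤ ((M : ℝ) + K * M ^ K) * (1 + Real.log (x * b + c)) ^ K' * b := by linarith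
      _ ≤ _ := by gcongr
  calc (y - x) * (x * b + c) ≤ (y - x) * (K' * (1 + Real.log (x * b + c)) ^ K' * b) :=
        mul_le_mul_of_nonneg_left hkey (by linarith)
    _ = K' * (1 + Real.log (x * b + c)) ^ K' * (y * b + c - (x * b + c)) := by ring

lemma growing_rpow {a b c : ℝ} (ha : 0 < a) (hc : Real.exp 1 ≤ c) : Growing a b 1 (fun x => c ^ x) := by
  intro x y hx hxy _
  have hc0 : 0 < c := lt_of_lt_of_le (Real.exp_pos 1) hc
  have hl : 1 ≤ Real.log c := by rwa [Real.le_log_iff_exp_le hc0]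
  have h1 : 1 ≤ c ^ x := Real.one_le_rpow (by have := Real.add_one_le_exp (1 : ℝ); linarith) (by linarith)
  refine ⟨h1, ?_⟩
  have hlf : 0 ≤ Real.log (c ^ x) := Real.log_nonneg h1
  have h2 : c ^ y = c ^ x * c ^ (y - x) := by rw [← Real.rpow_add hc0]; congr 1; ring
  have h3 : 1 + (y - x) ≤ c ^ (y - x) := by
    rw [Real.rpow_def_of_pos hc0]
    refine le_trans ?_ (Real.add_one_le_exp _)
    nlinarith
  have h4 : (y - x) * c ^ x ≤ c ^ y - c ^ x := by
    rw [h2]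
    nlinarith
  have h5 : 0 ≤ c ^ y - c ^ x := le_trans (mul_nonneg (by linarith) (by linarith)) h4
  calc (y - x) * c ^ x ≤ 1 * (c ^ y - c ^ x) := by linarith
    _ ≤ (((1 : ℕ) : ℝ) * (1 + Real.log (c ^ x)) ^ 1) * (c ^ y - c ^ x) := by
        apply mul_le_mul_of_nonneg_right _ h5
        rw [Nat.cast_one, pow_one]
        linarith

/-- growing functions of one variable -/
theorem metric_growing {E : Set ℕ} (hE : LogThin E) {J : Type} (P : J → ℕ → Prop)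
    (hP : ∀ j, ∃ n₀ : ℕ, ∀ n : ℕ, n₀ ≤ n → n ∉ E → P j n) (a b : ℝ) (K : ℕ) (f : ℕ → ℝ → ℝ) (n₀ : ℕ)
    (hf : ∀ n, n₀ ≤ n → Growing a b K (f n)) (κ : ℝ) (hκ : 0 < κ)
    (hlow : ∀ n, n₀ ≤ n → ∀ x : ℝ, a ≤ x → x ≤ b → Real.exp (Real.log n ^ κ) ≤ f n x) :
    ∀ᵐ x : ℝ, a ≤ x → x ≤ b → ∀ j, ∀ W U : ℕ, ∃ N₀ : ℕ, ∀ N : ℕ, N₀ ≤ N →
      ({n : ℕ | 1 ≤ n ∧ n ≤ N ∧ ∃ m : ℕ, |(m : ℝ) - f n x| ≤ (1 + Real.log (f n x)) ^ W ∧ ¬ P j m}.ncard : ℝ) ≤
        N / Real.log N ^ U := by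
  obtain ⟨M, hM⟩ := exists_nat_ge (b - a)
  filter_upwards [metric_good hE P hP volume (Set.Icc a b) (4 * M + 4 * K * 2 ^ K + K) f n₀
    (fun n hn => spread_growing (hf n hn) hM) κ hκ (fun n hn x hx => hlow n hn x hx.1 hx.2)] with x hx ha hb
  exact hx ⟨ha, hb⟩

/-- from the compact intervals to the positive reals -/
lemma ae_pos_of {Q : ℝ → Prop} (h : ∀ M : ℕ, 1 ≤ M → ∀ᵐ x : ℝ, 1 / (M : ℝ) ≤ x → x ≤ M → Q x) : ∀ᵐ x : ℝ, 0 < x → Q x := by
  have h1 : ∀ᵐ x : ℝ, ∀ M : ℕ, 1 ≤ M → 1 / (M : ℝ) ≤ x → x ≤ M → Q x := by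
    rw [ae_all_iff]
    intro M
    by_cases hM : 1 ≤ M
    · filter_upwards [h M hM] with x hx _
      exact hx
    · exact Filter.Eventually.of_forall fun x hM' => absurd hM' hM
  filter_upwards [h1] with x hx hx0
  obtain ⟨M, hM⟩ := exists_nat_ge (max (max x (1 / x)) 1)
  have hM1 : (1 : ℝ) ≤ M := (le_max_right _ _).trans hM
  have hMx : x ≤ M := ((le_max_left _ _).trans (le_max_left _ _)).trans hM
  have hMx' : 1 / x ≤ M := ((le_max_right _ _).trans (le_max_left _ _)).trans hM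
  refine hx M (by exact_mod_cast hM1) ?_ hMx
  rw [div_le_iff₀ (by linarith)]
  rw [div_le_iff₀ hx0] at hMx'
  linarith

lemma exp_large {κ : ℝ} (hκ : 0 < κ) (c : ℝ) (hc : 0 < c) (D : ℝ) : ∃ n₁ : ℕ, ∀ n : ℕ, n₁ ≤ n →
    D ≤ Real.exp (Real.log n ^ κ) ∧ Real.log n ^ (κ / 2) ≤ c * Real.log n ^ κ ∧
      Real.exp (Real.log n ^ (κ / 2)) ≤ c * Real.exp (Real.log n ^ κ) := by
  have h1 : Tendsto (fun n : ℕ => Real.log n ^ κ) atTop atTop :=
    (tendsto_rpow_atTop hκ).comp (Real.tendsto_log_atTop.comp (tendsto_natCast_atTop_atTop (R := ℝ)))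
  have h2 : Tendsto (fun n : ℕ => Real.log n ^ (κ / 2)) atTop atTop :=
    (tendsto_rpow_atTop (by linarith)).comp (Real.tendsto_log_atTop.comp (tendsto_natCast_atTop_atTop (R := ℝ)))
  have h3 := (Real.tendsto_exp_atTop.comp h1).eventually_ge_atTop D
  have h4' := h2.eventually_ge_atTop (max (1 / c) (2 + |Real.log c|))
  obtain ⟨n₁, hn₁⟩ := eventually_atTop.1 ((h3.and h4').and
    ((Real.tendsto_log_atTop.comp (tendsto_natCast_atTop_atTop (R := ℝ))).eventually_ge_atTop 1))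
  refine ⟨n₁, fun n hn => ?_⟩
  obtain ⟨⟨a1, a2⟩, a3⟩ := hn₁ n hn
  simp only [Function.comp] at a1 a3
  have b1 : 1 / c ≤ Real.log n ^ (κ / 2) := (le_max_left _ _).trans a2
  have b2 : 2 + |Real.log c| ≤ Real.log n ^ (κ / 2) := (le_max_right _ _).trans a2
  have hsq : Real.log n ^ κ = Real.log n ^ (κ / 2) * Real.log n ^ (κ / 2) := by
    rw [← Real.rpow_add (by linarith)]
    congr 1
    ring
  have hy0 : 0 < Real.log n ^ (κ / 2) := by
    have := abs_nonneg (Real.log c)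
    linarith
  refine ⟨a1, ?_, ?_⟩
  · rw [hsq]
    rw [div_le_iff₀ hc] at b1
    nlinarith
  · have e : c * Real.exp (Real.log n ^ κ) = Real.exp (Real.log c + Real.log n ^ κ) := by
      rw [Real.exp_add, Real.exp_log hc]
    rw [e]
    apply Real.exp_le_exp.2
    rw [hsq]
    have b3 := neg_abs_le (Real.log c)
    nlinarith [abs_nonneg (Real.log c)]

/-- dilates with translations -/
theorem metric_affine {E : Set ℕ} (hE : LogThin E) {J : Type} (P : J → ℕ → Prop)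
    (hP : ∀ j, ∃ n₀ : ℕ, ∀ n : ℕ, n₀ ≤ n → n ∉ E → P j n) (b c : ℕ → ℝ) (K : ℕ) (κ : ℝ) (hκ : 0 < κ) (n₀ : ℕ)
    (hb : ∀ n, n₀ ≤ n → Real.exp (Real.log n ^ κ) ≤ b n)
    (hc : ∀ n, n₀ ≤ n → 0 ≤ c n ∧ c n ≤ K * b n * (1 + Real.log (b n)) ^ K) :
    ∀ᵐ x : ℝ, 0 < x → ∀ j, ∀ W U : ℕ, ∃ N₀ : ℕ, ∀ N : ℕ, N₀ ≤ N →
      ({n : ℕ | 1 ≤ n ∧ n ≤ N ∧ ∃ m : ℕ, |(m : ℝ) - (x * b n + c n)| ≤ (1 + Real.log (x * b n + c n)) ^ W ∧
        ¬ P j m}.ncard : ℝ) ≤ N / Real.log N ^ U := by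
  apply ae_pos_of
  intro M hM
  have hM1 : (1 : ℝ) ≤ M := by exact_mod_cast hM
  have hM0 : (0 : ℝ) < M := by linarith
  obtain ⟨n₁, hn₁⟩ := exp_large hκ (1 / (M : ℝ)) (by positivity) M
  refine metric_growing hE P hP (1 / (M : ℝ)) M (M + K * M ^ K + K) (fun n x => x * b n + c n) (max n₀ n₁) ?_
    (κ / 2) (by linarith) ?_
  · intro n hn
    have h1 := hb n ((le_max_left _ _).trans hn)
    obtain ⟨h2, _, _⟩ := hn₁ n ((le_max_right _ _).trans hn)
    obtain ⟨h3, h4⟩ := hc n ((le_max_left _ _).trans hn)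
    exact growing_affine hM (h2.trans h1) h3 h4
  · intro n hn x hx _
    have h1 := hb n ((le_max_left _ _).trans hn)
    obtain ⟨h2, _, h5⟩ := hn₁ n ((le_max_right _ _).trans hn)
    obtain ⟨h3, _⟩ := hc n ((le_max_left _ _).trans hn)
    refine h5.trans ?_
    have h6 : (1 / (M : ℝ)) * Real.exp (Real.log n ^ κ) ≤ x * b n :=
      mul_le_mul hx h1 (Real.exp_pos _).le (le_trans (by positivity) hx)
    linarith

/-- powers with a generic exponent -/
theorem metric_rpow {E : Set ℕ} (hE : LogThin E) {J : Type} (P : J → ℕ → Prop)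
    (hP : ∀ j, ∃ n₀ : ℕ, ∀ n : ℕ, n₀ ≤ n → n ∉ E → P j n) (b : ℕ → ℝ) (κ : ℝ) (hκ : 0 < κ) (n₀ : ℕ)
    (hb : ∀ n, n₀ ≤ n → Real.exp (Real.log n ^ κ) ≤ b n) :
    ∀ᵐ x : ℝ, 0 < x → ∀ j, ∀ W U : ℕ, ∃ N₀ : ℕ, ∀ N : ℕ, N₀ ≤ N →
      ({n : ℕ | 1 ≤ n ∧ n ≤ N ∧ ∃ m : ℕ, |(m : ℝ) - b n ^ x| ≤ (1 + Real.log (b n ^ x)) ^ W ∧ ¬ P j m}.ncard : ℝ) ≤
        N / Real.log N ^ U := by
  apply ae_pos_of
  intro M hM
  have hM1 : (1 : ℝ) ≤ M := by exact_mod_cast hM
  have hM0 : (0 : ℝ) < M := by linarith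
  obtain ⟨n₁, hn₁⟩ := exp_large hκ (1 / (M : ℝ)) (by positivity) (Real.exp 1)
  refine metric_growing hE P hP (1 / (M : ℝ)) M 1 (fun n x => b n ^ x) (max (max n₀ n₁) 3) ?_
    (κ / 2) (by linarith) ?_
  · intro n hn
    have h1 := hb n (((le_max_left _ _).trans (le_max_left _ _)).trans hn)
    obtain ⟨h2, _, _⟩ := hn₁ n (((le_max_right _ _).trans (le_max_left _ _)).trans hn)
    exact growing_rpow (by positivity) (h2.trans h1)
  · intro n hn x hx _
    have h1 := hb n (((le_max_left _ _).trans (le_max_left _ _)).trans hn)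
    obtain ⟨_, h5, _⟩ := hn₁ n (((le_max_right _ _).trans (le_max_left _ _)).trans hn)
    have hn3 : (3 : ℝ) ≤ n := by exact_mod_cast (le_max_right _ _).trans hn
    have hl0 : 0 ≤ Real.log n := Real.log_nonneg (by linarith)
    have hx0 : 0 ≤ x := le_trans (by positivity) hx
    calc Real.exp (Real.log n ^ (κ / 2)) ≤ Real.exp (x * Real.log n ^ κ) := by
          apply Real.exp_le_exp.2
          refine h5.trans ?_
          exact mul_le_mul_of_nonneg_right hx (Real.rpow_nonneg hl0 _)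
      _ = Real.exp (Real.log n ^ κ) ^ x := by rw [← Real.exp_mul]; ring_nf
      _ ≤ b n ^ x := Real.rpow_le_rpow (Real.exp_pos _).le h1 hx0

end Pool.Agent.V7H24.TR
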