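import Pool.Agent.V7H24.TR.Roots
import Pool.Agent.V7H24.TR.Fact

/-!
# Large divisors of the values of a separable polynomial at almost all integers
-/

set_option autoImplicit false

namespace Pool.Agent.V7H24.TR

open Finset Classical Filter Polynomial
open Pool.Agent.N375.AV (LogThin near_log)
open Pool.Agent.N733.TG (Expanding expanding_pow)

/-- the sum over the divisors in a set with a saving of every power of the logarithm -/
lemma poly_sum {E : Set ℕ} (hE : LogThin E) (J B : ℕ) : ∃ C : ℝ, 0 ≤ C ∧ ∀ (T : ℝ), 0 < T → ∀ D Y : ℕ, 1 ≤ D → 1 ≤ Y →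
    ∑ d ∈ (Icc D Y).filter (fun d => d ∈ E), ((J : ℝ) ^ d.primeFactors.card) / d ≤
      T * (C / (1 + Real.log D) ^ B) + (1 + Real.log Y) ^ (J ^ 2) / T := by
  obtain ⟨C, hC, htail⟩ := tail hE 0 B
  refine ⟨C, hC, fun T hT D Y hD hY => ?_⟩
  have hterm : ∀ d ∈ (Icc D Y).filter (fun d => d ∈ E), ((J : ℝ) ^ d.primeFactors.card) / d ≤
      T * ((1 + Real.log d) ^ 0 / d) + (1 / T) * ((((J ^ 2 : ℕ) : ℝ) ^ d.primeFactors.card) / d) := by
    intro d hd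
    rw [mem_filter, mem_Icc] at hd
    have hd0 : (0 : ℝ) < d := by exact_mod_cast (hD.trans hd.1.1)
    have h1 : (((J ^ 2 : ℕ) : ℝ) ^ d.primeFactors.card) = ((J : ℝ) ^ d.primeFactors.card) ^ 2 := by
      push_cast
      rw [← pow_mul, ← pow_mul, mul_comm]
    rw [h1, pow_zero]
    obtain ⟨x, hx⟩ : ∃ x : ℝ, x = (J : ℝ) ^ d.primeFactors.card := ⟨_, rfl⟩
    rw [← hx]
    have h2 : x ≤ T + x ^ 2 / T := by
      have h3 : T * x ≤ T * T + x ^ 2 := by nlinarith [sq_nonneg (x - T), sq_nonneg x, sq_nonneg T]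
      have h4 : x = T * x / T := by field_simp
      rw [h4]
      have h5 : T + (T * x / T) ^ 2 / T = (T * T + x ^ 2) / T := by
        rw [← h4]
        field_simp
      rw [h5]
      exact div_le_div_of_nonneg_right h3 hT.le
    calc x / d ≤ (T + x ^ 2 / T) / d := div_le_div_of_nonneg_right h2 hd0.le
      _ = T * (1 / d) + (1 / T) * (x ^ 2 / d) := by field_simp
  refine (sum_le_sum hterm).trans ?_
  rw [sum_add_distrib, ← mul_sum, ← mul_sum]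
  have h1 : ∑ d ∈ (Icc D Y).filter (fun d => d ∈ E), (1 + Real.log d) ^ 0 / (d : ℝ) ≤ C / (1 + Real.log D) ^ B := by
    apply htail D hD
    intro v hv
    rw [mem_filter, mem_Icc] at hv
    exact ⟨hv.2, hv.1.1⟩
  have h2 : ∑ d ∈ (Icc D Y).filter (fun d => d ∈ E), (((J ^ 2 : ℕ) : ℝ) ^ d.primeFactors.card) / (d : ℝ) ≤
      (1 + Real.log Y) ^ (J ^ 2) := by
    refine le_trans ?_ (omega_sum (J ^ 2) Y hY)
    apply sum_le_sum_of_subset_of_nonneg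
    · intro d hd
      rw [mem_filter, mem_Icc] at hd
      rw [mem_Icc]
      omega
    · intro d _ _
      positivity
  have h3 : (1 / T) * ∑ d ∈ (Icc D Y).filter (fun d => d ∈ E), (((J ^ 2 : ℕ) : ℝ) ^ d.primeFactors.card) / (d : ℝ) ≤
      (1 + Real.log Y) ^ (J ^ 2) / T := by
    rw [one_div_mul_eq_div]
    exact div_le_div_of_nonneg_right h2 hT.le
  exact add_le_add (mul_le_mul_of_nonneg_left h1 hT.le) h3

/-- **Divisors of polynomial values.** Let `f` be a separable integral polynomial. For all `m ≤ N` but `N / (log N) ^ U`, for all `l`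
with `|l - m| ≤ (log N) ^ A`, no divisor `d` of `f (l)` with `exp ((log N) ^ ε) ≤ d ≤ N (log N) ^ C` is within distance
`(1 + log d) ^ W` of a member of `E`. -/
theorem poly_divisors {E : Set ℕ} (hE : LogThin E) {f : ℤ[X]} (hf : (f.map (Int.castRingHom ℚ)).Separable) (ε : ℝ)
    (hε : 0 < ε) (A C W U : ℕ) : ∃ N₀ : ℕ, ∀ N : ℕ, N₀ ≤ N →
    ({m : ℕ | 1 ≤ m ∧ m ≤ N ∧ ∃ l : ℕ, 1 ≤ l ∧ |(l : ℝ) - m| ≤ Real.log N ^ A ∧ ∃ d : ℕ, (d : ℤ) ∣ f.eval (l : ℤ) ∧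
      Real.exp (Real.log N ^ ε) ≤ d ∧ (d : ℝ) ≤ N * Real.log N ^ C ∧
      ∃ n ∈ E, |(n : ℝ) - d| ≤ (1 + Real.log d) ^ W}.ncard : ℝ) ≤ N / Real.log N ^ U := by
  refine neighbours (fun N l => ∃ d : ℕ, (d : ℤ) ∣ f.eval (l : ℤ) ∧ Real.exp (Real.log N ^ ε) ≤ d ∧
    (d : ℝ) ≤ N * Real.log N ^ C ∧ ∃ n ∈ E, |(n : ℝ) - d| ≤ (1 + Real.log d) ^ W) (fun V => ?_) A U
  have hE' : LogThin {v : ℕ | ∃ n ∈ E, |(n : ℝ) - (fun v : ℕ => (1 : ℝ) * (v : ℝ) ^ (1 : ℝ)) v| ≤ (1 + Real.log v) ^ W} :=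
    near_log hE (expanding_pow one_pos le_rfl) W
  obtain ⟨E', hE'def⟩ : ∃ E' : Set ℕ, E' = {v : ℕ | ∃ n ∈ E,
    |(n : ℝ) - (fun v : ℕ => (1 : ℝ) * (v : ℝ) ^ (1 : ℝ)) v| ≤ (1 + Real.log v) ^ W} := ⟨_, rfl⟩
  rw [← hE'def] at hE'
  obtain ⟨u, v, R, hR, huv⟩ := exists_combination hf
  obtain ⟨Cf, hCf⟩ : ∃ Cf : ℕ, Cf = (R.natAbs ^ 3) ^ R.natAbs.primeFactors.card := ⟨_, rfl⟩
  obtain ⟨J, hJ⟩ : ∃ J : ℕ, J = f.natDegree + 1 := ⟨_, rfl⟩
  obtain ⟨H, hH⟩ : ∃ H : ℕ, H = J ^ 2 := ⟨_, rfl⟩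
  obtain ⟨M, hM⟩ : ∃ M : ℕ, M = C + H + V + 1 := ⟨_, rfl⟩
  obtain ⟨B, hB⟩ := exists_nat_ge (((C : ℝ) + M + V + 1) / ε)
  have hBε : (C : ℝ) + M + V + 1 ≤ B * ε := by rwa [div_le_iff₀ hε] at hB
  obtain ⟨C₁, hC₁, hsum⟩ := poly_sum hE' J B
  obtain ⟨κ, hκ⟩ : ∃ κ : ℝ, κ = 3 * Cf * (C₁ + ((C : ℝ) + 2) ^ H) := ⟨_, rfl⟩
  have hκ0 : 0 ≤ κ := by rw [hκ]; positivity
  have hlog := (Real.tendsto_log_atTop.comp (tendsto_natCast_atTop_atTop (R := ℝ))).eventually_ge_atTop (κ + 1)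
  obtain ⟨N₀, hN₀⟩ := Filter.eventually_atTop.1 (hlog.and (Filter.eventually_ge_atTop 3))
  refine ⟨N₀, fun N hN => ?_⟩
  obtain ⟨h1, h3⟩ := hN₀ N hN
  simp only [Function.comp] at h1
  have hN1 : (1 : ℝ) ≤ N := by exact_mod_cast (by omega : 1 ≤ N)
  have hN0 : (0 : ℝ) < N := by linarith
  have hl1 : 1 ≤ Real.log N := by linarith
  have hl0 : 0 < Real.log N := by linarith
  obtain ⟨D, hD⟩ : ∃ D, D = ⌈Real.exp (Real.log N ^ ε)⌉₊ := ⟨_, rfl⟩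
  have hD1 : 1 ≤ D := by
    rw [hD]
    exact Nat.one_le_ceil_iff.2 (Real.exp_pos _)
  have hDge : Real.exp (Real.log N ^ ε) ≤ D := by rw [hD]; exact Nat.le_ceil _
  have hlD : Real.log N ^ ε ≤ Real.log D := by
    rw [← Real.log_exp (Real.log N ^ ε)]
    exact Real.log_le_log (Real.exp_pos _) hDge
  have hlD0 : 0 ≤ Real.log D := Real.log_nonneg (by exact_mod_cast hD1)
  have hLC1 : (1 : ℝ) ≤ Real.log N ^ C := one_le_pow₀ hl1
  have hNC1 : (1 : ℝ) ≤ N * Real.log N ^ C := by nlinarith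
  obtain ⟨Y, hY⟩ : ∃ Y, Y = ⌊(N : ℝ) * Real.log N ^ C⌋₊ := ⟨_, rfl⟩
  have hYle : (Y : ℝ) ≤ N * Real.log N ^ C := by rw [hY]; exact Nat.floor_le (by linarith)
  have hY1 : 1 ≤ Y := by rw [hY]; exact Nat.le_floor (by exact_mod_cast hNC1)
  have hlY : 1 + Real.log Y ≤ ((C : ℝ) + 2) * Real.log N := by
    have e1 : Real.log Y ≤ Real.log (N * Real.log N ^ C) := Real.log_le_log (by exact_mod_cast hY1) hYle
    rw [Real.log_mul hN0.ne' (by positivity), Real.log_pow] at e1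
    have e2 : Real.log (Real.log N) ≤ Real.log N := (Real.log_le_sub_one_of_pos hl0).trans (by linarith)
    have e3 : (0 : ℝ) ≤ C := Nat.cast_nonneg _
    nlinarith
  have hsub : (Icc 1 (2 * N)).filter (fun l : ℕ => ∃ d : ℕ, (d : ℤ) ∣ f.eval (l : ℤ) ∧ Real.exp (Real.log N ^ ε) ≤ d ∧
      (d : ℝ) ≤ N * Real.log N ^ C ∧ ∃ n ∈ E, |(n : ℝ) - d| ≤ (1 + Real.log d) ^ W) ⊆
      ((Icc D Y).filter (fun d => d ∈ E')).biUnion (fun d => (Icc 1 (2 * N)).filter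
        (fun l : ℕ => (d : ℤ) ∣ f.eval (l : ℤ))) := by
    intro l hl
    rw [mem_filter] at hl
    obtain ⟨b1, d, b2, b3, b4, n, b5, b6⟩ := hl
    rw [mem_biUnion]
    refine ⟨d, ?_, ?_⟩
    · rw [mem_filter, mem_Icc, hE'def]
      refine ⟨⟨?_, ?_⟩, n, b5, by simpa using b6⟩
      · rw [hD]; exact Nat.ceil_le.2 b3
      · rw [hY]; exact Nat.le_floor b4
    · rw [mem_filter]
      exact ⟨b1, b2⟩
  have hcard : (((Icc 1 (2 * N)).filter (fun l : ℕ => ∃ d : ℕ, (d : ℤ) ∣ f.eval (l : ℤ) ∧ Real.exp (Real.log N ^ ε) ≤ d ∧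
      (d : ℝ) ≤ N * Real.log N ^ C ∧ ∃ n ∈ E, |(n : ℝ) - d| ≤ (1 + Real.log d) ^ W)).card : ℝ) ≤
      ∑ d ∈ (Icc D Y).filter (fun d => d ∈ E'), (((Icc 1 (2 * N)).filter (fun l : ℕ => (d : ℤ) ∣ f.eval (l : ℤ))).card : ℝ) := by
    exact_mod_cast (card_le_card hsub).trans card_biUnion_le
  refine hcard.trans ?_
  have hterm : ∀ d ∈ (Icc D Y).filter (fun d => d ∈ E'),
      (((Icc 1 (2 * N)).filter (fun l : ℕ => (d : ℤ) ∣ f.eval (l : ℤ))).card : ℝ) ≤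
      (3 * N * Real.log N ^ C * Cf) * (((J : ℝ) ^ d.primeFactors.card) / d) := by
    intro d hd
    rw [mem_filter, mem_Icc] at hd
    have hd1 : 1 ≤ d := hD1.trans hd.1.1
    have hd0 : (0 : ℝ) < d := by exact_mod_cast hd1
    refine (root_count f (2 * N) d hd1).trans ?_
    have e1 : (rho f d : ℝ) ≤ Cf * (J : ℝ) ^ d.primeFactors.card := by
      have := rho_le hR huv (d := d) (by omega)
      rw [← hCf, ← hJ] at this
      exact_mod_cast this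
    have e2 : ((2 * N : ℕ) : ℝ) / d + 1 ≤ 3 * N * Real.log N ^ C / d := by
      rw [div_add_one hd0.ne']
      apply div_le_div_of_nonneg_right _ hd0.le
      have e3 : (d : ℝ) ≤ Y := by exact_mod_cast hd.1.2
      push_cast
      nlinarith
    calc (rho f d : ℝ) * (((2 * N : ℕ) : ℝ) / d + 1) ≤ (Cf * (J : ℝ) ^ d.primeFactors.card) * (3 * N * Real.log N ^ C / d) := by
          apply mul_le_mul e1 e2 (by positivity) (by positivity)
      _ = _ := by ring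
  refine (sum_le_sum hterm).trans ?_
  rw [← mul_sum]
  have hs := hsum (Real.log N ^ M) (by positivity) D Y hD1 hY1
  rw [← hH] at hs
  have e3 : Real.log N ^ (C + M + V + 1) ≤ (1 + Real.log D) ^ B := by
    have f1 : (Real.log N ^ ε) ^ B ≤ (1 + Real.log D) ^ B := by
      apply pow_le_pow_left₀ (by positivity)
      linarith
    refine le_trans ?_ f1
    rw [← Real.rpow_natCast (Real.log N ^ ε), ← Real.rpow_mul (by linarith), ← Real.rpow_natCast (Real.log N)]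
    apply Real.rpow_le_rpow_of_exponent_le (by linarith)
    push_cast
    linarith
  have hlY0 : 0 ≤ Real.log Y := Real.log_nonneg (by exact_mod_cast hY1)
  have e4 : Real.log N ^ M * (C₁ / (1 + Real.log D) ^ B) ≤ C₁ / Real.log N ^ (C + V + 1) := by
    calc Real.log N ^ M * (C₁ / (1 + Real.log D) ^ B) ≤ Real.log N ^ M * (C₁ / Real.log N ^ (C + M + V + 1)) := by
          apply mul_le_mul_of_nonneg_left _ (by positivity)
          exact div_le_div_of_nonneg_left hC₁ (by positivity) e3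
      _ = C₁ / Real.log N ^ (C + V + 1) := by
          rw [show C + M + V + 1 = M + (C + V + 1) by ring, pow_add]
          field_simp
  have e5 : (1 + Real.log Y) ^ H / Real.log N ^ M ≤ ((C : ℝ) + 2) ^ H / Real.log N ^ (C + V + 1) := by
    calc (1 + Real.log Y) ^ H / Real.log N ^ M ≤ (((C : ℝ) + 2) * Real.log N) ^ H / Real.log N ^ M := by
          apply div_le_div_of_nonneg_right _ (by positivity)
          exact pow_le_pow_left₀ (by linarith) hlY _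
      _ = ((C : ℝ) + 2) ^ H / Real.log N ^ (C + V + 1) := by
          rw [hM, mul_pow, show C + H + V + 1 = H + (C + V + 1) by ring, pow_add]
          field_simp
  calc (3 * N * Real.log N ^ C * Cf) * ∑ d ∈ (Icc D Y).filter (fun d => d ∈ E'), ((J : ℝ) ^ d.primeFactors.card) / d
      ≤ (3 * N * Real.log N ^ C * Cf) * (C₁ / Real.log N ^ (C + V + 1) + ((C : ℝ) + 2) ^ H / Real.log N ^ (C + V + 1)) := by
        apply mul_le_mul_of_nonneg_left _ (by positivity)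
        linarith
    _ = (κ / Real.log N) * (N / Real.log N ^ V) := by
        rw [hκ, show C + V + 1 = C + (V + 1) by ring, pow_add, pow_add, pow_one]
        field_simp
    _ ≤ 1 * (N / Real.log N ^ V) := by
        apply mul_le_mul_of_nonneg_right _ (by positivity)
        rw [div_le_one hl0]
        linarith
    _ = N / Real.log N ^ V := one_mul _

/-- the same in positive form -/
theorem poly_good {E : Set ℕ} (hE : LogThin E) (P : ℕ → Prop) (hP : ∃ n₀ : ℕ, ∀ n : ℕ, n₀ ≤ n → n ∉ E → P n)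
    {f : ℤ[X]} (hf : (f.map (Int.castRingHom ℚ)).Separable) (ε : ℝ) (hε : 0 < ε) (A C W U : ℕ) :
    ∃ N₀ : ℕ, ∀ N : ℕ, N₀ ≤ N →
    ({m : ℕ | 1 ≤ m ∧ m ≤ N ∧ ∃ l : ℕ, 1 ≤ l ∧ |(l : ℝ) - m| ≤ Real.log N ^ A ∧ ∃ d : ℕ, (d : ℤ) ∣ f.eval (l : ℤ) ∧
      Real.exp (Real.log N ^ ε) ≤ d ∧ (d : ℝ) ≤ N * Real.log N ^ C ∧
      ∃ n : ℕ, |(n : ℝ) - d| ≤ (1 + Real.log d) ^ W ∧ ¬ P n}.ncard : ℝ) ≤ N / Real.log N ^ U := by
  obtain ⟨n₀, hn₀⟩ := hP
  obtain ⟨D₀, _, hD₀⟩ := near_large W n₀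
  obtain ⟨N₁, hN₁⟩ := poly_divisors hE hf ε hε A C W U
  have h1 : Tendsto (fun N : ℕ => Real.exp (Real.log N ^ ε)) atTop atTop :=
    Real.tendsto_exp_atTop.comp ((tendsto_rpow_atTop hε).comp
      (Real.tendsto_log_atTop.comp (tendsto_natCast_atTop_atTop (R := ℝ))))
  obtain ⟨N₂, hN₂⟩ := eventually_atTop.1 (h1.eventually_ge_atTop D₀)
  refine ⟨max N₁ N₂, fun N hN => le_trans ?_ (hN₁ N ((le_max_left _ _).trans hN))⟩
  have hD := hN₂ N ((le_max_right _ _).trans hN)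
  have hsub : {m : ℕ | 1 ≤ m ∧ m ≤ N ∧ ∃ l : ℕ, 1 ≤ l ∧ |(l : ℝ) - m| ≤ Real.log N ^ A ∧ ∃ d : ℕ,
      (d : ℤ) ∣ f.eval (l : ℤ) ∧ Real.exp (Real.log N ^ ε) ≤ d ∧ (d : ℝ) ≤ N * Real.log N ^ C ∧
      ∃ n : ℕ, |(n : ℝ) - d| ≤ (1 + Real.log d) ^ W ∧ ¬ P n} ⊆
      {m : ℕ | 1 ≤ m ∧ m ≤ N ∧ ∃ l : ℕ, 1 ≤ l ∧ |(l : ℝ) - m| ≤ Real.log N ^ A ∧ ∃ d : ℕ,
      (d : ℤ) ∣ f.eval (l : ℤ) ∧ Real.exp (Real.log N ^ ε) ≤ d ∧ (d : ℝ) ≤ N * Real.log N ^ C ∧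
      ∃ n ∈ E, |(n : ℝ) - d| ≤ (1 + Real.log d) ^ W} := by
    rintro m ⟨a1, a2, l, a3, a4, d, a5, a6, a7, n, a8, a9⟩
    refine ⟨a1, a2, l, a3, a4, d, a5, a6, a7, n, ?_, a8⟩
    by_contra hcon
    exact a9 (hn₀ n (hD₀ d (hD.trans a6) n a8) hcon)
  have hfin : {m : ℕ | 1 ≤ m ∧ m ≤ N ∧ ∃ l : ℕ, 1 ≤ l ∧ |(l : ℝ) - m| ≤ Real.log N ^ A ∧ ∃ d : ℕ,
      (d : ℤ) ∣ f.eval (l : ℤ) ∧ Real.exp (Real.log N ^ ε) ≤ d ∧ (d : ℝ) ≤ N * Real.log N ^ C ∧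
      ∃ n ∈ E, |(n : ℝ) - d| ≤ (1 + Real.log d) ^ W}.Finite :=
    (Set.finite_Iic N).subset fun m hm => hm.2.1
  exact_mod_cast Set.ncard_le_ncard hsub hfin

end Pool.Agent.V7H24.TR
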