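import Pool.Agent.V7H24.TR.Tail

/-!
# Families of random variables avoid sets with a saving of every power of the logarithm
-/

set_option autoImplicit false

namespace Pool.Agent.V7H24.TR

open Finset Classical MeasureTheory Filter
open Pool.Agent.N375.AV (LogThin near_log)
open Pool.Agent.N733.TG (Expanding expanding_pow)

/-- on `S` the law of `X` gives the intervals `[v - 1, v + 1]` at most the mass `K (1 + log v) ^ K / v` -/
def Spread {Ω : Type*} [MeasurableSpace Ω] (μ : Measure Ω) (S : Set Ω) (K : ℕ) (X : Ω → ℝ) : Prop :=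
  ∀ v : ℕ, 1 ≤ v → μ {ω | ω ∈ S ∧ |X ω - v| ≤ 1} ≤ ENNReal.ofReal (K * (1 + Real.log v) ^ K / v)

lemma near_floor {x : ℝ} (hx : 3 ≤ x) (W : ℕ) {n : ℕ} (hn : |(n : ℝ) - x| ≤ (1 + Real.log x) ^ W) :
    |(n : ℝ) - (⌊x⌋₊ : ℕ)| ≤ (1 + Real.log (⌊x⌋₊ : ℕ)) ^ (2 * W + 1) := by
  have hx0 : 0 < x := by linarith
  have h1 : (⌊x⌋₊ : ℝ) ≤ x := Nat.floor_le hx0.le
  have h2 : x < (⌊x⌋₊ : ℝ) + 1 := Nat.lt_floor_add_one x
  have h3 : (3 : ℝ) ≤ (⌊x⌋₊ : ℕ) := by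
    have : 3 ≤ ⌊x⌋₊ := Nat.le_floor (by exact_mod_cast hx)
    exact_mod_cast this
  obtain ⟨y, hy⟩ : ∃ y : ℝ, y = ((⌊x⌋₊ : ℕ) : ℝ) := ⟨_, rfl⟩
  rw [← hy] at h1 h2 h3 ⊢
  have hy0 : 0 < y := by linarith
  have hl : 1 ≤ Real.log y := by
    rw [Real.le_log_iff_exp_le hy0]
    have := Real.exp_one_lt_d9
    linarith
  have h4 : Real.log x ≤ Real.log y + 1 := by
    have e1 : x ≤ y * Real.exp 1 := by
      have := Real.add_one_le_exp (1 : ℝ)
      nlinarith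
    have e2 := Real.log_le_log hx0 e1
    rw [Real.log_mul hy0.ne' (Real.exp_pos _).ne', Real.log_exp] at e2
    exact e2
  have hlx : 0 ≤ Real.log x := Real.log_nonneg (by linarith)
  have h5 : (1 + Real.log x) ^ W ≤ (1 + Real.log y) ^ (2 * W) := by
    calc (1 + Real.log x) ^ W ≤ ((1 + Real.log y) ^ 2) ^ W := by
          apply pow_le_pow_left₀ (by linarith)
          nlinarith
      _ = (1 + Real.log y) ^ (2 * W) := by rw [← pow_mul]
  have h6 : (1 : ℝ) ≤ (1 + Real.log y) ^ (2 * W) := one_le_pow₀ (by linarith)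
  have h7 : |x - y| ≤ 1 := by rw [abs_le]; constructor <;> linarith
  calc |(n : ℝ) - y| = |((n : ℝ) - x) + (x - y)| := by ring_nf
    _ ≤ |(n : ℝ) - x| + |x - y| := abs_add_le _ _
    _ ≤ (1 + Real.log y) ^ (2 * W) + (1 + Real.log y) ^ (2 * W) := by linarith
    _ ≤ (1 + Real.log y) ^ (2 * W + 1) := by
        rw [pow_succ]
        nlinarith

/-- the probability that `X ≥ T` is near `E` -/
theorem spread_near {E : Set ℕ} (hE : LogThin E) (K W B : ℕ) : ∃ C : ℝ, 0 ≤ C ∧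
    ∀ {Ω : Type} [MeasurableSpace Ω] (μ : Measure Ω) (S : Set Ω) (X : Ω → ℝ), Spread μ S K X → ∀ T : ℝ, 3 ≤ T →
      μ {ω | ω ∈ S ∧ T ≤ X ω ∧ ∃ n ∈ E, |(n : ℝ) - X ω| ≤ (1 + Real.log (X ω)) ^ W} ≤
        ENNReal.ofReal (C / (1 + Real.log T) ^ B) := by
  have hE' := near_log hE (expanding_pow one_pos le_rfl) (2 * W + 1)
  obtain ⟨E', hE'def⟩ : ∃ E' : Set ℕ, E' = {v : ℕ | ∃ n ∈ E,
    |(n : ℝ) - (fun v : ℕ => (1 : ℝ) * (v : ℝ) ^ (1 : ℝ)) v| ≤ (1 + Real.log v) ^ (2 * W + 1)} := ⟨_, rfl⟩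
  rw [← hE'def] at hE'
  obtain ⟨C, hC, htail⟩ := tail hE' K B
  refine ⟨K * C * 2 ^ B, by positivity, fun {Ω} _ μ S X hX T hT => ?_⟩
  have hsub : {ω | ω ∈ S ∧ T ≤ X ω ∧ ∃ n ∈ E, |(n : ℝ) - X ω| ≤ (1 + Real.log (X ω)) ^ W} ⊆
      ⋃ v : ℕ, (if v ∈ E' ∧ ⌊T⌋₊ ≤ v then {ω | ω ∈ S ∧ |X ω - v| ≤ 1} else ∅) := by
    rintro ω ⟨h1, h2, n, h3, h4⟩
    rw [Set.mem_iUnion]
    refine ⟨⌊X ω⌋₊, ?_⟩
    rw [if_pos]
    · refine ⟨h1, ?_⟩
      have a1 : (⌊X ω⌋₊ : ℝ) ≤ X ω := Nat.floor_le (by linarith)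
      have a2 : X ω < (⌊X ω⌋₊ : ℝ) + 1 := Nat.lt_floor_add_one _
      rw [abs_le]
      constructor <;> linarith
    · refine ⟨?_, Nat.floor_mono h2⟩
      rw [hE'def]
      refine ⟨n, h3, ?_⟩
      simpa using near_floor (by linarith) W h4
  refine (measure_mono hsub).trans ((measure_iUnion_le _).trans ?_)
  have hT1 : 3 ≤ ⌊T⌋₊ := Nat.le_floor (by exact_mod_cast hT)
  have hbound : ∀ v : ℕ, μ (if v ∈ E' ∧ ⌊T⌋₊ ≤ v then {ω | ω ∈ S ∧ |X ω - v| ≤ 1} else ∅) ≤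
      ENNReal.ofReal (if v ∈ E' ∧ ⌊T⌋₊ ≤ v then K * ((1 + Real.log v) ^ K / v) else 0) := by
    intro v
    by_cases h : v ∈ E' ∧ ⌊T⌋₊ ≤ v
    · rw [if_pos h, if_pos h, ← mul_div_assoc]
      exact hX v (by omega)
    · rw [if_neg h, measure_empty]
      exact zero_le
  refine (ENNReal.tsum_le_tsum hbound).trans ?_
  rw [ENNReal.tsum_eq_iSup_sum]
  apply iSup_le
  intro F
  rw [← ENNReal.ofReal_sum_of_nonneg]
  · apply ENNReal.ofReal_le_ofReal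
    rw [← sum_filter, ← mul_sum]
    have h1 := htail ⌊T⌋₊ (by omega) (F.filter fun v => v ∈ E' ∧ ⌊T⌋₊ ≤ v) (by
      intro v hv
      rw [mem_filter] at hv
      exact hv.2)
    have hlogT : (1 + Real.log T) / 2 ≤ 1 + Real.log (⌊T⌋₊ : ℕ) := by
      have a2 : T < (⌊T⌋₊ : ℝ) + 1 := Nat.lt_floor_add_one _
      have a3 : (3 : ℝ) ≤ (⌊T⌋₊ : ℕ) := by exact_mod_cast hT1
      have a4 : Real.log T ≤ Real.log (⌊T⌋₊ : ℕ) + 1 := by
        have e1 : T ≤ (⌊T⌋₊ : ℕ) * Real.exp 1 := by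
          have := Real.add_one_le_exp (1 : ℝ)
          nlinarith
        have e2 := Real.log_le_log (by linarith) e1
        rw [Real.log_mul (by linarith) (Real.exp_pos _).ne', Real.log_exp] at e2
        exact e2
      have a5 : 0 ≤ Real.log (⌊T⌋₊ : ℕ) := Real.log_nonneg (by linarith)
      linarith
    have hlT : 0 ≤ Real.log T := Real.log_nonneg (by linarith)
    have h2 : C / (1 + Real.log (⌊T⌋₊ : ℕ)) ^ B ≤ C * 2 ^ B / (1 + Real.log T) ^ B := by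
      rw [mul_div_assoc]
      rw [div_eq_mul_one_div C]
      apply mul_le_mul_of_nonneg_left _ hC
      have hp : (0 : ℝ) < 1 + Real.log (⌊T⌋₊ : ℕ) := by linarith
      rw [div_le_div_iff₀ (by positivity) (by positivity), one_mul, ← mul_pow]
      apply pow_le_pow_left₀ (by positivity)
      linarith
    calc (K : ℝ) * ∑ i ∈ F.filter (fun v => v ∈ E' ∧ ⌊T⌋₊ ≤ v), (1 + Real.log i) ^ K / i
        ≤ K * (C * 2 ^ B / (1 + Real.log T) ^ B) := mul_le_mul_of_nonneg_left (h1.trans h2) (Nat.cast_nonneg _)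
      _ = K * C * 2 ^ B / (1 + Real.log T) ^ B := by ring
  · intro v _
    split_ifs with h
    · have hl : 0 ≤ Real.log v := Real.log_nonneg (by exact_mod_cast (by omega : 1 ≤ v))
      positivity
    · exact le_rfl

/-- **Random families.** Let `X_i` be random variables with `X_i ≥ exp t_i` and laws of density at most `K (1 + log v) ^ K / v` at
the unit scale, and let the sum of `(1 + t_i) ^ (-A)` converge. Almost surely, for all but finitely many `i` no member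
of `E` is within distance `(1 + log X_i) ^ W` of `X_i`. -/
theorem families {E : Set ℕ} (hE : LogThin E) {Ω ι : Type} [MeasurableSpace Ω] [Countable ι] (μ : Measure Ω)
    (S : Set Ω) (K A : ℕ) (X : ι → Ω → ℝ) (t : ι → ℝ) (ht : ∀ i, 2 ≤ t i) (hX : ∀ i, Spread μ S K (X i))
    (hlow : ∀ i, ∀ ω ∈ S, Real.exp (t i) ≤ X i ω) (hsum : Summable fun i => 1 / (1 + t i) ^ A) :
    ∀ᵐ ω ∂μ, ω ∈ S → ∀ W : ℕ, {i | ∃ n ∈ E, |(n : ℝ) - X i ω| ≤ (1 + Real.log (X i ω)) ^ W}.Finite := by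
  have hW : ∀ W : ℕ, ∀ᵐ ω ∂μ, ω ∈ S → {i | ∃ n ∈ E, |(n : ℝ) - X i ω| ≤ (1 + Real.log (X i ω)) ^ W}.Finite := by
    intro W
    obtain ⟨C, hC, h⟩ := spread_near hE K W A
    have hvol : ∀ i, μ {ω | ω ∈ S ∧ Real.exp (t i) ≤ X i ω ∧ ∃ n ∈ E, |(n : ℝ) - X i ω| ≤
        (1 + Real.log (X i ω)) ^ W} ≤ ENNReal.ofReal (C * (1 / (1 + t i) ^ A)) := by
      intro i
      have h3 : (3 : ℝ) ≤ Real.exp (t i) := by
        have := Real.add_one_le_exp (t i)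
        linarith [ht i]
      have h1 := h μ S (X i) (hX i) (Real.exp (t i)) h3
      rw [Real.log_exp] at h1
      rwa [mul_one_div]
    have hfin : ∑' i, μ {ω | ω ∈ S ∧ Real.exp (t i) ≤ X i ω ∧ ∃ n ∈ E, |(n : ℝ) - X i ω| ≤
        (1 + Real.log (X i ω)) ^ W} ≠ ⊤ := by
      refine ne_top_of_le_ne_top ?_ (ENNReal.tsum_le_tsum hvol)
      exact (hsum.mul_left C).tsum_ofReal_ne_top
    filter_upwards [ae_finite_setOf_mem hfin] with ω hω hS
    refine hω.subset ?_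
    rintro i hi
    exact ⟨hS, hlow i ω hS, hi⟩
  rw [← ae_all_iff] at hW
  filter_upwards [hW] with ω hω hS W
  exact hω W hS

end Pool.Agent.V7H24.TR
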