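import Mathlib

/-!
# The number of the roots of a separable integral polynomial modulo `d`
-/

set_option autoImplicit false

namespace Pool.Agent.V7H24.TR

open Finset Classical Polynomial

/-- the number of the roots of `f` modulo `d` -/
noncomputable def rho (f : ℤ[X]) (d : ℕ) : ℕ := ((range d).filter (fun r : ℕ => (d : ℤ) ∣ f.eval (r : ℤ))).card

lemma eval_congr (f : ℤ[X]) {d a b : ℤ} (h : d ∣ a - b) (ha : d ∣ f.eval a) : d ∣ f.eval b := by
  have h1 := (h.trans (Polynomial.sub_dvd_eval_sub a b f))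
  have h2 := dvd_sub ha h1
  simpa using h2

lemma emod_dvd_sub (m r : ℕ) : (m : ℤ) ∣ (r : ℤ) - ((r % m : ℕ) : ℤ) := by
  refine ⟨((r / m : ℕ) : ℤ), ?_⟩
  have h : ((m * (r / m) + r % m : ℕ) : ℤ) = r := by exact_mod_cast Nat.div_add_mod r m
  push_cast at h ⊢
  linarith

lemma rho_mul (f : ℤ[X]) {m n : ℕ} (hmn : m.Coprime n) : rho f (m * n) ≤ rho f m * rho f n := by
  unfold rho
  rw [← card_product]
  apply card_le_card_of_injOn (fun r => (r % m, r % n))
  · intro r hr
    rw [Finset.mem_coe, mem_filter, mem_range] at hr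
    obtain ⟨h1, h2⟩ := hr
    have hm : 0 < m := Nat.pos_of_ne_zero (by rintro rfl; simp at h1)
    have hn : 0 < n := Nat.pos_of_ne_zero (by rintro rfl; simp at h1)
    rw [Finset.mem_coe, mem_product, mem_filter, mem_filter, mem_range, mem_range]
    push_cast at h2
    refine ⟨⟨Nat.mod_lt _ hm, ?_⟩, ⟨Nat.mod_lt _ hn, ?_⟩⟩
    · exact eval_congr f (emod_dvd_sub m r) ((dvd_mul_right _ _).trans h2)
    · exact eval_congr f (emod_dvd_sub n r) ((dvd_mul_left _ _).trans h2)
  · intro r hr s hs hrs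
    rw [Finset.mem_coe, mem_filter, mem_range] at hr hs
    simp only [Prod.mk.injEq] at hrs
    have h1 : r ≡ s [MOD m * n] := (Nat.modEq_and_modEq_iff_modEq_mul hmn).1 hrs
    exact Nat.ModEq.eq_of_lt_of_lt h1 hr.1 hs.1

lemma pow_dvd_left {p k δ : ℕ} (hp : p.Prime) {h t : ℤ} (h1 : (p : ℤ) ^ k ∣ h * t) (h2 : ¬ (p : ℤ) ^ (δ + 1) ∣ t) :
    (p : ℤ) ^ (k - δ) ∣ h := by
  rcases eq_or_ne h 0 with h0 | h0
  · rw [h0]
    exact dvd_zero _
  · have ht0 : t ≠ 0 := by
      rintro rfl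
      exact h2 (dvd_zero _)
    have a1 : p ^ k ∣ h.natAbs * t.natAbs := by
      rw [← Int.natAbs_mul, ← Int.natCast_dvd]
      exact_mod_cast h1
    have a2 : ¬ p ^ (δ + 1) ∣ t.natAbs := by
      rw [← Int.natCast_dvd]
      exact_mod_cast h2
    have b1 : h.natAbs ≠ 0 := Int.natAbs_ne_zero.2 h0
    have b2 : t.natAbs ≠ 0 := Int.natAbs_ne_zero.2 ht0
    rw [hp.pow_dvd_iff_le_factorization (mul_ne_zero b1 b2), Nat.factorization_mul b1 b2, Finsupp.add_apply] at a1
    rw [hp.pow_dvd_iff_le_factorization b2] at a2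
    have a3 : p ^ (k - δ) ∣ h.natAbs := by
      rw [hp.pow_dvd_iff_le_factorization b1]
      omega
    rw [← Int.natCast_dvd] at a3
    exact_mod_cast a3

lemma key {f u v : ℤ[X]} {R : ℤ} (huv : u * f + v * derivative f = C R) {p δ k : ℕ} (hp : p.Prime)
    (hδ : ¬ (p : ℤ) ^ (δ + 1) ∣ R) (hk : δ + 1 ≤ k) {r s : ℤ} (hr : (p : ℤ) ^ k ∣ f.eval r) (hs : (p : ℤ) ^ k ∣ f.eval s)
    (hrs : (p : ℤ) ^ (δ + 1) ∣ r - s) : (p : ℤ) ^ (k - δ) ∣ r - s := by
  obtain ⟨c, hc⟩ := f.binomExpansion s (r - s)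
  have h1 : f.eval r = f.eval s + (r - s) * ((derivative f).eval s + c * (r - s)) := by
    have : s + (r - s) = r := by ring
    rw [this] at hc
    rw [hc]
    ring
  have h2 : (p : ℤ) ^ k ∣ (r - s) * ((derivative f).eval s + c * (r - s)) := by
    have := dvd_sub hr hs
    rw [h1] at this
    simpa using this
  refine pow_dvd_left hp h2 ?_
  intro h3
  apply hδ
  have h4 : (p : ℤ) ^ (δ + 1) ∣ (derivative f).eval s := by
    have := dvd_sub h3 (hrs.mul_left c)
    simpa using this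
  have h5 : (p : ℤ) ^ (δ + 1) ∣ f.eval s := (pow_dvd_pow _ hk).trans hs
  have h6 := congrArg (fun g => Polynomial.eval s g) huv
  simp only [eval_add, eval_mul, eval_C] at h6
  rw [← h6]
  exact dvd_add (h5.mul_left _) (h4.mul_left _)

lemma eq_of_dvd_sub {q r s : ℕ} (hr : r < q) (hs : s < q) (h : (q : ℤ) ∣ (r : ℤ) - s) : r = s := by
  have h1 : (s : ℤ) ≡ r [ZMOD q] := (Int.modEq_iff_dvd).2 h
  have h2 : s ≡ r [MOD q] := (Int.natCast_modEq_iff).1 h1
  exact (Nat.ModEq.eq_of_lt_of_lt h2 hs hr).symm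

lemma rho_bad {f u v : ℤ[X]} {R : ℤ} (huv : u * f + v * derivative f = C R) {p δ : ℕ} (hp : p.Prime)
    (hδ : ¬ (p : ℤ) ^ (δ + 1) ∣ R) (k : ℕ) : rho f (p ^ k) ≤ p ^ (2 * δ + 1) := by
  rcases Nat.lt_or_ge k (δ + 1) with hk | hk
  · refine ((card_filter_le _ _).trans (le_of_eq (card_range _))).trans ?_
    exact Nat.pow_le_pow_right hp.pos (by omega)
  · have hcard : p ^ (2 * δ + 1) = ((range (p ^ (δ + 1))) ×ˢ (range (p ^ δ))).card := by
      rw [card_product, card_range, card_range, ← pow_add]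
      congr 1
      omega
    rw [hcard]
    apply card_le_card_of_injOn (fun r => (r % p ^ (δ + 1), r / p ^ (k - δ)))
    · intro r hr
      rw [Finset.mem_coe, mem_filter, mem_range] at hr
      rw [Finset.mem_coe, mem_product, mem_range, mem_range]
      refine ⟨Nat.mod_lt _ (pow_pos hp.pos _), ?_⟩
      apply Nat.div_lt_of_lt_mul
      rw [← pow_add, Nat.sub_add_cancel (by omega)]
      exact hr.1
    · intro r hr s hs hrs
      rw [Finset.mem_coe, mem_filter, mem_range] at hr hs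
      simp only [Prod.mk.injEq] at hrs
      obtain ⟨e1, e2⟩ := hrs
      have h1 : (p : ℤ) ^ (δ + 1) ∣ (r : ℤ) - s := by
        have a1 := emod_dvd_sub (p ^ (δ + 1)) r
        have a2 := emod_dvd_sub (p ^ (δ + 1)) s
        rw [e1] at a1
        have a3 := dvd_sub a1 a2
        push_cast at a3
        simpa using a3
      have hr2 := hr.2
      have hs2 := hs.2
      push_cast at hr2 hs2
      have h2 := key huv hp hδ hk hr2 hs2 h1
      have h3 : r % p ^ (k - δ) = s % p ^ (k - δ) := by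
        have : (s : ℤ) ≡ r [ZMOD ((p ^ (k - δ) : ℕ) : ℤ)] := (Int.modEq_iff_dvd).2 (by push_cast; exact h2)
        exact ((Int.natCast_modEq_iff).1 this).symm
      rw [← Nat.div_add_mod r (p ^ (k - δ)), ← Nat.div_add_mod s (p ^ (k - δ)), e2, h3]

lemma rho_good {f u v : ℤ[X]} {R : ℤ} (huv : u * f + v * derivative f = C R) {p : ℕ} (hp : p.Prime)
    (hR : ¬ (p : ℤ) ∣ R) {k : ℕ} (hk : 1 ≤ k) : rho f (p ^ k) ≤ f.natDegree := by
  have : Fact p.Prime := ⟨hp⟩
  obtain ⟨F, hF⟩ : ∃ F : (ZMod p)[X], F = f.map (Int.castRingHom (ZMod p)) := ⟨_, rfl⟩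
  have hF0 : F ≠ 0 := by
    intro h0
    apply hR
    have h1 := congrArg (fun g => Polynomial.map (Int.castRingHom (ZMod p)) g) huv
    simp only [Polynomial.map_add, Polynomial.map_mul, Polynomial.map_C, ← Polynomial.derivative_map] at h1
    rw [← hF, h0, derivative_zero, mul_zero, mul_zero, add_zero] at h1
    have h2 := (Polynomial.C_eq_zero).1 h1.symm
    exact (ZMod.intCast_zmod_eq_zero_iff_dvd R p).1 h2
  have h1 : rho f (p ^ k) ≤ F.roots.toFinset.card := by
    unfold rho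
    apply card_le_card_of_injOn (fun r : ℕ => (r : ZMod p))
    · intro r hr
      rw [Finset.mem_coe, mem_filter, mem_range] at hr
      rw [Finset.mem_coe, Multiset.mem_toFinset, mem_roots hF0, IsRoot.def, hF]
      have h2 : (p : ℤ) ∣ f.eval (r : ℤ) := by
        refine dvd_trans ?_ hr.2
        push_cast
        exact dvd_pow_self _ (by omega)
      have h3 := (ZMod.intCast_zmod_eq_zero_iff_dvd (f.eval (r : ℤ)) p).2 h2
      show eval ((r : ℕ) : ZMod p) (Polynomial.map (Int.castRingHom (ZMod p)) f) = 0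
      rw [show ((r : ℕ) : ZMod p) = (Int.castRingHom (ZMod p)) (r : ℤ) by simp, Polynomial.eval_map_apply]
      exact h3
    · intro r hr s hs hrs
      rw [Finset.mem_coe, mem_filter, mem_range] at hr hs
      have h2 : (p : ℤ) ∣ (r : ℤ) - s := by
        rw [← ZMod.intCast_zmod_eq_zero_iff_dvd]
        push_cast
        simp only at hrs
        rw [hrs, sub_self]
      have hr2 := hr.2
      have hs2 := hs.2
      push_cast at hr2 hs2
      have h3 := key huv hp (δ := 0) (by simpa using hR) (by omega) hr2 hs2 (by simpa using h2)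
      rw [Nat.sub_zero] at h3
      exact eq_of_dvd_sub hr.1 hs.1 (by push_cast; exact h3)
  calc rho f (p ^ k) ≤ F.roots.toFinset.card := h1
    _ ≤ F.roots.card := Multiset.toFinset_card_le _
    _ ≤ F.natDegree := card_roots' F
    _ ≤ f.natDegree := by rw [hF]; exact natDegree_map_le

/-- the local bounds -/
noncomputable def cc (f : ℤ[X]) (R : ℤ) (p : ℕ) : ℕ := if (p : ℤ) ∣ R then R.natAbs ^ 3 else f.natDegree

lemma rho_pp {f u v : ℤ[X]} {R : ℤ} (hR : R ≠ 0) (huv : u * f + v * derivative f = C R) {p : ℕ} (hp : p.Prime) {k : ℕ}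
    (hk : 1 ≤ k) : rho f (p ^ k) ≤ cc f R p := by
  unfold cc
  split_ifs with h
  · obtain ⟨δ, hδ⟩ : ∃ δ, δ = R.natAbs.factorization p := ⟨_, rfl⟩
    have hR' : R.natAbs ≠ 0 := Int.natAbs_ne_zero.2 hR
    have h1 : ¬ (p : ℤ) ^ (δ + 1) ∣ R := by
      intro h2
      have h3 : p ^ (δ + 1) ∣ R.natAbs := by
        rw [← Int.natCast_dvd]
        exact_mod_cast h2
      rw [hp.pow_dvd_iff_le_factorization hR'] at h3
      omega
    have h4 : p ^ δ ≤ R.natAbs := by
      apply Nat.le_of_dvd (Nat.pos_of_ne_zero hR')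
      rw [hp.pow_dvd_iff_le_factorization hR']
      omega
    have h5 : 1 ≤ δ := by
      have : p ^ 1 ∣ R.natAbs := by
        rw [pow_one, ← Int.natCast_dvd]
        exact h
      rw [hp.pow_dvd_iff_le_factorization hR'] at this
      omega
    calc rho f (p ^ k) ≤ p ^ (2 * δ + 1) := rho_bad huv hp h1 k
      _ ≤ p ^ (δ * 3) := Nat.pow_le_pow_right hp.pos (by omega)
      _ = (p ^ δ) ^ 3 := pow_mul _ _ _
      _ ≤ R.natAbs ^ 3 := Nat.pow_le_pow_left h4 3
  · exact rho_good huv hp h hk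

lemma rho_le_prod {f u v : ℤ[X]} {R : ℤ} (hR : R ≠ 0) (huv : u * f + v * derivative f = C R) (d : ℕ) :
    d ≠ 0 → rho f d ≤ ∏ p ∈ d.primeFactors, cc f R p := by
  induction d using Nat.recOnPosPrimePosCoprime with
  | prime_pow p k hp hk =>
    intro _
    rw [Nat.primeFactors_prime_pow hk.ne' hp, prod_singleton]
    exact rho_pp hR huv hp hk
  | zero => intro h; exact absurd rfl h
  | one =>
    intro _
    rw [Nat.primeFactors_one, prod_empty]
    exact (card_filter_le _ _).trans (le_of_eq (card_range _))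
  | coprime a b ha hb hab iha ihb =>
    intro _
    refine (rho_mul f hab).trans ?_
    rw [hab.primeFactors_mul, prod_union hab.disjoint_primeFactors]
    exact Nat.mul_le_mul (iha (by omega)) (ihb (by omega))

lemma rho_le {f u v : ℤ[X]} {R : ℤ} (hR : R ≠ 0) (huv : u * f + v * derivative f = C R) {d : ℕ} (hd : d ≠ 0) :
    rho f d ≤ (R.natAbs ^ 3) ^ R.natAbs.primeFactors.card * (f.natDegree + 1) ^ d.primeFactors.card := by
  have hR' : R.natAbs ≠ 0 := Int.natAbs_ne_zero.2 hR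
  have hR1 : 1 ≤ R.natAbs ^ 3 := Nat.one_le_pow _ _ (Nat.pos_of_ne_zero hR')
  refine (rho_le_prod hR huv d hd).trans ?_
  have h1 : ∏ p ∈ d.primeFactors, cc f R p ≤
      ∏ p ∈ d.primeFactors, ((if (p : ℤ) ∣ R then R.natAbs ^ 3 else 1) * (f.natDegree + 1)) := by
    apply prod_le_prod'
    intro p _
    unfold cc
    split_ifs with h
    · exact Nat.le_mul_of_pos_right _ (by omega)
    · omega
  refine h1.trans ?_
  rw [prod_mul_distrib, prod_const]
  apply Nat.mul_le_mul_right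
  rw [← prod_filter, prod_const]
  apply Nat.pow_le_pow_right hR1
  apply card_le_card
  intro p hp
  rw [mem_filter] at hp
  rw [Nat.mem_primeFactors] at hp ⊢
  exact ⟨hp.1.1, Int.natCast_dvd.1 hp.2, hR'⟩

lemma pow_omega (j d : ℕ) (hd : d ≠ 0) : (j + 1) ^ d.primeFactors.card ≤ ∑ e ∈ d.divisors, j ^ e.primeFactors.card := by
  have h1 := Finset.sum_pow_mul_eq_add_pow j 1 d.primeFactors
  simp only [one_pow, mul_one] at h1
  rw [← h1]
  have hinj : Set.InjOn (fun t : Finset ℕ => ∏ p ∈ t, p) (d.primeFactors.powerset : Set (Finset ℕ)) := by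
    intro s hs t ht hst
    rw [Finset.mem_coe, mem_powerset] at hs ht
    simp only at hst
    rw [← Nat.primeFactors_prod (s := s) fun p hp => Nat.prime_of_mem_primeFactors (hs hp),
      ← Nat.primeFactors_prod (s := t) fun p hp => Nat.prime_of_mem_primeFactors (ht hp), hst]
  have h2 : ∑ t ∈ d.primeFactors.powerset, j ^ t.card =
      ∑ e ∈ d.primeFactors.powerset.image (fun t : Finset ℕ => ∏ p ∈ t, p), j ^ e.primeFactors.card := by
    rw [sum_image hinj]
    apply sum_congr rfl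
    intro t ht
    rw [mem_powerset] at ht
    rw [Nat.primeFactors_prod fun p hp => Nat.prime_of_mem_primeFactors (ht hp)]
  rw [h2]
  apply sum_le_sum_of_subset
  intro e he
  rw [mem_image] at he
  obtain ⟨t, ht, rfl⟩ := he
  rw [mem_powerset] at ht
  rw [Nat.mem_divisors]
  refine ⟨?_, hd⟩
  exact (prod_dvd_prod_of_subset _ _ _ ht).trans (Nat.prod_primeFactors_dvd d)

lemma harm' (M : ℕ) : ∑ n ∈ Icc 1 M, 1 / (n : ℝ) ≤ 1 + Real.log M := by
  have h := harmonic_le_one_add_log M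
  rw [harmonic_eq_sum_Icc] at h
  push_cast at h
  simpa [one_div] using h

lemma omega_sum (j Y : ℕ) (hY : 1 ≤ Y) :
    ∑ d ∈ Icc 1 Y, ((j : ℝ) ^ d.primeFactors.card) / d ≤ (1 + Real.log Y) ^ j := by
  induction j with
  | zero =>
    rw [pow_zero]
    have : ∑ d ∈ Icc 1 Y, (((0 : ℕ) : ℝ) ^ d.primeFactors.card) / d = 1 := by
      rw [sum_eq_single 1]
      · simp
      · intro d hd hd1
        rw [mem_Icc] at hd
        have h1 : d.primeFactors.card ≠ 0 := by
          rw [Ne, card_eq_zero, Nat.primeFactors_eq_empty]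
          omega
        rw [Nat.cast_zero, zero_pow h1, zero_div]
      · intro h
        exact absurd (mem_Icc.2 ⟨le_rfl, hY⟩) h
    exact this.le
  | succ j ih =>
    have hlY : 0 ≤ Real.log Y := Real.log_nonneg (by exact_mod_cast hY)
    have h1 : ∀ d ∈ Icc 1 Y, (((j + 1 : ℕ) : ℝ) ^ d.primeFactors.card) / d ≤
        ∑ x ∈ d.divisorsAntidiagonal, ((j : ℝ) ^ x.1.primeFactors.card / x.1) * (1 / (x.2 : ℝ)) := by
      intro d hd
      rw [mem_Icc] at hd
      have hd0 : d ≠ 0 := by omega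
      have h2 : (((j + 1 : ℕ) : ℝ) ^ d.primeFactors.card) ≤ ∑ e ∈ d.divisors, (j : ℝ) ^ e.primeFactors.card := by
        exact_mod_cast pow_omega j d hd0
      have h3 : ∑ x ∈ d.divisorsAntidiagonal, ((j : ℝ) ^ x.1.primeFactors.card / x.1) * (1 / (x.2 : ℝ)) =
          (∑ e ∈ d.divisors, (j : ℝ) ^ e.primeFactors.card) / d := by
        have h4 : ∑ x ∈ d.divisorsAntidiagonal, ((j : ℝ) ^ x.1.primeFactors.card / x.1) * (1 / (x.2 : ℝ)) =
            ∑ x ∈ d.divisorsAntidiagonal, (fun a _ => (j : ℝ) ^ a.primeFactors.card / (d : ℝ)) x.1 x.2 := by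
          apply sum_congr rfl
          intro x hx
          rw [Nat.mem_divisorsAntidiagonal] at hx
          have h5 : (d : ℝ) = x.1 * x.2 := by exact_mod_cast hx.1.symm
          simp only
          rw [h5, div_mul_div_comm, mul_one]
        rw [h4, Nat.sum_divisorsAntidiagonal (fun a _ => (j : ℝ) ^ a.primeFactors.card / (d : ℝ)), sum_div]
      rw [h3]
      exact div_le_div_of_nonneg_right h2 (Nat.cast_nonneg _)
    refine (sum_le_sum h1).trans ?_
    have h6 : ∑ d ∈ Icc 1 Y, ∑ x ∈ d.divisorsAntidiagonal, ((j : ℝ) ^ x.1.primeFactors.card / x.1) * (1 / (x.2 : ℝ)) ≤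
        ∑ x ∈ (Icc 1 Y) ×ˢ (Icc 1 Y), ((j : ℝ) ^ x.1.primeFactors.card / x.1) * (1 / (x.2 : ℝ)) := by
      rw [← sum_biUnion]
      · apply sum_le_sum_of_subset_of_nonneg
        · intro x hx
          rw [mem_biUnion] at hx
          obtain ⟨d, hd, hx⟩ := hx
          rw [mem_Icc] at hd
          rw [Nat.mem_divisorsAntidiagonal] at hx
          rw [mem_product, mem_Icc, mem_Icc]
          have p1 : 0 < x.1 := Nat.pos_of_ne_zero (by intro h; rw [h, zero_mul] at hx; omega)
          have p2 : 0 < x.2 := Nat.pos_of_ne_zero (by intro h; rw [h, mul_zero] at hx; omega)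
          have p3 : x.1 ≤ x.1 * x.2 := Nat.le_mul_of_pos_right _ p2
          have p4 : x.2 ≤ x.1 * x.2 := Nat.le_mul_of_pos_left _ p1
          omega
        · intro x _ _
          positivity
      · intro a _ b _ hab
        rw [Function.onFun, disjoint_left]
        intro x hx hx'
        rw [Nat.mem_divisorsAntidiagonal] at hx hx'
        exact hab (hx.1.symm.trans hx'.1)
    refine h6.trans ?_
    rw [sum_product]
    have h7 : ∑ a ∈ Icc 1 Y, ∑ b ∈ Icc 1 Y, ((j : ℝ) ^ a.primeFactors.card / a) * (1 / (b : ℝ)) =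
        (∑ a ∈ Icc 1 Y, (j : ℝ) ^ a.primeFactors.card / a) * ∑ b ∈ Icc 1 Y, 1 / (b : ℝ) := by
      rw [sum_mul_sum]
    rw [h7, pow_succ]
    apply mul_le_mul ih (harm' Y) (sum_nonneg fun n _ => by positivity) (by positivity)

/-- the arguments `l ≤ M` for which `d` divides `f l` -/
lemma root_count (f : ℤ[X]) (M d : ℕ) (hd : 1 ≤ d) :
    (((Icc 1 M).filter (fun l : ℕ => (d : ℤ) ∣ f.eval (l : ℤ))).card : ℝ) ≤ rho f d * (M / d + 1) := by
  have h1 : ((Icc 1 M).filter (fun l : ℕ => (d : ℤ) ∣ f.eval (l : ℤ))).card ≤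
      (((range d).filter (fun r : ℕ => (d : ℤ) ∣ f.eval (r : ℤ))) ×ˢ (range (M / d + 1))).card := by
    apply card_le_card_of_injOn (fun l => (l % d, l / d))
    · intro l hl
      rw [Finset.mem_coe, mem_filter, mem_Icc] at hl
      rw [Finset.mem_coe, mem_product, mem_filter, mem_range, mem_range]
      refine ⟨⟨Nat.mod_lt _ hd, eval_congr f (emod_dvd_sub d l) hl.2⟩, ?_⟩
      exact Nat.lt_succ_of_le (Nat.div_le_div_right hl.1.2)
    · intro a _ b _ hab
      simp only [Prod.mk.injEq] at hab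
      rw [← Nat.div_add_mod a d, ← Nat.div_add_mod b d, hab.1, hab.2]
  rw [card_product, card_range] at h1
  have h2 : (((Icc 1 M).filter (fun l : ℕ => (d : ℤ) ∣ f.eval (l : ℤ))).card : ℝ) ≤ (rho f d : ℝ) * (((M / d : ℕ) : ℝ) + 1) := by
    exact_mod_cast h1
  refine h2.trans (mul_le_mul_of_nonneg_left ?_ (Nat.cast_nonneg _))
  have := Nat.cast_div_le (α := ℝ) (m := M) (n := d)
  linarith

/-- a separable polynomial and its derivative generate an ideal which contains a nonzero integer -/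
lemma exists_combination {f : ℤ[X]} (hf : (f.map (Int.castRingHom ℚ)).Separable) :
    ∃ (u v : ℤ[X]) (R : ℤ), R ≠ 0 ∧ u * f + v * derivative f = C R := by
  obtain ⟨a, b, hab⟩ := hf
  obtain ⟨r, hr0, hr⟩ := IsLocalization.integerNormalization_spec (nonZeroDivisors ℤ) a
  obtain ⟨s, hs0, hs⟩ := IsLocalization.integerNormalization_spec (nonZeroDivisors ℤ) b
  obtain ⟨u, hu⟩ : ∃ u, u = IsLocalization.integerNormalization (nonZeroDivisors ℤ) a := ⟨_, rfl⟩
  obtain ⟨v, hv⟩ : ∃ v, v = IsLocalization.integerNormalization (nonZeroDivisors ℤ) b := ⟨_, rfl⟩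
  rw [← hu] at hr
  rw [← hv] at hs
  have hcast : algebraMap ℤ ℚ = Int.castRingHom ℚ := rfl
  rw [hcast] at hr hs
  refine ⟨C (s : ℤ) * u, C (r : ℤ) * v, (r : ℤ) * s, mul_ne_zero (nonZeroDivisors.ne_zero hr0) (nonZeroDivisors.ne_zero hs0), ?_⟩
  apply Polynomial.map_injective (Int.castRingHom ℚ) Int.cast_injective
  simp only [Polynomial.map_add, Polynomial.map_mul, Polynomial.map_C, ← Polynomial.derivative_map, hr, hs]
  rw [← Int.cast_smul_eq_zsmul ℚ, ← Int.cast_smul_eq_zsmul ℚ, smul_eq_C_mul, smul_eq_C_mul]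
  simp only [eq_intCast, map_mul] at hab ⊢
  linear_combination (C ((r : ℤ) : ℚ) * C ((s : ℤ) : ℚ)) * hab

end Pool.Agent.V7H24.TR
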