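import Mathlib
import Pool.Agent.N375.AV.L2

/-!
# Tails of sets with a saving of every power of the logarithm
-/

set_option autoImplicit false

namespace Pool.Agent.V7H24.TR

open Finset Classical
open Pool.Agent.N375.AV (LogThin)

lemma log_two_le : Real.log 2 ≤ 1 := by
  have := Real.log_two_lt_d9
  linarith

lemma half_le_log_two : (1 : ℝ) / 2 ≤ Real.log 2 := by
  have := Real.log_two_gt_d9
  linarith

/-- the logarithm is at most the number of binary digits -/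
lemma log_le_digits {v : ℕ} (hv : 1 ≤ v) : Real.log v ≤ (Nat.log 2 v : ℝ) + 1 := by
  have h1 : v < 2 ^ (Nat.log 2 v + 1) := Nat.lt_pow_succ_log_self (by norm_num) v
  have hv0 : (0 : ℝ) < v := by exact_mod_cast hv
  have h2 : (v : ℝ) ≤ 2 ^ (Nat.log 2 v + 1) := by exact_mod_cast h1.le
  have h3 := Real.log_le_log hv0 h2
  rw [Real.log_pow] at h3
  push_cast at h3
  have h4 : (0 : ℝ) ≤ (Nat.log 2 v : ℝ) + 1 := by positivity
  nlinarith [log_two_le]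

/-- the members of `E` with `j + 1` binary digits -/
lemma block {E : Set ℕ} {A : ℕ} {K' : ℝ} (hK' : 0 ≤ K')
    (h : ∀ X : ℕ, 1 ≤ X → (((range (X + 1)).filter (fun v => v ∈ E)).card : ℝ) ≤ K' * X / (1 + Real.log X) ^ A)
    (j : ℕ) (S : Finset ℕ) (hS : ∀ v ∈ S, v ∈ E ∧ 1 ≤ v ∧ Nat.log 2 v = j) (K : ℕ) :
    ∑ v ∈ S, (1 + Real.log v) ^ K / v ≤ 2 * K' * 2 ^ A * 2 ^ K * ((j : ℝ) + 1) ^ K / ((j : ℝ) + 1) ^ A := by
  have h2j : (0 : ℝ) < 2 ^ j := by positivity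
  have hterm : ∀ v ∈ S, (1 + Real.log v) ^ K / v ≤ (2 * ((j : ℝ) + 1)) ^ K / 2 ^ j := by
    intro v hv
    obtain ⟨_, h1, h2⟩ := hS v hv
    have h3 : 2 ^ j ≤ v := by rw [← h2]; exact Nat.pow_log_le_self 2 (by omega)
    have h3' : (2 : ℝ) ^ j ≤ v := by exact_mod_cast h3
    have h4 := log_le_digits h1
    rw [h2] at h4
    have h5 : 0 ≤ Real.log v := Real.log_nonneg (by exact_mod_cast h1)
    apply div_le_div₀ (by positivity) _ h2j h3'
    apply pow_le_pow_left₀ (by linarith)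
    linarith [(by positivity : (0 : ℝ) ≤ (j : ℝ))]
  have hcard : (S.card : ℝ) ≤ 2 * K' * 2 ^ j * 2 ^ A / ((j : ℝ) + 1) ^ A := by
    have hsub : S ⊆ (range (2 ^ (j + 1) + 1)).filter (fun v => v ∈ E) := by
      intro v hv
      obtain ⟨h0, h1, h2⟩ := hS v hv
      rw [mem_filter, mem_range]
      refine ⟨?_, h0⟩
      have := Nat.lt_pow_succ_log_self (b := 2) (by norm_num) v
      rw [h2] at this
      omega
    have h1 : (S.card : ℝ) ≤ (((range (2 ^ (j + 1) + 1)).filter (fun v => v ∈ E)).card : ℝ) := by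
      exact_mod_cast card_le_card hsub
    refine h1.trans ((h (2 ^ (j + 1)) Nat.one_le_two_pow).trans ?_)
    push_cast
    rw [Real.log_pow]
    push_cast
    have hpos : (0 : ℝ) < ((j : ℝ) + 1) / 2 := by positivity
    have h2 : ((j : ℝ) + 1) / 2 ≤ 1 + ((j : ℝ) + 1) * Real.log 2 := by nlinarith [half_le_log_two]
    have h3 : (((j : ℝ) + 1) / 2) ^ A ≤ (1 + ((j : ℝ) + 1) * Real.log 2) ^ A := pow_le_pow_left₀ hpos.le h2 A
    calc K' * 2 ^ (j + 1) / (1 + ((j : ℝ) + 1) * Real.log 2) ^ A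
        ≤ K' * 2 ^ (j + 1) / (((j : ℝ) + 1) / 2) ^ A := by
          apply div_le_div_of_nonneg_left (by positivity) (by positivity) h3
      _ = 2 * K' * 2 ^ j * 2 ^ A / ((j : ℝ) + 1) ^ A := by
          rw [div_pow, pow_succ]
          field_simp
  calc ∑ v ∈ S, (1 + Real.log v) ^ K / v ≤ ∑ _v ∈ S, (2 * ((j : ℝ) + 1)) ^ K / 2 ^ j := sum_le_sum hterm
    _ = S.card * ((2 * ((j : ℝ) + 1)) ^ K / 2 ^ j) := by rw [sum_const, nsmul_eq_mul]
    _ ≤ (2 * K' * 2 ^ j * 2 ^ A / ((j : ℝ) + 1) ^ A) * ((2 * ((j : ℝ) + 1)) ^ K / 2 ^ j) := by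
        apply mul_le_mul_of_nonneg_right hcard (by positivity)
    _ = 2 * K' * 2 ^ A * 2 ^ K * ((j : ℝ) + 1) ^ K / ((j : ℝ) + 1) ^ A := by
        rw [mul_pow]
        field_simp

lemma inv_sq_sum (J M : ℕ) : ∑ j ∈ Ico J M, 1 / ((j : ℝ) + 1) ^ 2 ≤ 2 := by
  have h : ∀ M : ℕ, ∑ j ∈ range (M + 1), 1 / ((j : ℝ) + 1) ^ 2 ≤ 2 - 1 / ((M : ℝ) + 1) := by
    intro M
    induction M with
    | zero => norm_num
    | succ M ih =>
      rw [sum_range_succ]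
      push_cast at ih ⊢
      have h0 : (0 : ℝ) < (M : ℝ) + 1 := by positivity
      have h1 : 1 / ((M : ℝ) + 1 + 1) ^ 2 ≤ 1 / ((M : ℝ) + 1) - 1 / ((M : ℝ) + 1 + 1) := by
        have e : 1 / ((M : ℝ) + 1) - 1 / ((M : ℝ) + 1 + 1) = 1 / (((M : ℝ) + 1) * ((M : ℝ) + 1 + 1)) := by
          field_simp
          ring
        rw [e]
        apply one_div_le_one_div_of_le (by positivity)
        nlinarith
      linarith
  have h2 : ∑ j ∈ Ico J M, 1 / ((j : ℝ) + 1) ^ 2 ≤ ∑ j ∈ range (M + 1), 1 / ((j : ℝ) + 1) ^ 2 := by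
    apply sum_le_sum_of_subset_of_nonneg
    · intro j hj
      rw [mem_Ico] at hj
      rw [mem_range]
      omega
    · intro j _ _
      positivity
  have h3 := h M
  have h4 : 0 ≤ 1 / ((M : ℝ) + 1) := by positivity
  linarith

/-- the sum of `(1 + log v)^K / v` over the members `v ≥ V` of `E` is smaller than every power of `1 / log V` -/
theorem tail {E : Set ℕ} (hE : LogThin E) (K B : ℕ) : ∃ C : ℝ, 0 ≤ C ∧ ∀ V : ℕ, 1 ≤ V → ∀ S : Finset ℕ,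
    (∀ v ∈ S, v ∈ E ∧ V ≤ v) → ∑ v ∈ S, (1 + Real.log v) ^ K / v ≤ C / (1 + Real.log V) ^ B := by
  obtain ⟨K₁, hK₁⟩ := hE (K + B + 2)
  have hK' : ∀ X : ℕ, 1 ≤ X → (((range (X + 1)).filter (fun v => v ∈ E)).card : ℝ) ≤
      |K₁| * X / (1 + Real.log X) ^ (K + B + 2) := by
    intro X hX
    refine (hK₁ X hX).trans ?_
    have h1 : 0 ≤ Real.log X := Real.log_nonneg (by exact_mod_cast hX)
    apply div_le_div_of_nonneg_right _ (by positivity)
    exact mul_le_mul_of_nonneg_right (le_abs_self _) (Nat.cast_nonneg _)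
  obtain ⟨A, hA⟩ : ∃ A, A = K + B + 2 := ⟨_, rfl⟩
  rw [← hA] at hK'
  refine ⟨2 * |K₁| * 2 ^ A * 2 ^ K * 2 * 2 ^ B, by positivity, fun V hV S hS => ?_⟩
  obtain ⟨J, hJ⟩ : ∃ J, J = Nat.log 2 V := ⟨_, rfl⟩
  obtain ⟨M, hM⟩ : ∃ M, M = S.sup (fun v => Nat.log 2 v) + 1 := ⟨_, rfl⟩
  have hmaps : ∀ v ∈ S, Nat.log 2 v ∈ Ico J M := by
    intro v hv
    obtain ⟨_, h2⟩ := hS v hv
    rw [mem_Ico, hJ, hM]
    exact ⟨Nat.log_mono_right h2, Nat.lt_succ_of_le (le_sup (f := fun v => Nat.log 2 v) hv)⟩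
  rw [← sum_fiberwise_of_maps_to hmaps]
  have hV1 : 0 ≤ Real.log V := Real.log_nonneg (by exact_mod_cast hV)
  have hJ1 : (1 + Real.log V) / 2 ≤ (J : ℝ) + 1 := by
    have h1 := log_le_digits hV
    rw [← hJ] at h1
    have h2 : (0 : ℝ) ≤ (J : ℝ) := by positivity
    linarith
  have hblock : ∀ j ∈ Ico J M, ∑ v ∈ S with Nat.log 2 v = j, (1 + Real.log v) ^ K / v ≤
      (2 * |K₁| * 2 ^ A * 2 ^ K * 2 ^ B / (1 + Real.log V) ^ B) * (1 / ((j : ℝ) + 1) ^ 2) := by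
    intro j hj
    rw [mem_Ico] at hj
    have h1 := block (abs_nonneg K₁) hK' j (S.filter (fun v => Nat.log 2 v = j)) (by
      intro v hv
      rw [mem_filter] at hv
      exact ⟨(hS v hv.1).1, hV.trans (hS v hv.1).2, hv.2⟩) K
    refine h1.trans ?_
    have hj0 : (0 : ℝ) < (j : ℝ) + 1 := by positivity
    have hjJ : (J : ℝ) + 1 ≤ (j : ℝ) + 1 := by
      have : (J : ℝ) ≤ j := by exact_mod_cast hj.1
      linarith
    have e1 : 2 * |K₁| * 2 ^ A * 2 ^ K * ((j : ℝ) + 1) ^ K / ((j : ℝ) + 1) ^ A =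
        (2 * |K₁| * 2 ^ A * 2 ^ K) * (1 / ((j : ℝ) + 1) ^ B) * (1 / ((j : ℝ) + 1) ^ 2) := by
      rw [hA]
      field_simp
      ring
    have h3 : 1 / ((j : ℝ) + 1) ^ B ≤ 2 ^ B / (1 + Real.log V) ^ B := by
      rw [div_le_div_iff₀ (by positivity) (by positivity), one_mul, ← mul_pow]
      apply pow_le_pow_left₀ (by positivity)
      linarith
    rw [e1]
    calc (2 * |K₁| * 2 ^ A * 2 ^ K) * (1 / ((j : ℝ) + 1) ^ B) * (1 / ((j : ℝ) + 1) ^ 2)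
        ≤ (2 * |K₁| * 2 ^ A * 2 ^ K) * (2 ^ B / (1 + Real.log V) ^ B) * (1 / ((j : ℝ) + 1) ^ 2) := by
          apply mul_le_mul_of_nonneg_right _ (by positivity)
          exact mul_le_mul_of_nonneg_left h3 (by positivity)
      _ = (2 * |K₁| * 2 ^ A * 2 ^ K * 2 ^ B / (1 + Real.log V) ^ B) * (1 / ((j : ℝ) + 1) ^ 2) := by ring
  refine (sum_le_sum hblock).trans ?_
  rw [← mul_sum]
  calc (2 * |K₁| * 2 ^ A * 2 ^ K * 2 ^ B / (1 + Real.log V) ^ B) * ∑ j ∈ Ico J M, 1 / ((j : ℝ) + 1) ^ 2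
      ≤ (2 * |K₁| * 2 ^ A * 2 ^ K * 2 ^ B / (1 + Real.log V) ^ B) * 2 :=
        mul_le_mul_of_nonneg_left (inv_sq_sum J M) (by positivity)
    _ = 2 * |K₁| * 2 ^ A * 2 ^ K * 2 * 2 ^ B / (1 + Real.log V) ^ B := by ring

end Pool.Agent.V7H24.TR
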